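import Pool.Agent.H95.DT.CodC

/-!
# Two-transitive groups in dimension five: basic facts
-/

namespace Pool.Agent.H95.D4

open Module Pool.Agent.H20.ProjTwoTrans Pool.Agent.H95.DT
open scoped commutatorElement

variable {F V : Type*} [Field F] [AddCommGroup V] [Module F V]
variable {G : Subgroup (V ≃ₗ[F] V)}

/-- Elements of `G` which are scalar on a subspace of dimension three are scalar. -/
def R3 (G : Subgroup (V ≃ₗ[F] V)) : Prop :=
  ∀ g ∈ G, ∀ c : F, ∀ P : Submodule F V, 3 ≤ finrank F P → (∀ x ∈ P, g x = c • x) →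
    ∀ x, g x = c • x

theorem R3_of_NoP [FiniteDimensional F V] (hP : NoP G) (hd : finrank F V = 5) (hG : TwoTrans G)
    (hF : ∃ s : F, s ≠ 0 ∧ s ^ 12 ≠ 1) : R3 G := by
  intro g hg c P hP3 hgc
  have hPne : P ≠ ⊥ := by
    rintro rfl
    simp at hP3
  obtain ⟨y, hy, hy0⟩ := Submodule.exists_mem_ne_zero_of_ne_bot hPne
  have hc0 : c ≠ 0 := by
    rintro rfl
    have := hgc y hy
    rw [zero_smul] at this
    exact hy0 (g.map_eq_zero_iff.1 this)
  obtain ⟨z, hz, ez⟩ := hG.scalar c⁻¹ (inv_ne_zero hc0)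
  set N : V →ₗ[F] V := ((z * g : V ≃ₗ[F] V) : V →ₗ[F] V) - LinearMap.id with hN
  have hNa : ∀ x, N x = c⁻¹ • g x - x := by
    intro x
    rw [hN, LinearMap.sub_apply, LinearEquiv.coe_coe, apply_mul, ez, LinearMap.id_apply]
  have hIn : In G N := ⟨z * g, G.mul_mem hz hg, fun x => by rw [hNa, apply_mul, ez]; abel⟩
  have hle : P ≤ LinearMap.ker N := by
    intro x hx
    rw [LinearMap.mem_ker, hNa, hgc x hx, smul_smul, inv_mul_cancel₀ hc0, one_smul, sub_self]
  have h2 := LinearMap.finrank_range_add_finrank_ker N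
  have h3 := Submodule.finrank_mono hle
  have h4 := rank_two hP (by omega) hG hF hIn (by omega)
  intro x
  have h5 := hNa x
  rw [h4, LinearMap.zero_apply] at h5
  have h6 : c⁻¹ • g x = x := sub_eq_zero.1 h5.symm
  conv_rhs => rw [← h6]
  rw [smul_smul, mul_inv_cancel₀ hc0, one_smul]

/-- an element of `G` fixing a line pointwise and one more vector is trivial -/
lemma fix3 [FiniteDimensional F V] (hR : R3 G) {L : Submodule F V} (hL : finrank F L = 2)
    {g : V ≃ₗ[F] V} (hg : g ∈ G) (h1 : ∀ x ∈ L, g x = x) {v : V} (hv : v ∉ L) (hgv : g v = v) :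
    g = 1 := by
  have h2 := hR g hg 1 (L ⊔ Submodule.span F {v})
    (by rw [Submodule.finrank_sup_span_singleton hv, hL]) (by
      intro x hx
      obtain ⟨y, hy, z, hz, rfl⟩ := Submodule.mem_sup.1 hx
      obtain ⟨c, rfl⟩ := Submodule.mem_span_singleton.1 hz
      rw [map_add, map_smul, h1 y hy, hgv, one_smul])
  ext x
  rw [h2 x, one_smul]
  rfl

/-- an element of `G` which is scalar modulo a line is scalar -/
lemma quot_scalar [FiniteDimensional F V] (hR : R3 G) (hd : finrank F V = 5) {L : Submodule F V}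
    (hL : finrank F L = 2) {g : V ≃ₗ[F] V} (hg : g ∈ G) {c : F}
    (h1 : ∀ x, g x - c • x ∈ L) (x : V) : g x = c • x := by
  set N : V →ₗ[F] V := (g : V →ₗ[F] V) - c • LinearMap.id with hN
  have hNa : ∀ x, N x = g x - c • x := fun x => rfl
  have hle : LinearMap.range N ≤ L := by
    rintro _ ⟨x, rfl⟩
    exact h1 x
  have h2 := LinearMap.finrank_range_add_finrank_ker N
  have h3 := Submodule.finrank_mono hle
  exact hR g hg c (LinearMap.ker N) (by omega) (fun x hx => by
    have : N x = 0 := hx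
    rw [hNa] at this
    exact sub_eq_zero.1 this) x

/-- an element of `G` whose square is a scalar with a square root is a scalar -/
lemma sq_scalar [FiniteDimensional F V] (hR : R3 G) (hd : finrank F V = 5)
    {g : V ≃ₗ[F] V} (hg : g ∈ G) {d : F} (h1 : ∀ x, g (g x) = (d * d) • x) :
    ∃ μ : F, ∀ x, g x = μ • x := by
  set A : V →ₗ[F] V := (g : V →ₗ[F] V) - d • LinearMap.id with hA
  set B : V →ₗ[F] V := (g : V →ₗ[F] V) + d • LinearMap.id with hB
  have hAa : ∀ x, A x = g x - d • x := fun x => rfl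
  have hBa : ∀ x, B x = g x + d • x := fun x => rfl
  have hle : LinearMap.range B ≤ LinearMap.ker A := by
    rintro _ ⟨x, rfl⟩
    rw [LinearMap.mem_ker, hAa, hBa, map_add, map_smul, h1]
    module
  have h2 := LinearMap.finrank_range_add_finrank_ker B
  have h3 := Submodule.finrank_mono hle
  by_cases h4 : 3 ≤ finrank F (LinearMap.ker A)
  · exact ⟨d, hR g hg d _ h4 (fun x hx => by
      have : A x = 0 := hx
      rw [hAa] at this
      exact sub_eq_zero.1 this)⟩
  · exact ⟨-d, hR g hg (-d) (LinearMap.ker B) (by omega) (fun x hx => by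
      have : B x = 0 := hx
      rw [hBa] at this
      rw [neg_smul]
      exact eq_neg_of_add_eq_zero_left this)⟩

/-- an element of `G` whose square is trivial and which has a fixed vector is trivial -/
lemma sq_one [FiniteDimensional F V] (hR : R3 G) (hd : finrank F V = 5)
    {g : V ≃ₗ[F] V} (hg : g ∈ G) (h1 : ∀ x, g (g x) = x) {v : V} (hv : v ≠ 0) (hgv : g v = v) :
    g = 1 := by
  obtain ⟨μ, hμ⟩ := sq_scalar hR hd hg (d := 1) (fun x => by rw [h1, one_mul, one_smul])
  have h2 : (μ - 1) • v = 0 := by rw [sub_smul, one_smul, ← hμ, hgv, sub_self]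
  have h3 : μ = 1 := sub_eq_zero.1 ((smul_eq_zero.1 h2).resolve_right hv)
  ext x
  rw [hμ, h3, one_smul]
  rfl

lemma one_apply (x : V) : (1 : V ≃ₗ[F] V) x = x := rfl

/-! ### groups inducing `SL` on a line -/

/-- `H` preserves `L` and induces all transvections on it. -/
def Big (H : Subgroup (V ≃ₗ[F] V)) (L : Submodule F V) : Prop :=
  (∀ h ∈ H, ∀ x, h x ∈ L ↔ x ∈ L) ∧ ∀ v ∈ L, ∀ w ∈ L, LinearIndependent F ![v, w] → ∀ b : F,
    ∃ h ∈ H, h v = v ∧ h w = w + b • v

/-- the stabilizer of a line -/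
def St (G : Subgroup (V ≃ₗ[F] V)) (L : Submodule F V) : Subgroup (V ≃ₗ[F] V) where
  carrier := {g | g ∈ G ∧ ∀ x, g x ∈ L ↔ x ∈ L}
  mul_mem' := by
    rintro a b ⟨ha, ha'⟩ ⟨hb, hb'⟩
    exact ⟨G.mul_mem ha hb, fun x => by rw [apply_mul, ha', hb']⟩
  one_mem' := ⟨G.one_mem, fun x => Iff.rfl⟩
  inv_mem' := by
    rintro a ⟨ha, ha'⟩
    refine ⟨G.inv_mem ha, fun x => ?_⟩
    rw [← ha', apply_inv]

lemma iff_of_le [FiniteDimensional F V] {L : Submodule F V} {e : V ≃ₗ[F] V}
    (h : ∀ x ∈ L, e x ∈ L) (x : V) : e x ∈ L ↔ x ∈ L := by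
  constructor
  · intro hx
    have := inv_mem_of h hx
    rwa [inv_apply] at this
  · exact h x

lemma mem_St [FiniteDimensional F V] {L : Submodule F V} {g : V ≃ₗ[F] V} (hg : g ∈ G)
    (h : ∀ x ∈ L, g x ∈ L) : g ∈ St G L := ⟨hg, iff_of_le h⟩

theorem big_St [FiniteDimensional F V] (hG : TwoTrans G) {L : Submodule F V}
    (hL : finrank F L = 2) : Big (St G L) L := by
  refine ⟨fun h hh => hh.2, fun v hv w hw hind b => ?_⟩
  obtain ⟨k, hk, hkv, hkw⟩ := exists_unip hG hind b
  refine ⟨k, mem_St hk ?_, hkv, hkw⟩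
  intro x hx
  obtain ⟨α, β, rfl⟩ := exists_comb hL hv hw hind hx
  simp only [map_add, map_smul, hkv, hkw]
  exact L.add_mem (L.smul_mem _ hv) (L.smul_mem _ (L.add_mem hw (L.smul_mem _ hv)))

lemma Big.diag {H : Subgroup (V ≃ₗ[F] V)} {L : Submodule F V} (hH : Big H L) {v w : V}
    (hv : v ∈ L) (hw : w ∈ L) (h : LinearIndependent F ![v, w]) {s : F}
    (hs : s ≠ 0) : ∃ k ∈ H, k v = s • v ∧ k w = s⁻¹ • w := by
  obtain ⟨u1, hu1, a1, a2⟩ := hH.2 v hv w hw h s
  obtain ⟨l1, hl1, b1, b2⟩ := hH.2 w hw v hv (indep_swap h) (-s⁻¹)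
  obtain ⟨u2, hu2, c1, c2⟩ := hH.2 v hv w hw h (-1)
  obtain ⟨l2, hl2, d1, d2⟩ := hH.2 w hw v hv (indep_swap h) 1
  refine ⟨u1 * l1 * u1 * u2 * l2 * u2, ?_, ?_, ?_⟩
  · exact H.mul_mem (H.mul_mem (H.mul_mem (H.mul_mem (H.mul_mem hu1 hl1) hu1) hu2) hl2) hu2
  · simp only [apply_mul, map_add, map_smul, a1, a2, b1, b2, c1, c2, d1, d2]
    have : s * s⁻¹ = 1 := mul_inv_cancel₀ hs
    match_scalars
    · linear_combination (-s) * this
    · linear_combination -this
  · simp only [apply_mul, map_add, map_smul, a1, a2, b1, b2, c1, c2, d1, d2]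
    have : s * s⁻¹ = 1 := mul_inv_cancel₀ hs
    match_scalars
    · ring
    · linear_combination this

/-- the commutator of a diagonal element and a transvection -/
lemma comm_diag {e u : V ≃ₗ[F] V} {v w : V} {s c b : F} (hs : s ≠ 0) (hs2 : s ^ 2 - 1 ≠ 0)
    (hev : e v = s • v) (hew : e w = s⁻¹ • w) (huv : u v = v) (huw : u w = w + c • v)
    (hc : c = b / (s ^ 2 - 1)) : ⁅e, u⁆ v = v ∧ ⁅e, u⁆ w = w + b • v := by
  have hs' : s * s⁻¹ = 1 := mul_inv_cancel₀ hs
  have hk : ⁅e, u⁆ = (e * u) * (u * e)⁻¹ := by rw [commutatorElement_def]; group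
  set k := ⁅e, u⁆ with hkdef
  have hk1 : ∀ x, k (u (e x)) = e (u x) := by
    intro x
    rw [hk]
    exact mul_inv_apply_of (g := e * u) (h := u * e) x
  have hkv : k v = v := by
    have h1 := hk1 v
    rw [hev, map_smul, huv, map_smul, hev] at h1
    exact smul_right_injective V hs h1
  refine ⟨hkv, ?_⟩
  have h1 := hk1 w
  rw [hew, map_smul, huw, map_add, hew] at h1
  simp only [map_smul, map_add, hkv, hev] at h1
  apply smul_right_injective V (inv_ne_zero hs)
  have h2 : s⁻¹ • k w = (s⁻¹ • w + c • s • v) - s⁻¹ • (c • v) := by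
    rw [← h1]; module
  show s⁻¹ • k w = s⁻¹ • (w + b • v)
  rw [h2]
  have hb : b = c * (s ^ 2 - 1) := by rw [hc]; field_simp
  rw [hb]
  match_scalars
  · ring
  · linear_combination (-c * s) * hs'

lemma exists_sq1 [Infinite F] : ∃ s : F, s ≠ 0 ∧ s ^ 2 - 1 ≠ 0 := by
  obtain ⟨s, hs, h2⟩ := exists_elements (F := F) 2 (by norm_num)
  exact ⟨s, hs, sub_ne_zero.2 h2⟩

lemma Big.comm [Infinite F] {H : Subgroup (V ≃ₗ[F] V)} {L : Submodule F V} (hH : Big H L) :
    Big ⁅H, H⁆ L := by
  have hle : ⁅H, H⁆ ≤ H := by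
    rw [Subgroup.commutator_le]
    intro g₁ h₁ g₂ h₂
    rw [commutatorElement_def]
    exact H.mul_mem (H.mul_mem (H.mul_mem h₁ h₂) (H.inv_mem h₁)) (H.inv_mem h₂)
  refine ⟨fun h hh => hH.1 h (hle hh), fun v hv w hw hind b => ?_⟩
  obtain ⟨s, hs, hs2⟩ := exists_sq1 (F := F)
  obtain ⟨e, he, hev, hew⟩ := hH.diag hv hw hind hs
  obtain ⟨u, hu, huv, huw⟩ := hH.2 v hv w hw hind (b / (s ^ 2 - 1))
  exact ⟨⁅e, u⁆, Subgroup.commutator_mem_commutator he hu,
    comm_diag hs hs2 hev hew huv huw rfl⟩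

lemma comm_le (H : Subgroup (V ≃ₗ[F] V)) : ⁅H, H⁆ ≤ H := by
  rw [Subgroup.commutator_le]
  intro g₁ h₁ g₂ h₂
  rw [commutatorElement_def]
  exact H.mul_mem (H.mul_mem (H.mul_mem h₁ h₂) (H.inv_mem h₁)) (H.inv_mem h₂)

/-- Commutators act trivially on a one-dimensional quotient. -/
lemma comm_quot {H : Subgroup (V ≃ₗ[F] V)} {A : Submodule F V} {t : V} (ht : t ∉ A)
    (hA : ∀ h ∈ H, ∀ x, h x ∈ A ↔ x ∈ A) (hB : ∀ h ∈ H, ∃ c : F, h t - c • t ∈ A) :
    ∀ k ∈ ⁅H, H⁆, k t - t ∈ A := by
  let M : Subgroup (V ≃ₗ[F] V) :=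
    { carrier := {g | (∀ x, g x ∈ A ↔ x ∈ A) ∧ g t - t ∈ A}
      mul_mem' := by
        rintro a b ⟨ha, ha'⟩ ⟨hb, hb'⟩
        refine ⟨fun x => by rw [apply_mul, ha, hb], ?_⟩
        have h1 : (a * b) t - t = a (b t - t) + (a t - t) := by
          rw [apply_mul, map_sub]; abel
        rw [h1]
        exact A.add_mem ((ha _).2 hb') ha'
      one_mem' := ⟨fun x => Iff.rfl, by rw [one_apply, sub_self]; exact A.zero_mem⟩
      inv_mem' := by
        rintro a ⟨ha, ha'⟩
        have h1 : ∀ x, a⁻¹ x ∈ A ↔ x ∈ A := fun x => by rw [← ha, apply_inv]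
        refine ⟨h1, ?_⟩
        have h2 : a⁻¹ t - t = -(a⁻¹ (a t - t)) := by
          rw [map_sub, inv_apply]; abel
        rw [h2]
        exact A.neg_mem ((h1 _).2 ha') }
  have hle : ⁅H, H⁆ ≤ M := by
    rw [Subgroup.commutator_le]
    intro a ha b hb
    set g := ⁅a, b⁆ with hg
    have hgH : g ∈ H := comm_le H (Subgroup.commutator_mem_commutator ha hb)
    refine ⟨hA g hgH, ?_⟩
    have hk : g = (a * b) * (b * a)⁻¹ := by rw [hg, commutatorElement_def]; group
    have h1 : g (b (a t)) = a (b t) := by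
      rw [hk]
      exact mul_inv_apply_of (g := a * b) (h := b * a) t
    obtain ⟨c, hc⟩ := hB a ha
    obtain ⟨d, hd⟩ := hB b hb
    have hc0 : c ≠ 0 := by
      rintro rfl
      rw [zero_smul, sub_zero, hA a ha] at hc
      exact ht hc
    have hd0 : d ≠ 0 := by
      rintro rfl
      rw [zero_smul, sub_zero, hA b hb] at hd
      exact ht hd
    have h2 : b (a t) - (c * d) • t ∈ A := by
      have : b (a t) - (c * d) • t = b (a t - c • t) + c • (b t - d • t) := by
        rw [map_sub, map_smul]; module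
      rw [this]
      exact A.add_mem ((hA b hb _).2 hc) (A.smul_mem _ hd)
    have h3 : a (b t) - (c * d) • t ∈ A := by
      have : a (b t) - (c * d) • t = a (b t - d • t) + d • (a t - c • t) := by
        rw [map_sub, map_smul]; module
      rw [this]
      exact A.add_mem ((hA a ha _).2 hd) (A.smul_mem _ hc)
    have h4 : (c * d) • (g t - t) = (a (b t) - (c * d) • t) - g (b (a t) - (c * d) • t) := by
      rw [map_sub, h1, map_smul]; module
    have h5 : g t - t = (c * d)⁻¹ • ((c * d) • (g t - t)) := by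
      rw [smul_smul, inv_mul_cancel₀ (mul_ne_zero hc0 hd0), one_smul]
    rw [h5, h4]
    exact A.smul_mem _ (A.sub_mem h3 ((hA g hgH _).2 h2))
  exact fun k hk => (hle hk).2

/-- A group inducing all transvections on a line fixes no plane containing it. -/
theorem no_plane [Infinite F] [FiniteDimensional F V] (hR : R3 G) (hd : finrank F V = 5)
    {L : Submodule F V} (hL : finrank F L = 2) {H : Subgroup (V ≃ₗ[F] V)} (hHG : H ≤ G)
    (hH : Big H L) {P : Submodule F V} (hP : finrank F P = 3) (hLP : L ≤ P)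
    (hHP : ∀ h ∈ H, ∀ x ∈ P, h x ∈ P) : False := by
  have h1 : ¬ P ≤ L := by
    intro h
    have := Submodule.finrank_mono h
    omega
  obtain ⟨t, htP, htL⟩ := SetLike.not_le_iff_exists.1 h1
  have hsup : L ⊔ Submodule.span F {t} = P := by
    apply Submodule.eq_of_le_of_finrank_eq
    · refine sup_le hLP ?_
      rw [Submodule.span_singleton_le_iff_mem]
      exact htP
    · rw [Submodule.finrank_sup_span_singleton htL, hL, hP]
  have hB : ∀ h ∈ H, ∃ c : F, h t - c • t ∈ L := by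
    intro h hh
    have h2 := hHP h hh t htP
    rw [← hsup] at h2
    obtain ⟨y, hy, z, hz, hyz⟩ := Submodule.mem_sup.1 h2
    obtain ⟨c, rfl⟩ := Submodule.mem_span_singleton.1 hz
    exact ⟨c, by rw [← hyz, add_sub_cancel_right]; exact hy⟩
  have hK := comm_quot htL hH.1 hB
  have hKB := hH.comm
  have hKG : ⁅H, H⁆ ≤ G := (comm_le H).trans hHG
  obtain ⟨v, hv, w, hw, hind⟩ := exists_pair hL
  have hv0 : v ≠ 0 := hind.ne_zero 0
  by_cases h2 : (2 : F) = 0
  · -- characteristic two
    obtain ⟨k, hk, hkv, hkw⟩ := hKB.2 v hv w hw hind 1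
    obtain ⟨l, hl, hkt⟩ : ∃ l ∈ L, k t = t + l := ⟨k t - t, hK k hk, by abel⟩
    have e2 : ∀ x : V, x + x = 0 := by
      intro x
      rw [← two_smul F, h2, zero_smul]
    have hkL : ∀ x ∈ L, k (k x) = x := by
      intro x hx
      obtain ⟨a, b, rfl⟩ := exists_comb hL hv hw hind hx
      simp only [map_add, map_smul, hkv, hkw]
      have : a • v + b • (w + (1 : F) • v + (1 : F) • v) = a • v + b • w + (2 * b) • v := by
        module
      rw [this, h2, zero_mul, zero_smul, add_zero]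
    have hkl : k l ∈ L := (hKB.1 k hk l).2 hl
    have h4t : k (k (k (k t))) = t := by
      have h3 : k (k t) = t + (l + k l) := by rw [hkt, map_add, hkt]; abel
      have h4 : k (k (t + (l + k l))) = t + (l + k l) + (l + k l) := by
        rw [map_add, map_add, h3, hkL _ (L.add_mem hl hkl)]
      rw [h3, h4, add_assoc, e2, add_zero]
    have h4 : (k * k) * (k * k) = 1 := by
      apply fix3 hR hL (G.mul_mem (G.mul_mem (hKG hk) (hKG hk)) (G.mul_mem (hKG hk) (hKG hk)))
        (v := t)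
      · intro x hx
        rw [apply_mul, apply_mul, apply_mul, hkL x hx, hkL x hx]
      · exact htL
      · exact h4t
    have h5 : k * k = 1 := by
      apply sq_one hR hd (G.mul_mem (hKG hk) (hKG hk)) (v := v)
      · intro x
        rw [← apply_mul, h4]; rfl
      · exact hv0
      · rw [apply_mul, hkv, hkv]
    have h6 : k = 1 := by
      apply sq_one hR hd (hKG hk) (v := v)
      · intro x
        rw [← apply_mul, h5]; rfl
      · exact hv0
      · exact hkv
    rw [h6, one_apply, one_smul] at hkw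
    exact hv0 (by simpa using hkw.symm)
  · -- characteristic different from two
    obtain ⟨k, hk, hkv, hkw⟩ := hKB.diag hv hw hind (s := -1) (neg_ne_zero.2 one_ne_zero)
    have hkL : ∀ x ∈ L, k x = -x := by
      intro x hx
      obtain ⟨a, b, rfl⟩ := exists_comb hL hv hw hind hx
      simp only [map_add, map_smul, hkv, hkw, inv_neg, inv_one]
      module
    obtain ⟨l, hl, hkt⟩ : ∃ l ∈ L, k t = t + l := ⟨k t - t, hK k hk, by abel⟩
    set t' := t + (2 : F)⁻¹ • l with ht'
    have hkt' : k t' = t' := by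
      rw [ht', map_add, map_smul, hkt, hkL l hl]
      have : t + l + (2 : F)⁻¹ • -l = t + (1 - (2 : F)⁻¹) • l := by module
      rw [this]
      have e : 1 - (2 : F)⁻¹ = (2 : F)⁻¹ := by field_simp; ring
      rw [e]
    have ht'L : t' ∉ L := by
      intro h
      apply htL
      have := L.sub_mem h (L.smul_mem (2 : F)⁻¹ hl)
      rwa [ht', add_sub_cancel_right] at this
    have h5 : k * k = 1 := by
      apply fix3 hR hL (G.mul_mem (hKG hk) (hKG hk)) (v := t')
      · intro x hx
        rw [apply_mul, hkL x hx, map_neg, hkL x hx, neg_neg]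
      · exact ht'L
      · rw [apply_mul, hkt', hkt']
    have h6 : k = 1 := by
      apply sq_one hR hd (hKG hk) (v := t')
      · intro x
        rw [← apply_mul, h5]; rfl
      · intro h
        exact ht'L (by rw [h]; exact L.zero_mem)
      · exact hkt'
    have h7 := hkL v hv
    rw [h6, one_apply] at h7
    have h8 : (2 : F) • v = 0 := by
      rw [two_smul]
      nth_rewrite 1 [h7]
      exact neg_add_cancel v
    rcases smul_eq_zero.1 h8 with h | h
    · exact h2 h
    · exact hv0 h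

end Pool.Agent.H95.D4
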