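import Pool.Agent.H95.D4.PP

/-!
# Conjugacy classes of transvections and homologies of a three-dimensional space
-/

namespace Pool.Agent.H95.D4

open Module Pool.Agent.H20.ProjTwoTrans Pool.Agent.H95.DT
open scoped commutatorElement

variable {F Q : Type*} [Field F] [AddCommGroup Q] [Module F Q]

/-- An irreducible group together with a conjugacy class of maps `u ↦ u + e u • d`. -/
structure Sys (Γ : Subgroup (Q ≃ₗ[F] Q)) (M : Q → Dual F Q → Prop) (t : F) : Prop where
  irr : ∀ U : Submodule F Q, U ≠ ⊥ → (∀ γ ∈ Γ, ∀ u ∈ U, γ u ∈ U) → U = ⊤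
  act : ∀ {d e}, M d e → ∀ {γ}, γ ∈ Γ → M (γ d) (e ∘ₗ ((γ⁻¹ : Q ≃ₗ[F] Q) : Q →ₗ[F] Q))
  trans : ∀ {d e d' e'}, M d e → M d' e' → ∃ γ ∈ Γ, d' = γ d
  refl : ∀ {d e}, M d e → ∃ X ∈ Γ, ∀ u, X u = u + e u • d
  val : ∀ {d e}, M d e → e d = t - 1
  dne : ∀ {d e}, M d e → d ≠ 0
  ene : ∀ {d e}, M d e → e ≠ 0
  pp : ∀ {d e d' e'}, M d e → M d' e' →
    e d' = 0 ∨ e' d = 0 ∨ (∃ k : F, d' = k • d) ∨ ∃ k : F, e' = k • e
  ht : t ≠ 0
  ht1 : t + 1 ≠ 0
  ex : ∃ d e, M d e

variable {Γ : Subgroup (Q ≃ₗ[F] Q)} {M : Q → Dual F Q → Prop} {t : F}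

namespace Sys

lemma step (S : Sys Γ M t) {d d' : Q} {e e' : Dual F Q} (h : M d e) (h' : M d' e') :
    M (d' + e d' • d) (e' - (t⁻¹ * e' d) • e) := by
  obtain ⟨X, hX, hXu⟩ := S.refl h
  have h1 := S.act h' hX
  rw [hXu] at h1
  convert h1 using 1
  ext u
  rw [LinearMap.comp_apply, LinearEquiv.coe_coe, refl_inv S.ht (S.val h) hXu, map_sub, map_smul,
    LinearMap.sub_apply, LinearMap.smul_apply, smul_eq_mul, smul_eq_mul]
  ring

lemma step' (S : Sys Γ M t) {d d' : Q} {e e' : Dual F Q} (h : M d e) (h' : M d' e') :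
    M (d' - (t⁻¹ * e d') • d) (e' + e' d • e) := by
  obtain ⟨X, hX, hXu⟩ := S.refl h
  have h1 := S.act h' (Γ.inv_mem hX)
  rw [refl_inv S.ht (S.val h) hXu, inv_inv] at h1
  convert h1 using 1
  ext u
  rw [LinearMap.comp_apply, LinearEquiv.coe_coe, hXu, map_add, map_smul,
    LinearMap.add_apply, LinearMap.smul_apply, smul_eq_mul, smul_eq_mul]
  ring

lemma exists_e (S : Sys Γ M t) {w : Q} (hw : w ≠ 0) : ∃ d e, M d e ∧ e w ≠ 0 := by
  by_contra hcon
  push Not at hcon
  let U : Submodule F Q :=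
    { carrier := {u | ∀ d e, M d e → e u = 0}
      add_mem' := by
        intro a b ha hb d e h
        rw [map_add, ha d e h, hb d e h, add_zero]
      zero_mem' := by
        intro d e _
        exact map_zero _
      smul_mem' := by
        intro c a ha d e h
        rw [map_smul, ha d e h, smul_zero] }
  have hU : U = ⊤ := by
    apply S.irr U
    · intro h
      have : w ∈ U := hcon
      rw [h, Submodule.mem_bot] at this
      exact hw this
    · intro γ hγ u hu d e h
      have h1 := hu _ _ (S.act h (Γ.inv_mem hγ))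
      rw [inv_inv] at h1
      exact h1
  obtain ⟨d, e, h⟩ := S.ex
  apply S.ene h
  ext u
  have : u ∈ U := by rw [hU]; trivial
  exact this d e h

lemma exists_d (S : Sys Γ M t) {φ : Dual F Q} (hφ : φ ≠ 0) : ∃ d e, M d e ∧ φ d ≠ 0 := by
  by_contra hcon
  push Not at hcon
  let U : Submodule F Q := Submodule.span F {d | ∃ e, M d e}
  have hU : U = ⊤ := by
    apply S.irr U
    · intro h
      obtain ⟨d, e, h1⟩ := S.ex
      have : d ∈ U := Submodule.subset_span ⟨e, h1⟩
      rw [h, Submodule.mem_bot] at this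
      exact S.dne h1 this
    · intro γ hγ u hu
      have hle : U ≤ U.comap (γ : Q →ₗ[F] Q) := by
        refine Submodule.span_le.2 ?_
        rintro d ⟨e, h⟩
        exact Submodule.subset_span ⟨_, S.act h hγ⟩
      exact hle hu
  apply hφ
  ext u
  have h1 : u ∈ U := by rw [hU]; trivial
  have hle : U ≤ LinearMap.ker φ := by
    refine Submodule.span_le.2 ?_
    rintro d ⟨e, h⟩
    exact hcon d e h
  exact hle h1

end Sys

lemma kill3 [FiniteDimensional F Q] (hq : finrank F Q = 3) {a1 a2 a3 : Q} (h1 : a1 ≠ 0)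
    (h2 : ∀ k : F, a2 ≠ k • a1) {g φ : Dual F Q} (hg1 : g a1 = 0) (hg2 : g a2 = 0)
    (hg3 : g a3 ≠ 0) (hφ1 : φ a1 = 0) (hφ2 : φ a2 = 0) (hφ3 : φ a3 = 0) : φ = 0 := by
  have k2 : a2 ∉ Submodule.span F {a1} := by
    intro h
    obtain ⟨k, hk⟩ := Submodule.mem_span_singleton.1 h
    exact h2 k hk.symm
  have k3 : a3 ∉ Submodule.span F {a1} ⊔ Submodule.span F {a2} := by
    intro h
    have hle : Submodule.span F {a1} ⊔ Submodule.span F {a2} ≤ LinearMap.ker g := by
      refine sup_le ?_ ?_ <;> rw [Submodule.span_singleton_le_iff_mem]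
      · exact hg1
      · exact hg2
    exact hg3 (hle h)
  have hle : Submodule.span F {a1} ⊔ Submodule.span F {a2} ⊔ Submodule.span F {a3} ≤
      LinearMap.ker φ := by
    refine sup_le (sup_le ?_ ?_) ?_ <;> rw [Submodule.span_singleton_le_iff_mem]
    · exact hφ1
    · exact hφ2
    · exact hφ3
  have h4 := Submodule.finrank_mono hle
  rw [Submodule.finrank_sup_span_singleton k3, Submodule.finrank_sup_span_singleton k2,
    finrank_span_singleton h1] at h4
  have h5 : LinearMap.ker φ = ⊤ := by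
    apply Submodule.eq_top_of_finrank_eq
    have := Submodule.finrank_le (LinearMap.ker φ)
    omega
  exact LinearMap.ker_eq_top.1 h5

lemma exists_kill [FiniteDimensional F Q] (hq : finrank F Q = 3) (a b : Q) :
    ∃ φ : Dual F Q, φ ≠ 0 ∧ φ a = 0 ∧ φ b = 0 := by
  have h1 : Submodule.span F {a, b} < ⊤ := by
    rw [lt_top_iff_ne_top]
    intro h
    classical
    have h2 := finrank_span_finset_le_card (R := F) ({a, b} : Finset Q)
    rw [Finset.coe_pair, Set.finrank, h, finrank_top, hq] at h2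
    have h3 : ({a, b} : Finset Q).card ≤ 2 := Finset.card_le_two
    omega
  obtain ⟨φ, hφ, hle⟩ := Submodule.exists_le_ker_of_lt_top _ h1
  exact ⟨φ, hφ, hle (Submodule.subset_span (by simp)), hle (Submodule.subset_span (by simp))⟩

namespace Sys

/-- The case of transvections is impossible. -/
theorem no_elation [FiniteDimensional F Q] (hq : finrank F Q = 3) (S : Sys Γ M t) : t ≠ 1 := by
  rintro rfl
  have hv : ∀ {d e}, M d e → e d = 0 := fun h => by rw [S.val h, sub_self]
  have pp' : ∀ {d e d' e'}, M d e → M d' e' → e d' = 0 ∨ e' d = 0 := by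
    intro d e d' e' h h'
    rcases S.pp h h' with h1 | h1 | ⟨k, rfl⟩ | ⟨k, rfl⟩
    · exact Or.inl h1
    · exact Or.inr h1
    · left
      rw [map_smul, hv h, smul_zero]
    · right
      rw [LinearMap.smul_apply, hv h, smul_zero]
  have claim : ∀ {c1 f1 c2 f2}, M c1 f1 → M c2 f2 → f2 c1 = 0 → f1 c2 = 0 := by
    intro c1 f1 c2 f2 h1 h2 h21
    by_contra hβ
    obtain ⟨d, e, h, he⟩ := S.exists_e (S.dne h1)
    have k1 : f1 d = 0 := (pp' h h1).resolve_left he
    have h3 := S.step' h2 h1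
    rw [h21, mul_zero, zero_smul, sub_zero] at h3
    have k2 : (f1 + f1 c2 • f2) d = 0 := (pp' h h3).resolve_left he
    rw [LinearMap.add_apply, LinearMap.smul_apply, k1, zero_add, smul_eq_mul] at k2
    have k3 : f2 d = 0 := (mul_eq_zero.1 k2).resolve_left hβ
    exact S.ene h2 (kill3 hq (S.dne h) (a2 := c1) (a3 := c2) (by
      rintro k rfl
      rw [map_smul, hv h, smul_zero] at he
      exact he rfl) k1 (hv h1) hβ k3 h21 (hv h2))
  obtain ⟨c, f, h⟩ := S.ex
  obtain ⟨d, e, h', he⟩ := S.exists_e (S.dne h)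
  rcases pp' h h' with h1 | h1
  · exact he (claim h' h h1)
  · exact he h1

/-- Orthogonality is symmetric. -/
theorem symm [FiniteDimensional F Q] (hq : finrank F Q = 3) (S : Sys Γ M t) {c1 c2 : Q}
    {f1 f2 : Dual F Q} (h1 : M c1 f1) (h2 : M c2 f2) (h21 : f2 c1 = 0) : f1 c2 = 0 := by
  by_contra hβ
  have ht0 : t - 1 ≠ 0 := sub_ne_zero.2 (S.no_elation hq)
  set β := f1 c2 with hβd
  have v1 : f1 c1 ≠ 0 := by rw [S.val h1]; exact ht0
  have v2 : f2 c2 ≠ 0 := by rw [S.val h2]; exact ht0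
  have m1 : M c1 (f1 + β • f2) := by
    have := S.step' h2 h1
    rwa [h21, mul_zero, zero_smul, sub_zero] at this
  have m2 : M c1 (f1 + (β + β * t) • f2) := by
    have := S.step' h2 m1
    rw [h21, mul_zero, zero_smul, sub_zero] at this
    convert this using 1
    rw [LinearMap.add_apply, LinearMap.smul_apply, S.val h2, smul_eq_mul, ← hβd]
    module
  have m3 : M (c2 + β • c1) f2 := by
    have := S.step h1 h2
    rwa [h21, mul_zero, zero_smul, sub_zero] at this
  -- (III)
  have III : ∀ {d e}, M d e → e c1 = 0 ∨ f2 d = 0 := by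
    intro d e h
    by_contra hcon
    push Not at hcon
    obtain ⟨he, hd⟩ := hcon
    have key : ∀ {τ : F}, M c1 (f1 + τ • f2) → (f1 d + τ * f2 d = 0 ∨
        ∃ k : F, f1 + τ • f2 = k • e) := by
      intro τ hm
      rcases S.pp h hm with k1 | k1 | ⟨k, hk⟩ | k1
      · exact absurd k1 he
      · left
        exact k1
      · exfalso
        rw [hk, map_smul, smul_eq_mul] at h21
        rcases mul_eq_zero.1 h21 with h3 | h3
        · rw [h3, zero_smul] at hk
          exact S.dne h1 hk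
        · exact hd h3
      · right
        exact k1
    have kA : ∀ {τ τ' : F}, f1 d + τ * f2 d = 0 → f1 d + τ' * f2 d = 0 → τ = τ' := by
      intro τ τ' a b
      have : (τ - τ') * f2 d = 0 := by linear_combination a - b
      exact sub_eq_zero.1 ((mul_eq_zero.1 this).resolve_right hd)
    have kB : ∀ {τ τ' : F}, (∃ k : F, f1 + τ • f2 = k • e) →
        (∃ k : F, f1 + τ' • f2 = k • e) → τ = τ' := by
      rintro τ τ' ⟨k, hk⟩ ⟨k', hk'⟩
      have e1 := LinearMap.congr_fun hk c1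
      have e2 := LinearMap.congr_fun hk' c1
      rw [LinearMap.add_apply, LinearMap.smul_apply, LinearMap.smul_apply, h21, smul_zero,
        add_zero, smul_eq_mul] at e1 e2
      have e3 : (k - k') * e c1 = 0 := by linear_combination e2 - e1
      have e4 : k = k' := sub_eq_zero.1 ((mul_eq_zero.1 e3).resolve_right he)
      have e5 := LinearMap.congr_fun hk c2
      have e6 := LinearMap.congr_fun hk' c2
      rw [e4] at e5
      rw [LinearMap.add_apply, LinearMap.smul_apply, LinearMap.smul_apply, smul_eq_mul,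
        smul_eq_mul] at e5 e6
      have e7 : (τ - τ') * f2 c2 = 0 := by linear_combination e5 - e6
      exact sub_eq_zero.1 ((mul_eq_zero.1 e7).resolve_right v2)
    have m0 : M c1 (f1 + (0 : F) • f2) := by rwa [zero_smul, add_zero]
    have n1 : (0 : F) ≠ β := Ne.symm hβ
    have n2 : (0 : F) ≠ β + β * t := by
      intro h
      have : β * (t + 1) = 0 := by linear_combination -h
      rcases mul_eq_zero.1 this with h | h
      · exact hβ h
      · exact S.ht1 h
    have n3 : β ≠ β + β * t := by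
      intro h
      have : β * t = 0 := by linear_combination -h
      rcases mul_eq_zero.1 this with h | h
      · exact hβ h
      · exact S.ht h
    rcases key m0 with a | a <;> rcases key m1 with b | b <;> rcases key m2 with c | c
    · exact n1 (kA a b)
    · exact n1 (kA a b)
    · exact n2 (kA a c)
    · exact n3 (kB b c)
    · exact n3 (kA b c)
    · exact n2 (kB a c)
    · exact n1 (kB a b)
    · exact n1 (kB a b)
  -- (IV)
  have IV : ∀ γ ∈ Γ, f2 (γ⁻¹ c1) = 0 ∨ (f1 (γ c1) = 0 ∧ f2 (γ c1) = 0) := by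
    intro γ hγ
    by_cases h0 : f2 (γ⁻¹ c1) = 0
    · exact Or.inl h0
    · right
      have a1 := (III (S.act h1 (Γ.inv_mem hγ))).resolve_right h0
      have a2 := (III (S.act m1 (Γ.inv_mem hγ))).resolve_right h0
      rw [inv_inv] at a1 a2
      have a1' : f1 (γ c1) = 0 := a1
      have a2' : f1 (γ c1) + β * f2 (γ c1) = 0 := a2
      rw [a1', zero_add] at a2'
      exact ⟨a1', (mul_eq_zero.1 a2').resolve_left hβ⟩
  -- three spanning centres
  have c1ne : c1 ≠ 0 := S.dne h1
  obtain ⟨d2, e2, hm2, hd2⟩ := S.exists_d (S.ene h2)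
  obtain ⟨k2, hk2, rfl⟩ := S.trans h1 hm2
  obtain ⟨φ, hφ, hφ1, hφ2⟩ := exists_kill hq c1 (k2 c1)
  obtain ⟨d3, e3, hm3, hd3⟩ := S.exists_d hφ
  obtain ⟨k3, hk3, rfl⟩ := S.trans h1 hm3
  have span : ∀ ψ : Dual F Q, ψ ≠ 0 → ψ c1 ≠ 0 ∨ ψ (k2 c1) ≠ 0 ∨ ψ (k3 c1) ≠ 0 := by
    intro ψ hψ
    by_contra hcon
    push Not at hcon
    obtain ⟨b1, b2, b3⟩ := hcon
    apply hψ
    refine kill3 hq c1ne (a2 := k2 c1) (a3 := k3 c1) ?_ hφ1 hφ2 hd3 b1 b2 b3
    intro k hk
    rw [hk, map_smul, h21, smul_zero] at hd2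
    exact hd2 rfl
  have V : ∀ {d e}, M d e → ¬ (f1 d = 0 ∧ f2 d = 0) →
      (f1 (k2⁻¹ d) = 0 ∧ f2 (k2⁻¹ d) = 0) ∨ (f1 (k3⁻¹ d) = 0 ∧ f2 (k3⁻¹ d) = 0) := by
    intro d e h hne
    obtain ⟨k, hk, rfl⟩ := S.trans h1 h
    have hψ : f2 ∘ₗ ((k⁻¹ : Q ≃ₗ[F] Q) : Q →ₗ[F] Q) ≠ 0 := S.ene (S.act h2 hk)
    rcases span _ hψ with b | b | b
    · exact absurd ((IV k hk).resolve_left b) hne
    · left
      have := IV (k2⁻¹ * k) (Γ.mul_mem (Γ.inv_mem hk2) hk)
      rw [mul_inv_rev, inv_inv] at this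
      exact this.resolve_left b
    · right
      have := IV (k3⁻¹ * k) (Γ.mul_mem (Γ.inv_mem hk3) hk)
      rw [mul_inv_rev, inv_inv] at this
      exact this.resolve_left b
  have W : ∀ (h : Q ≃ₗ[F] Q) (u u' : Q), u ≠ 0 → (∀ k : F, u' ≠ k • u) →
      (f1 (h⁻¹ u) = 0 ∧ f2 (h⁻¹ u) = 0) → (f1 (h⁻¹ u') = 0 ∧ f2 (h⁻¹ u') = 0) → False := by
    intro h u u' hu huu' a b
    refine S.ene h2 (kill3 hq (a1 := h⁻¹ u) (a2 := h⁻¹ u') (a3 := c1) ?_ ?_ a.1 b.1 v1 a.2
      b.2 h21)
    · intro h0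
      exact hu ((h⁻¹).map_eq_zero_iff.1 h0)
    · intro k hk
      rw [← map_smul] at hk
      exact huu' k ((h⁻¹).injective hk)
  have d1 : ∀ k : F, c2 ≠ k • c1 := by
    rintro k hk
    rw [hk, map_smul, h21, smul_zero] at v2
    exact v2 rfl
  have d2' : ∀ k : F, c2 + β • c1 ≠ k • c1 := by
    rintro k hk
    apply d1 (k - β)
    rw [sub_smul, ← hk]
    abel
  have d3' : ∀ k : F, c2 + β • c1 ≠ k • c2 := by
    rintro k hk
    have a1 := congrArg f2 hk
    rw [map_add, map_smul, map_smul, h21, smul_zero, add_zero, smul_eq_mul] at a1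
    have a2 : (k - 1) * f2 c2 = 0 := by linear_combination -a1
    have a3 : k = 1 := sub_eq_zero.1 ((mul_eq_zero.1 a2).resolve_right v2)
    rw [a3, one_smul] at hk
    have a4 : β • c1 = 0 := by
      have : β • c1 = c2 + β • c1 - c2 := by abel
      rw [this, hk, sub_self]
    rcases smul_eq_zero.1 a4 with h | h
    · exact hβ h
    · exact c1ne h
  have x1 := V h1 (fun h => v1 h.1)
  have x2 := V h2 (fun h => v2 h.2)
  have x3 := V m3 (fun h => by
    have := h.2
    rw [map_add, map_smul, h21, smul_zero, add_zero] at this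
    exact v2 this)
  have c2ne := S.dne h2
  rcases x1 with a | a <;> rcases x2 with b | b <;> rcases x3 with c | c
  · exact W _ _ _ c1ne d1 a b
  · exact W _ _ _ c1ne d1 a b
  · exact W _ _ _ c1ne d2' a c
  · exact W _ _ _ c2ne d3' b c
  · exact W _ _ _ c2ne d3' b c
  · exact W _ _ _ c1ne d2' a c
  · exact W _ _ _ c1ne d1 a b
  · exact W _ _ _ c1ne d1 a b

lemma dich [FiniteDimensional F Q] (hq : finrank F Q = 3) (S : Sys Γ M t) {d d' : Q}
    {e e' : Dual F Q} (h : M d e) (h' : M d' e') :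
    (e d' = 0 ∧ e' d = 0) ∨ (∃ k : F, d' = k • d) ∨ ∃ k : F, e' = k • e := by
  rcases S.pp h h' with h1 | h1 | h1 | h1
  · exact Or.inl ⟨h1, S.symm hq h' h h1⟩
  · exact Or.inl ⟨S.symm hq h h' h1, h1⟩
  · exact Or.inr (Or.inl h1)
  · exact Or.inr (Or.inr h1)

lemma val_ne [FiniteDimensional F Q] (hq : finrank F Q = 3) (S : Sys Γ M t) {d : Q}
    {e : Dual F Q} (h : M d e) : e d ≠ 0 := by
  rw [S.val h]
  exact sub_ne_zero.2 (S.no_elation hq)

/-- The same axis implies the same centre. -/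
lemma axis [FiniteDimensional F Q] (hq : finrank F Q = 3) (S : Sys Γ M t) {c1 c2 : Q}
    {f1 f2 : Dual F Q} (h1 : M c1 f1) (h2 : M c2 f2) {k : F} (hk : f2 = k • f1) :
    ∃ s : F, c2 = s • c1 := by
  by_contra hc
  push Not at hc
  have v1 := S.val_ne hq h1
  have v2 := S.val_ne hq h2
  have v2' : k * f1 c2 ≠ 0 := by
    rw [hk] at v2
    exact v2
  have k0 : k ≠ 0 := left_ne_zero_of_mul v2'
  have f12 : f1 c2 ≠ 0 := right_ne_zero_of_mul v2'
  have f21 : f2 c1 ≠ 0 := by
    rw [hk]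
    exact mul_ne_zero k0 v1
  have claim : ∀ {d e}, M d e → (∃ r : F, e = r • f1) ∨ (e c1 = 0 ∧ e c2 = 0) := by
    intro d e h
    rcases S.dich hq h1 h with a | ⟨r, a⟩ | a
    · rcases S.dich hq h2 h with b | ⟨s, b⟩ | ⟨s, b⟩
      · exact Or.inr ⟨a.2, b.2⟩
      · exfalso
        have h3 := a.1
        rw [b, map_smul, smul_eq_mul] at h3
        rcases mul_eq_zero.1 h3 with h4 | h4
        · rw [h4, zero_smul] at b
          exact S.dne h b
        · exact f12 h4
      · left
        exact ⟨s * k, by rw [b, hk, smul_smul]⟩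
    · rcases S.dich hq h2 h with b | ⟨s, b⟩ | ⟨s, b⟩
      · exfalso
        have h3 := b.1
        rw [a, map_smul, smul_eq_mul] at h3
        rcases mul_eq_zero.1 h3 with h4 | h4
        · rw [h4, zero_smul] at a
          exact S.dne h a
        · exact f21 h4
      · exfalso
        have s0 : s ≠ 0 := by
          rintro rfl
          rw [zero_smul] at b
          exact S.dne h b
        apply hc (s⁻¹ * r)
        rw [mul_smul, ← a, b, smul_smul, inv_mul_cancel₀ s0, one_smul]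
      · left
        exact ⟨s * k, by rw [b, hk, smul_smul]⟩
    · exact Or.inl a
  have hw : f1 c2 • c1 - f1 c1 • c2 ≠ 0 := by
    intro h
    apply hc ((f1 c1)⁻¹ * f1 c2)
    rw [mul_smul, sub_eq_zero.1 h, smul_smul, inv_mul_cancel₀ v1, one_smul]
  obtain ⟨d, e, h, he⟩ := S.exists_e hw
  apply he
  rcases claim h with ⟨r, rfl⟩ | ⟨a, b⟩
  · rw [map_sub, map_smul, map_smul]
    simp only [LinearMap.smul_apply, smul_eq_mul]
    ring
  · rw [map_sub, map_smul, map_smul, a, b, smul_zero, smul_zero, sub_zero]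

/-- The same centre implies the same axis. -/
lemma centre [FiniteDimensional F Q] (hq : finrank F Q = 3) (S : Sys Γ M t) {c1 c2 : Q}
    {f1 f2 : Dual F Q} (h1 : M c1 f1) (h2 : M c2 f2) {k : F} (hk : c2 = k • c1) :
    ∃ s : F, f2 = s • f1 := by
  by_contra hc
  push Not at hc
  have v1 := S.val_ne hq h1
  have v2 := S.val_ne hq h2
  have v2' : k * f2 c1 ≠ 0 := by
    rw [hk, map_smul] at v2
    exact v2
  have k0 : k ≠ 0 := left_ne_zero_of_mul v2'
  have f21 : f2 c1 ≠ 0 := right_ne_zero_of_mul v2'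
  have f12 : f1 c2 ≠ 0 := by
    rw [hk, map_smul]
    exact mul_ne_zero k0 v1
  have claim : ∀ {d e}, M d e → (∃ r : F, d = r • c1) ∨ (f1 d = 0 ∧ f2 d = 0) := by
    intro d e h
    rcases S.dich hq h1 h with a | a | ⟨r, a⟩
    · rcases S.dich hq h2 h with b | ⟨s, b⟩ | ⟨s, b⟩
      · exact Or.inr ⟨a.1, b.1⟩
      · left
        exact ⟨s * k, by rw [b, hk, smul_smul]⟩
      · exfalso
        have h3 := a.2
        rw [b, LinearMap.smul_apply, smul_eq_mul] at h3
        rcases mul_eq_zero.1 h3 with h4 | h4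
        · rw [h4, zero_smul] at b
          exact S.ene h b
        · exact f21 h4
    · exact Or.inl a
    · rcases S.dich hq h2 h with b | ⟨s, b⟩ | ⟨s, b⟩
      · exfalso
        have h3 := b.2
        rw [a, LinearMap.smul_apply, smul_eq_mul] at h3
        rcases mul_eq_zero.1 h3 with h4 | h4
        · rw [h4, zero_smul] at a
          exact S.ene h a
        · exact f12 h4
      · left
        exact ⟨s * k, by rw [b, hk, smul_smul]⟩
      · exfalso
        have s0 : s ≠ 0 := by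
          rintro rfl
          rw [zero_smul] at b
          exact S.ene h b
        apply hc (s⁻¹ * r)
        rw [mul_smul, ← a, b, smul_smul, inv_mul_cancel₀ s0, one_smul]
  have hw : f2 c1 • f1 - f1 c1 • f2 ≠ 0 := by
    intro h
    apply hc ((f1 c1)⁻¹ * f2 c1)
    rw [mul_smul, sub_eq_zero.1 h, smul_smul, inv_mul_cancel₀ v1, one_smul]
  obtain ⟨d, e, h, he⟩ := S.exists_d hw
  apply he
  rcases claim h with ⟨r, rfl⟩ | ⟨a, b⟩
  · simp only [LinearMap.sub_apply, LinearMap.smul_apply, map_smul, smul_eq_mul]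
    ring
  · rw [LinearMap.sub_apply, LinearMap.smul_apply, LinearMap.smul_apply, a, b, smul_zero,
      smul_zero, sub_zero]

lemma dich' [FiniteDimensional F Q] (hq : finrank F Q = 3) (S : Sys Γ M t) {d d' : Q}
    {e e' : Dual F Q} (h : M d e) (h' : M d' e') :
    (e d' = 0 ∧ e' d = 0) ∨ ((∃ k : F, d' = k • d) ∧ ∃ k : F, e' = k • e) := by
  rcases S.dich hq h h' with h1 | ⟨k, h1⟩ | ⟨k, h1⟩
  · exact Or.inl h1
  · exact Or.inr ⟨⟨k, h1⟩, S.centre hq h h' h1⟩
  · exact Or.inr ⟨S.axis hq h h' h1, ⟨k, h1⟩⟩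

/-- The group is monomial. -/
theorem monomial [FiniteDimensional F Q] (hq : finrank F Q = 3) (S : Sys Γ M t) :
    ∃ u : Fin 3 → Q, (∀ i, u i ≠ 0) ∧
      ∀ γ ∈ Γ, ∃ σ : Equiv.Perm (Fin 3), ∀ i, ∃ k : F, γ (u i) = k • u (σ i) := by
  obtain ⟨c1, f1, h1⟩ := S.ex
  have v1 := S.val_ne hq h1
  obtain ⟨w1, hw1, hw11⟩ : ∃ w : Q, w ≠ 0 ∧ f1 w = 0 := by
    by_contra hcon
    push Not at hcon
    have a := LinearMap.finrank_range_add_finrank_ker f1
    have b := Submodule.finrank_le (LinearMap.range f1)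
    rw [Module.finrank_self] at b
    have c : LinearMap.ker f1 ≠ ⊥ := by
      intro h
      rw [h, finrank_bot] at a
      omega
    obtain ⟨w, hw, hw0⟩ := Submodule.exists_mem_ne_zero_of_ne_bot c
    exact hcon w hw0 hw
  obtain ⟨c2, f2, h2, a2⟩ := S.exists_e hw1
  have v2 := S.val_ne hq h2
  have o12 : f1 c2 = 0 ∧ f2 c1 = 0 := by
    rcases S.dich' hq h1 h2 with h | ⟨-, k, hk⟩
    · exact h
    · exfalso
      rw [hk, LinearMap.smul_apply, hw11, smul_zero] at a2
      exact a2 rfl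
  obtain ⟨-, w2, hw2, hw21, hw22⟩ := dual_pair hq (f := f1) (f' := f2) (S.ene h1) (by
    rintro k hk
    rw [hk, LinearMap.smul_apply, o12.1, smul_zero] at v2
    exact v2 rfl)
  obtain ⟨c3, f3, h3, a3⟩ := S.exists_e hw2
  have v3 := S.val_ne hq h3
  have o13 : f1 c3 = 0 ∧ f3 c1 = 0 := by
    rcases S.dich' hq h1 h3 with h | ⟨-, k, hk⟩
    · exact h
    · exfalso
      rw [hk, LinearMap.smul_apply, hw21, smul_zero] at a3
      exact a3 rfl
  have o23 : f2 c3 = 0 ∧ f3 c2 = 0 := by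
    rcases S.dich' hq h2 h3 with h | ⟨-, k, hk⟩
    · exact h
    · exfalso
      rw [hk, LinearMap.smul_apply, hw22, smul_zero] at a3
      exact a3 rfl
  have all : ∀ {d e}, M d e → (∃ k : F, d = k • c1) ∨ (∃ k : F, d = k • c2) ∨
      (∃ k : F, d = k • c3) := by
    intro d e h
    rcases S.dich' hq h1 h with b1 | b1
    · rcases S.dich' hq h2 h with b2 | b2
      · rcases S.dich' hq h3 h with b3 | b3
        · exfalso
          refine S.ene h (kill3 hq (S.dne h1) (a2 := c2) (a3 := c3) (g := f3) ?_ o13.2 o23.2 v3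
            b1.2 b2.2 b3.2)
          rintro k hk
          rw [hk, map_smul, o12.2, smul_zero] at v2
          exact v2 rfl
        · exact Or.inr (Or.inr b3.1)
      · exact Or.inr (Or.inl b2.1)
    · exact Or.inl b1.1
  let u : Fin 3 → Q := ![c1, c2, c3]
  let f : Fin 3 → Dual F Q := ![f1, f2, f3]
  have hm : ∀ i, M (u i) (f i) := by
    intro i
    fin_cases i
    · exact h1
    · exact h2
    · exact h3
  have ho : ∀ i j, i ≠ j → f i (u j) = 0 := by
    intro i j hij
    fin_cases i <;> fin_cases j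
    · exact absurd rfl hij
    · exact o12.1
    · exact o13.1
    · exact o12.2
    · exact absurd rfl hij
    · exact o23.1
    · exact o13.2
    · exact o23.2
    · exact absurd rfl hij
  have all' : ∀ {d e}, M d e → ∃ j, ∃ k : F, d = k • u j := by
    intro d e h
    rcases all h with h | h | h
    · exact ⟨0, h⟩
    · exact ⟨1, h⟩
    · exact ⟨2, h⟩
  refine ⟨u, fun i => S.dne (hm i), fun γ hγ => ?_⟩
  have hex : ∀ i, ∃ j, ∃ k : F, γ (u i) = k • u j := fun i => all' (S.act (hm i) hγ)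
  choose σ hσ using hex
  have hinj : Function.Injective σ := by
    intro i j hij
    by_contra hne
    obtain ⟨k, hk⟩ := hσ i
    obtain ⟨k', hk'⟩ := hσ j
    rw [hij] at hk
    have e1 : γ (k' • u i) = γ (k • u j) := by
      rw [map_smul, map_smul, hk, hk', smul_smul, smul_smul, mul_comm]
    have e2 := congrArg (f i) (γ.injective e1)
    rw [map_smul, map_smul, ho i j hne, smul_zero, smul_eq_mul] at e2
    have hk'0 : k' ≠ 0 := by
      rintro rfl
      rw [zero_smul] at hk'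
      exact S.dne (hm j) (γ.map_eq_zero_iff.1 hk')
    rcases mul_eq_zero.1 e2 with h | h
    · exact hk'0 h
    · exact S.val_ne hq (hm i) h
  have hbij : Function.Bijective σ := Finite.injective_iff_bijective.1 hinj
  exact ⟨Equiv.ofBijective σ hbij, fun i => hσ i⟩

end Sys

end Pool.Agent.H95.D4
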