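import Pool.Agent.H95.D4.Irr

/-!
# The pointwise stabilizer of a line
-/

namespace Pool.Agent.H95.D4

open Module Pool.Agent.H20.ProjTwoTrans Pool.Agent.H95.DT
open scoped commutatorElement

variable {F V : Type*} [Field F] [AddCommGroup V] [Module F V]
variable {G : Subgroup (V ≃ₗ[F] V)}

lemma Q1_conj (L : Submodule F V) : ∀ h ∈ St G L, ∀ n ∈ Q1 G L, h * n * h⁻¹ ∈ Q1 G L := by
  intro h hh n hn
  refine ⟨G.mul_mem (G.mul_mem hh.1 hn.1) (G.inv_mem hh.1), fun x hx => ?_⟩
  have h1 : h⁻¹ x ∈ L := by rw [← hh.2, apply_inv]; exact hx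
  rw [apply_mul, apply_mul, hn.2 _ h1, apply_inv]

/-- In odd dimension a scalar which is a square of a linear map has a square root. -/
lemma exists_sqrt [FiniteDimensional F V] (hd : finrank F V = 5) {g : V ≃ₗ[F] V} {c : F}
    (hc : c ≠ 0) (h : ∀ x, g (g x) = c • x) : ∃ d : F, c = d * d := by
  have h1 : (g : V →ₗ[F] V) ∘ₗ (g : V →ₗ[F] V) = c • (LinearMap.id : V →ₗ[F] V) := by
    ext x
    exact h x
  have h2 := congrArg LinearMap.det h1
  rw [LinearMap.det_comp, LinearMap.det_smul, LinearMap.det_id, hd, mul_one] at h2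
  refine ⟨LinearMap.det (g : V →ₗ[F] V) * (c ^ 2)⁻¹, ?_⟩
  field_simp
  linear_combination -h2

/-- The pointwise stabilizer of a line is nontrivial. -/
lemma Q1_ne [FiniteDimensional F V] (hR : R3 G) (hd : finrank F V = 5)
    (hG : TwoTrans G) {L : Submodule F V} (hL : finrank F L = 2) : ∃ n ∈ Q1 G L, n ≠ 1 := by
  obtain ⟨v, hv, w, hw, hind⟩ := exists_pair hL
  obtain ⟨g, hg, hgv, c, hc, hgw⟩ := hG.trans v w w v hind (indep_swap hind)
  obtain ⟨z, hz, ez⟩ := hG.scalar c⁻¹ (inv_ne_zero hc)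
  refine ⟨z * (g * g), ⟨G.mul_mem hz (G.mul_mem hg hg), fun x hx => ?_⟩, ?_⟩
  · obtain ⟨a, b, rfl⟩ := exists_comb hL hv hw hind hx
    rw [apply_mul, apply_mul, ez]
    simp only [map_add, map_smul, hgv, hgw]
    rw [smul_add, smul_smul, smul_smul, smul_smul, smul_smul]
    have e1 : c⁻¹ * a * c = a := by field_simp
    have e2 : c⁻¹ * b * c = b := by field_simp
    rw [e1, e2]
  · intro h1
    have h2 : ∀ x, g (g x) = c • x := by
      intro x
      have h3 : (z * (g * g)) x = x := by rw [h1]; rfl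
      rw [apply_mul, ez, apply_mul] at h3
      have h4 : c • x = c • c⁻¹ • g (g x) := by rw [h3]
      rw [h4, smul_smul, mul_inv_cancel₀ hc, one_smul]
    obtain ⟨d, hd2⟩ := exists_sqrt hd hc h2
    obtain ⟨μ, hμ⟩ := sq_scalar hR hd hg (d := d) (by rw [← hd2]; exact h2)
    have h5 := hμ v
    rw [hgv] at h5
    exact not_mem_of_indep hind (Submodule.mem_span_singleton.mpr ⟨μ, h5.symm⟩)

lemma mk_zero {L : Submodule F V} (v : V) : L.mkQ v = 0 ↔ v ∈ L := by
  rw [Submodule.mkQ_apply, Submodule.Quotient.mk_eq_zero]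

lemma mk_eq {L : Submodule F V} (v w : V) : L.mkQ v = L.mkQ w ↔ v - w ∈ L := by
  rw [← mk_zero, map_sub, sub_eq_zero]

/-! ### normal subgroups -/

/-- nontrivial subgroups of the pointwise stabilizer normalized by the stabilizer -/
structure Nrm (G : Subgroup (V ≃ₗ[F] V)) (L : Submodule F V) (N : Subgroup (V ≃ₗ[F] V)) :
    Prop where
  le : N ≤ Q1 G L
  conj : ∀ h ∈ St G L, ∀ n ∈ N, h * n * h⁻¹ ∈ N
  ne : ∃ n ∈ N, n ≠ 1

lemma Nrm.irr [Infinite F] [FiniteDimensional F V] (hR : R3 G) (hd : finrank F V = 5)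
    (hG : TwoTrans G) {L : Submodule F V} (hL : finrank F L = 2) {N : Subgroup (V ≃ₗ[F] V)}
    (hN : Nrm G L N) {U : Submodule F V} (hLU : L ≤ U) (hUL : ¬ U ≤ L) (hUT : U ≠ ⊤)
    (hNU : ∀ n ∈ N, ∀ x ∈ U, n x ∈ U) : False := by
  obtain ⟨n, hn, hn1⟩ := hN.ne
  exact D4.irr hR hd hG hL hN.le hN.conj hn hn1 hLU hUL hUT hNU

lemma nrm_Q1 [FiniteDimensional F V] (hR : R3 G) (hd : finrank F V = 5)
    (hG : TwoTrans G) {L : Submodule F V} (hL : finrank F L = 2) : Nrm G L (Q1 G L) :=
  ⟨le_refl _, Q1_conj L, Q1_ne hR hd hG hL⟩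

lemma comm_conj {N : Subgroup (V ≃ₗ[F] V)} {L : Submodule F V}
    (hN : ∀ h ∈ St G L, ∀ n ∈ N, h * n * h⁻¹ ∈ N) :
    ∀ h ∈ St G L, ∀ n ∈ ⁅N, N⁆, h * n * h⁻¹ ∈ ⁅N, N⁆ := by
  intro h hh n hn
  have h1 : N.map (MulAut.conj h).toMonoidHom ≤ N := by
    rintro _ ⟨x, hx, rfl⟩
    exact hN h hh x hx
  have h2 : (MulAut.conj h).toMonoidHom n ∈ (⁅N, N⁆).map (MulAut.conj h).toMonoidHom :=
    ⟨n, hn, rfl⟩
  rw [Subgroup.map_commutator] at h2
  exact Subgroup.commutator_mono h1 h1 h2

/-- Abelian groups of exponent three. -/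
lemma Nrm.no_exp_three [Infinite F] [FiniteDimensional F V] (hR : R3 G) (hd : finrank F V = 5)
    (hG : TwoTrans G) {L : Submodule F V} (hL : finrank F L = 2) {A : Subgroup (V ≃ₗ[F] V)}
    (hA : Nrm G L A) (hc : ∀ a ∈ A, ∀ b ∈ A, a * b = b * a)
    (h3 : ∀ a ∈ A, ∀ x, a (a (a x)) = x) : False := by
  obtain ⟨n, hn, hn1⟩ := hA.ne
  have hnQ := hA.le hn
  -- no eigenvectors modulo `L`
  have hne : ∀ (μ : F) (v : V), n v - μ • v ∈ L → v ∈ L := by
    intro μ v hvμ
    by_contra hv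
    refine hA.irr hR hd hG hL (U := Eg L n μ) ?_ ?_ ?_ ?_
    · intro x hx
      rw [mem_Eg, hnQ.2 x hx]
      exact L.sub_mem hx (L.smul_mem _ hx)
    · intro hle
      exact hv (hle hvμ)
    · intro h
      have h1 : ∀ x, n x = μ • x := quot_scalar hR hd hL hnQ.1 (c := μ) (fun x => by
        have : x ∈ Eg L n μ := by rw [h]; trivial
        exact this)
      obtain ⟨v, hv, w, hw, hind⟩ := exists_pair hL
      have h2 := h1 v
      rw [hnQ.2 v hv] at h2
      have h3 : (μ - 1) • v = 0 := by rw [sub_smul, one_smul, ← h2, sub_self]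
      have h4 : μ = 1 := sub_eq_zero.1 ((smul_eq_zero.1 h3).resolve_right (hind.ne_zero 0))
      apply hn1
      ext x
      rw [h1, h4, one_smul]
      rfl
    · intro n' hn' x hx
      rw [mem_Eg] at hx ⊢
      have e : n (n' x) - μ • n' x = n' (n x - μ • x) := by
        rw [map_sub, map_smul, ← apply_mul, hc n hn n' hn', apply_mul]
      rw [e, Q1_iff (hA.le hn')]
      exact hx
  have hsum : ∀ y, y + n y + n (n y) ∈ L := by
    intro y
    apply hne 1
    rw [one_smul, map_add, map_add, h3 n hn]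
    have : n y + n (n y) + y - (y + n y + n (n y)) = 0 := by abel
    rw [this]
    exact L.zero_mem
  have hLT : ¬ (⊤ : Submodule F V) ≤ L := by
    intro h
    have := Submodule.finrank_mono h
    rw [finrank_top] at this
    omega
  obtain ⟨v, -, hv⟩ := SetLike.not_le_iff_exists.1 hLT
  have hv1 : n v ∉ L ⊔ Submodule.span F {v} := by
    intro h
    obtain ⟨l, hl, y, hy, hly⟩ := Submodule.mem_sup.1 h
    obtain ⟨r, rfl⟩ := Submodule.mem_span_singleton.1 hy
    apply hv
    apply hne r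
    rw [← hly, add_sub_cancel_right]
    exact hl
  set P := L ⊔ Submodule.span F {v} ⊔ Submodule.span F {n v} with hP
  have hP4 : finrank F P = 4 := by
    rw [hP, Submodule.finrank_sup_span_singleton hv1, Submodule.finrank_sup_span_singleton hv, hL]
  have hLP : L ≤ P := le_sup_left.trans le_sup_left
  have hPn : ∀ y ∈ P, n y ∈ P := by
    intro y hy
    have hle : P ≤ P.comap (n : V →ₗ[F] V) := by
      refine sup_le (sup_le ?_ ?_) ?_
      · intro l hl
        show n l ∈ P
        rw [hnQ.2 l hl]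
        exact hLP hl
      · rw [Submodule.span_singleton_le_iff_mem]
        exact Submodule.mem_sup_right (Submodule.mem_span_singleton_self _)
      · rw [Submodule.span_singleton_le_iff_mem]
        show n (n v) ∈ P
        have : n (n v) = (v + n v + n (n v)) - v - n v := by abel
        rw [this]
        refine P.sub_mem (P.sub_mem (hLP (hsum v)) ?_) ?_
        · exact Submodule.mem_sup_left (Submodule.mem_sup_right
            (Submodule.mem_span_singleton_self _))
        · exact Submodule.mem_sup_right (Submodule.mem_span_singleton_self _)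
    exact hle hy
  have hPT : ¬ (⊤ : Submodule F V) ≤ P := by
    intro h
    have := Submodule.finrank_mono h
    rw [finrank_top] at this
    omega
  obtain ⟨y, -, hy⟩ := SetLike.not_le_iff_exists.1 hPT
  have htop : P ⊔ Submodule.span F {y} = ⊤ := by
    apply Submodule.eq_top_of_finrank_eq
    rw [Submodule.finrank_sup_span_singleton hy, hP4, hd]
  obtain ⟨ω, p, hp, hω⟩ : ∃ (ω : F) (p : V), p ∈ P ∧ n y = p + ω • y := by
    have : n y ∈ P ⊔ Submodule.span F {y} := by rw [htop]; trivial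
    obtain ⟨p, hp, z, hz, hpz⟩ := Submodule.mem_sup.1 this
    obtain ⟨ω, rfl⟩ := Submodule.mem_span_singleton.1 hz
    exact ⟨ω, p, hp, hpz.symm⟩
  have hω1 : ω ^ 2 + ω + 1 = 0 := by
    by_contra h
    apply hy
    have h1 := hLP (hsum y)
    have h2 : n (n y) = n p + ω • (p + ω • y) := by rw [hω, map_add, map_smul, hω]
    rw [h2, hω] at h1
    have h4 : (ω ^ 2 + ω + 1) • y ∈ P := by
      have : (ω ^ 2 + ω + 1) • y = (y + (p + ω • y) + (n p + ω • (p + ω • y))) - p - n p -
          ω • p := by module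
      rw [this]
      exact P.sub_mem (P.sub_mem (P.sub_mem h1 hp) (hPn p hp)) (P.smul_mem _ hp)
    exact (P.smul_mem_iff h).1 h4
  apply hv
  apply hne (ω ^ 2)
  apply hne ω
  have h1 := hsum v
  have : n (n v - ω ^ 2 • v) - ω • (n v - ω ^ 2 • v) = v + n v + n (n v) := by
    rw [map_sub, map_smul]
    have e1 : ω ^ 2 = -ω - 1 := by linear_combination hω1
    have e2 : ω * ω ^ 2 = 1 := by linear_combination (ω - 1) * hω1
    rw [smul_sub, smul_smul, e2, e1]
    module
  rw [this]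
  exact h1

/-! ### invariant subspaces -/

/-- an eigenvector modulo `L` gives an invariant hyperplane -/
lemma exists_U4 [FiniteDimensional F V] (hd : finrank F V = 5) {L : Submodule F V}
    (hL : finrank F L = 2) {x : V ≃ₗ[F] V} (hx : x ∈ Q1 G L) {z : V} (hz : z ∉ L) {μ : F}
    (hxz : x z - μ • z ∈ L) :
    ∃ U : Submodule F V, L ≤ U ∧ finrank F U = 4 ∧ ∀ u ∈ U, x u ∈ U := by
  set T : V →ₗ[F] (V ⧸ L) := L.mkQ ∘ₗ ((x : V →ₗ[F] V) - μ • LinearMap.id) with hT
  have hTa : ∀ v, T v = L.mkQ (x v - μ • v) := fun v => rfl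
  have hle : L ⊔ Submodule.span F {z} ≤ LinearMap.ker T := by
    refine sup_le ?_ ?_
    · intro l hl
      rw [LinearMap.mem_ker, hTa, mk_zero, hx.2 l hl]
      exact L.sub_mem hl (L.smul_mem _ hl)
    · rw [Submodule.span_singleton_le_iff_mem, LinearMap.mem_ker, hTa, mk_zero]
      exact hxz
  have h1 := Submodule.finrank_mono hle
  rw [Submodule.finrank_sup_span_singleton hz, hL] at h1
  have h2 := LinearMap.finrank_range_add_finrank_ker T
  have h3 := Submodule.finrank_quotient_add_finrank L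
  have h4 : LinearMap.range T < ⊤ := by
    rw [lt_top_iff_ne_top]
    intro h
    rw [h, finrank_top] at h2
    omega
  obtain ⟨φ, hφ, hφT⟩ := Submodule.exists_le_ker_of_lt_top _ h4
  refine ⟨LinearMap.ker (φ ∘ₗ L.mkQ), ?_, ?_, ?_⟩
  · intro l hl
    rw [LinearMap.mem_ker, LinearMap.comp_apply, (mk_zero l).2 hl, map_zero]
  · have h5 := LinearMap.finrank_range_add_finrank_ker (φ ∘ₗ L.mkQ)
    have h6 : LinearMap.range (φ ∘ₗ L.mkQ) = ⊤ := by
      rw [LinearMap.range_eq_top]
      apply LinearMap.surjective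
      intro h
      apply hφ
      exact LinearMap.ext fun u => by
        obtain ⟨v, rfl⟩ := L.mkQ_surjective u
        exact LinearMap.congr_fun h v
    rw [h6, finrank_top, Module.finrank_self] at h5
    omega
  · intro u hu
    rw [LinearMap.mem_ker, LinearMap.comp_apply] at hu ⊢
    have h5 : T u ∈ LinearMap.ker φ := hφT ⟨u, rfl⟩
    rw [LinearMap.mem_ker, hTa, map_sub, map_sub, map_smul, map_smul, hu, smul_zero,
      sub_zero] at h5
    exact h5

/-- the image of an invariant hyperplane -/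
lemma exists_W [FiniteDimensional F V] (hR : R3 G) {L : Submodule F V}
    (hL : finrank F L = 2) {x : V ≃ₗ[F] V} (hx : x ∈ Q1 G L) (hx1 : x ≠ 1)
    {U : Submodule F V} (hLU : L ≤ U) (hU : finrank F U = 4) (hxU : ∀ u ∈ U, x u ∈ U) :
    ∃ W : Submodule F V, finrank F W = 2 ∧ (∀ w ∈ W, x w ∈ W) ∧ ∀ u ∈ U, x u - u ∈ W := by
  set T : U →ₗ[F] V := ((x : V →ₗ[F] V) - LinearMap.id).domRestrict U with hT
  have hTa : ∀ u : U, T u = x u - u := fun u => rfl
  have hker : LinearMap.ker T = L.comap U.subtype := by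
    ext u
    rw [LinearMap.mem_ker, hTa, Submodule.mem_comap, Submodule.subtype_apply]
    constructor
    · intro h
      by_contra hu
      exact hx1 (fix3 hR hL hx.1 hx.2 hu (sub_eq_zero.1 h))
    · intro h
      rw [hx.2 _ h, sub_self]
  have h1 := LinearMap.finrank_range_add_finrank_ker T
  rw [hker, (Submodule.comapSubtypeEquivOfLe hLU).finrank_eq, hL, hU] at h1
  refine ⟨LinearMap.range T, by omega, ?_, fun u hu => ⟨⟨u, hu⟩, rfl⟩⟩
  rintro _ ⟨u, rfl⟩
  refine ⟨⟨x u, hxU u u.2⟩, ?_⟩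
  rw [hTa, hTa, map_sub]

end Pool.Agent.H95.D4
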