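import Pool.Agent.H95.D4.Gam

/-!
# Perspectivities in two-transitive groups in dimension five
-/

namespace Pool.Agent.H95.D4

open Module Pool.Agent.H20.ProjTwoTrans Pool.Agent.H95.DT

variable {F V : Type*} [Field F] [AddCommGroup V] [Module F V]
variable {G : Subgroup (V ≃ₗ[F] V)}

/-- Over an infinite field over which every polynomial of degree three has a root, in dimension
five every two-transitive group contains a nonidentity perspectivity. -/
theorem exists_perspectivity_of_five [Infinite F]
    (hF : ∀ p : Polynomial F, p.natDegree = 3 → ∃ a, p.IsRoot a) [FiniteDimensional F V]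
    (hd : finrank F V = 5) (hG : TwoTrans G) :
    ∃ (f : Dual F V) (v : V), f ≠ 0 ∧ v ≠ 0 ∧ HasT G f v := by
  by_contra hcon
  push Not at hcon
  have hP : NoP G := by
    intro N hN hr
    by_contra h0
    obtain ⟨x, hx⟩ : ∃ x, N x ≠ 0 := by
      by_contra h
      push Not at h
      exact h0 (LinearMap.ext h)
    have hspan : LinearMap.range N = Submodule.span F {N x} := by
      symm
      apply Submodule.eq_of_le_of_finrank_le
      · rw [Submodule.span_le]
        rintro _ rfl
        exact ⟨x, rfl⟩
      · rw [finrank_span_singleton hx]; exact hr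
    obtain ⟨f, hf⟩ : ∃ f : Dual F V, f (N x) ≠ 0 := by
      by_contra h
      push Not at h
      exact hx ((Module.forall_dual_apply_eq_zero_iff F (N x)).1 h)
    have hform : ∀ y, N y = (f (N x))⁻¹ • f (N y) • N x := by
      intro y
      have hy : N y ∈ Submodule.span F {N x} := by rw [← hspan]; exact ⟨y, rfl⟩
      obtain ⟨a, ha⟩ := Submodule.mem_span_singleton.1 hy
      rw [← ha, map_smul, smul_eq_mul, smul_smul, mul_comm a, ← mul_assoc,
        inv_mul_cancel₀ hf, one_mul]
    refine hcon ((f (N x))⁻¹ • (f ∘ₗ N)) (N x) ?_ hx ?_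
    · intro h
      have := congrArg (fun φ : Dual F V => φ x) h
      simp only [LinearMap.smul_apply, LinearMap.comp_apply, smul_eq_mul,
        LinearMap.zero_apply] at this
      rw [inv_mul_cancel₀ hf] at this
      exact one_ne_zero this
    · obtain ⟨g, hg, hgN⟩ := hN
      refine ⟨g, hg, fun y => ?_⟩
      rw [hgN, hform y]
      simp only [LinearMap.smul_apply, LinearMap.comp_apply, smul_eq_mul, smul_smul]
  exact no_R3 hF (R3_of_NoP hP hd hG (exists_elements (F := F) 12 (by norm_num))) hd hG

end Pool.Agent.H95.D4
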