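import Pool.Agent.H95.D4.Comb

/-!
# The stabilizer of two points acting on the quotient
-/

namespace Pool.Agent.H95.D4

open Module Pool.Agent.H20.ProjTwoTrans Pool.Agent.H95.DT
open scoped commutatorElement

variable {F V : Type*} [Field F] [AddCommGroup V] [Module F V]
variable {G : Subgroup (V ≃ₗ[F] V)}

/-! ### realizing maps of the quotient -/

/-- `γ` is induced by `n` -/
def Rz (L : Submodule F V) (γ : (V ⧸ L) ≃ₗ[F] (V ⧸ L)) (n : V ≃ₗ[F] V) : Prop :=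
  ∀ v, γ (L.mkQ v) = L.mkQ (n v)

lemma Rz.mul {L : Submodule F V} {γ γ' : (V ⧸ L) ≃ₗ[F] (V ⧸ L)} {n n' : V ≃ₗ[F] V}
    (h : Rz L γ n) (h' : Rz L γ' n') : Rz L (γ * γ') (n * n') := by
  intro v
  rw [apply_mul, h', h]
  rfl

lemma Rz.inv {L : Submodule F V} {γ : (V ⧸ L) ≃ₗ[F] (V ⧸ L)} {n : V ≃ₗ[F] V}
    (h : Rz L γ n) : Rz L γ⁻¹ n⁻¹ := by
  intro v
  have : γ (L.mkQ (n⁻¹ v)) = L.mkQ v := by rw [h, apply_inv]
  rw [← this, inv_apply]

lemma Rz.one (L : Submodule F V) : Rz L 1 1 := fun _ => rfl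

lemma Rz.comm {L : Submodule F V} {γ γ' : (V ⧸ L) ≃ₗ[F] (V ⧸ L)} {n n' : V ≃ₗ[F] V}
    (h : Rz L γ n) (h' : Rz L γ' n') : Rz L ⁅γ, γ'⁆ ⁅n, n'⁆ := by
  rw [commutatorElement_def, commutatorElement_def]
  exact ((h.mul h').mul h.inv).mul h'.inv

lemma exists_rz {L : Submodule F V} {h : V ≃ₗ[F] V} (hL : ∀ x, h x ∈ L ↔ x ∈ L) :
    ∃ γ, Rz L γ h := by
  have hmap : L.map (h : V →ₗ[F] V) = L := by
    ext x
    constructor
    · rintro ⟨y, hy, rfl⟩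
      exact (hL y).2 hy
    · intro hx
      refine ⟨h⁻¹ x, ?_, apply_inv h x⟩
      show h⁻¹ x ∈ L
      rw [← hL, apply_inv]
      exact hx
  exact ⟨Submodule.Quotient.equiv L L h hmap, fun v => rfl⟩

/-- the group induced on the quotient -/
def Gam (H : Subgroup (V ≃ₗ[F] V)) (L : Submodule F V) : Subgroup ((V ⧸ L) ≃ₗ[F] (V ⧸ L)) where
  carrier := {γ | ∃ h ∈ H, Rz L γ h}
  mul_mem' := by
    rintro a b ⟨h, hh, ha⟩ ⟨h', hh', hb⟩
    exact ⟨h * h', H.mul_mem hh hh', ha.mul hb⟩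
  one_mem' := ⟨1, H.one_mem, Rz.one L⟩
  inv_mem' := by
    rintro a ⟨h, hh, ha⟩
    exact ⟨h⁻¹, H.inv_mem hh, ha.inv⟩

/-- the elements inducing elements of a given group -/
def Pull (L : Submodule F V) (K : Subgroup ((V ⧸ L) ≃ₗ[F] (V ⧸ L))) :
    Subgroup (V ≃ₗ[F] V) where
  carrier := {n | ∃ γ ∈ K, Rz L γ n}
  mul_mem' := by
    rintro a b ⟨h, hh, ha⟩ ⟨h', hh', hb⟩
    exact ⟨h * h', K.mul_mem hh hh', ha.mul hb⟩
  one_mem' := ⟨1, K.one_mem, Rz.one L⟩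
  inv_mem' := by
    rintro a ⟨h, hh, ha⟩
    exact ⟨h⁻¹, K.inv_mem hh, ha.inv⟩

lemma pull_comm {L : Submodule F V} {K K' : Subgroup ((V ⧸ L) ≃ₗ[F] (V ⧸ L))}
    (h : ∀ a ∈ K, ∀ b ∈ K, ⁅a, b⁆ ∈ K') : ⁅Pull L K, Pull L K⁆ ≤ Pull L K' := by
  rw [Subgroup.commutator_le]
  rintro a ⟨γ, hγ, ha⟩ b ⟨γ', hγ', hb⟩
  exact ⟨⁅γ, γ'⁆, h γ hγ γ' hγ', ha.comm hb⟩

/-! ### monomial groups -/

section Mono
variable {Q : Type*} [AddCommGroup Q] [Module F Q]

/-- `γ` permutes the points spanned by `u i` -/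
def Pm (u : Fin 3 → Q) (γ : Q ≃ₗ[F] Q) (σ : Equiv.Perm (Fin 3)) : Prop :=
  ∀ i, ∃ k : F, γ (u i) = k • u (σ i)

lemma Pm.mul {u : Fin 3 → Q} {γ γ' : Q ≃ₗ[F] Q} {σ σ' : Equiv.Perm (Fin 3)}
    (h : Pm u γ σ) (h' : Pm u γ' σ') : Pm u (γ * γ') (σ * σ') := by
  intro i
  obtain ⟨k', hk'⟩ := h' i
  obtain ⟨k, hk⟩ := h (σ' i)
  refine ⟨k' * k, ?_⟩
  rw [apply_mul, hk', map_smul, hk, smul_smul]
  rfl

lemma Pm.inv {u : Fin 3 → Q} (hu : ∀ i, u i ≠ 0) {γ : Q ≃ₗ[F] Q} {σ : Equiv.Perm (Fin 3)}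
    (h : Pm u γ σ) : Pm u γ⁻¹ σ⁻¹ := by
  intro i
  obtain ⟨k, hk⟩ := h (σ⁻¹ i)
  have hσ : σ (σ⁻¹ i) = i := σ.apply_symm_apply i
  rw [hσ] at hk
  have hk0 : k ≠ 0 := by
    rintro rfl
    rw [zero_smul] at hk
    exact hu _ (γ.map_eq_zero_iff.1 hk)
  refine ⟨k⁻¹, ?_⟩
  have : u i = k⁻¹ • γ (u (σ⁻¹ i)) := by rw [hk, smul_smul, inv_mul_cancel₀ hk0, one_smul]
  conv_lhs => rw [this]
  rw [map_smul, inv_apply]

lemma Pm.comm {u : Fin 3 → Q} (hu : ∀ i, u i ≠ 0) {γ γ' : Q ≃ₗ[F] Q}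
    {σ σ' : Equiv.Perm (Fin 3)} (h : Pm u γ σ) (h' : Pm u γ' σ') : Pm u ⁅γ, γ'⁆ ⁅σ, σ'⁆ := by
  rw [commutatorElement_def, commutatorElement_def]
  exact ((h.mul h').mul (h.inv hu)).mul (h'.inv hu)

/-- groups of monomial maps -/
def Kσ (u : Fin 3 → Q) (hu : ∀ i, u i ≠ 0) (S : Subgroup (Equiv.Perm (Fin 3))) :
    Subgroup (Q ≃ₗ[F] Q) where
  carrier := {γ | ∃ σ ∈ S, Pm u γ σ}
  mul_mem' := by
    rintro a b ⟨σ, hσ, ha⟩ ⟨σ', hσ', hb⟩
    exact ⟨σ * σ', S.mul_mem hσ hσ', ha.mul hb⟩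
  one_mem' := ⟨1, S.one_mem, fun i => ⟨1, by rw [one_smul]; rfl⟩⟩
  inv_mem' := by
    rintro a ⟨σ, hσ, ha⟩
    exact ⟨σ⁻¹, S.inv_mem hσ, ha.inv hu⟩

lemma perm_comm : ∀ a b : Equiv.Perm (Fin 3), Equiv.Perm.sign a = 1 → Equiv.Perm.sign b = 1 →
    a * b = b * a := by decide

lemma pow_six {M : Type*} [Monoid M] (a : M) : a ^ 6 = a * a * a * (a * a * a) := by
  rw [← pow_three', ← pow_add]

lemma perm_six (a : Equiv.Perm (Fin 3)) : a * a * a * (a * a * a) = 1 := by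
  have h : Fintype.card (Equiv.Perm (Fin 3)) = 6 := by
    rw [Fintype.card_perm, Fintype.card_fin]
    rfl
  have h2 : a ^ Fintype.card (Equiv.Perm (Fin 3)) = 1 := pow_card_eq_one
  rw [h, pow_six] at h2
  exact h2

end Mono

/-! ### the stabilizer of a line together with the action of an element -/

/-- the elements preserving `L` and commuting with `x` on `L` -/
def HW (G : Subgroup (V ≃ₗ[F] V)) (L : Submodule F V) (x : V ≃ₗ[F] V) :
    Subgroup (V ≃ₗ[F] V) where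
  carrier := {g | g ∈ St G L ∧ ∀ v ∈ L, g (x v) = x (g v)}
  mul_mem' := by
    rintro g g' ⟨h1, h2⟩ ⟨h1', h2'⟩
    refine ⟨(St G L).mul_mem h1 h1', fun v hv => ?_⟩
    rw [apply_mul, apply_mul, h2' v hv, h2 _ ((h1'.2 v).2 hv)]
  one_mem' := ⟨(St G L).one_mem, fun v _ => rfl⟩
  inv_mem' := by
    rintro g ⟨h1, h2⟩
    refine ⟨(St G L).inv_mem h1, fun v hv => ?_⟩
    have h3 : g⁻¹ v ∈ L := by rw [← h1.2, apply_inv]; exact hv
    have h4 := h2 _ h3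
    rw [apply_inv] at h4
    rw [← h4, inv_apply]

lemma Q1_le_HW [FiniteDimensional F V] {L : Submodule F V} {x : V ≃ₗ[F] V}
    (hxL : ∀ v ∈ L, x v ∈ L) : Q1 G L ≤ HW G L x := by
  intro g hg
  refine ⟨⟨hg.1, Q1_iff hg⟩, fun v hv => ?_⟩
  rw [hg.2 v hv, hg.2 _ (hxL v hv)]

lemma conj_on {L : Submodule F V} {g x : V ≃ₗ[F] V} (hg : g ∈ HW G L x) {v : V} (hv : v ∈ L) :
    (g * x * g⁻¹) v = x v := by
  have h3 : g⁻¹ v ∈ L := by rw [← hg.1.2, apply_inv]; exact hv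
  rw [apply_mul, apply_mul, hg.2 _ h3, apply_inv]

/-- The system of maps attached to an element with a two-dimensional fixed space modulo `L`. -/
theorem sys_of [Infinite F] [FiniteDimensional F V] (hR : R3 G) (hd : finrank F V = 5)
    (hG : TwoTrans G) {L : Submodule F V} (hL : finrank F L = 2) {x : V ≃ₗ[F] V} (hx : x ∈ G)
    (hxL : ∀ v ∈ L, x v ∈ L) {X : (V ⧸ L) ≃ₗ[F] (V ⧸ L)} (hX : Rz L X x)
    {c : V ⧸ L} {f : Dual F (V ⧸ L)} {t : F} (ht : t ≠ 0) (ht1 : t + 1 ≠ 0)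
    (hfc : f c = t - 1) (hc : c ≠ 0) (hf : f ≠ 0) (hXf : ∀ u, X u = u + f u • c) :
    Sys (Gam (HW G L x) L) (fun d e => ∃ γ ∈ Gam (HW G L x) L, d = γ c ∧
      ∀ u, e (γ u) = f u) t := by
  set Γ := Gam (HW G L x) L with hΓ
  have hxS : ∀ v, x v ∈ L ↔ v ∈ L := iff_of_le hxL
  have hxH : x ∈ HW G L x := ⟨⟨hx, hxS⟩, fun v _ => rfl⟩
  have hXΓ : X ∈ Γ := ⟨x, hxH, hX⟩
  refine ⟨?_, ?_, ?_, ?_, ?_, ?_, ?_, ?_, ht, ht1, ?_⟩
  · -- irreducibility
    intro U hU hUΓ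
    by_contra hUT
    refine (nrm_Q1 hR hd hG hL).irr hR hd hG hL (U := U.comap L.mkQ) ?_ ?_ ?_ ?_
    · intro y hy
      show L.mkQ y ∈ U
      rw [(mk_zero y).2 hy]
      exact U.zero_mem
    · intro hle
      obtain ⟨w, hw, hw0⟩ := Submodule.exists_mem_ne_zero_of_ne_bot hU
      obtain ⟨y, rfl⟩ := L.mkQ_surjective w
      exact hw0 ((mk_zero y).2 (hle hw))
    · intro h
      apply hUT
      rw [eq_top_iff]
      intro w _
      obtain ⟨y, rfl⟩ := L.mkQ_surjective w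
      have : y ∈ U.comap L.mkQ := by rw [h]; trivial
      exact this
    · intro n hn y hy
      obtain ⟨γ, hγ⟩ := exists_rz (Q1_iff hn)
      have h1 := hUΓ γ ⟨n, Q1_le_HW hxL hn, hγ⟩ _ hy
      rw [hγ] at h1
      exact h1
  · rintro d e ⟨γ0, hγ0, rfl, he⟩ γ hγ
    refine ⟨γ * γ0, Γ.mul_mem hγ hγ0, rfl, ?_⟩
    intro u
    rw [← he u, LinearMap.comp_apply, LinearEquiv.coe_coe, apply_mul, inv_apply]
  · rintro d e d' e' ⟨γ0, hγ0, rfl, he⟩ ⟨γ1, hγ1, rfl, he'⟩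
    refine ⟨γ1 * γ0⁻¹, Γ.mul_mem hγ1 (Γ.inv_mem hγ0), ?_⟩
    rw [apply_mul, inv_apply]
  · rintro d e ⟨γ0, hγ0, rfl, he⟩
    refine ⟨γ0 * X * γ0⁻¹, Γ.mul_mem (Γ.mul_mem hγ0 hXΓ) (Γ.inv_mem hγ0), ?_⟩
    intro u
    rw [apply_mul, apply_mul, hXf, map_add, map_smul, apply_inv, ← he, apply_inv]
  · rintro d e ⟨γ0, hγ0, rfl, he⟩
    rw [he, hfc]
  · rintro d e ⟨γ0, hγ0, rfl, he⟩
    intro h
    exact hc (γ0.map_eq_zero_iff.1 h)
  · rintro d e ⟨γ0, hγ0, rfl, he⟩ rfl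
    exact hf (LinearMap.ext fun u => by rw [← he u]; rfl)
  · rintro d e d' e' ⟨γ0, hγ0, rfl, he⟩ ⟨γ1, hγ1, rfl, he'⟩
    obtain ⟨g0, hg0, hr0⟩ := hγ0
    obtain ⟨g1, hg1, hr1⟩ := hγ1
    have k0 : Rz L (γ0 * X * γ0⁻¹) (g0 * x * g0⁻¹) := (hr0.mul hX).mul hr0.inv
    have k1 : Rz L (γ1 * X * γ1⁻¹) (g1 * x * g1⁻¹) := (hr1.mul hX).mul hr1.inv
    refine pp hR hd hL (x := g0 * x * g0⁻¹) (y := g1 * x * g1⁻¹)
      (G.mul_mem (G.mul_mem hg0.1.1 hx) (G.inv_mem hg0.1.1))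
      (G.mul_mem (G.mul_mem hg1.1.1 hx) (G.inv_mem hg1.1.1)) ?_ ?_
      (X := γ0 * X * γ0⁻¹) (Y := γ1 * X * γ1⁻¹) k0 k1 (t := t) ht ht1 ?_ ?_ ?_ ?_
    · apply iff_of_le
      intro v hv
      rw [conj_on hg0 hv]
      exact hxL v hv
    · intro v hv
      rw [conj_on hg0 hv, conj_on hg1 hv]
    · rw [he, hfc]
    · rw [he', hfc]
    · intro u
      rw [apply_mul, apply_mul, hXf, map_add, map_smul, apply_inv, ← he, apply_inv]
    · intro u
      rw [apply_mul, apply_mul, hXf, map_add, map_smul, apply_inv, ← he', apply_inv]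
  · exact ⟨c, f, 1, Γ.one_mem, rfl, fun u => rfl⟩

/-! ### monomial action is impossible -/

theorem no_mono [Infinite F] [FiniteDimensional F V] (hR : R3 G) (hd : finrank F V = 5)
    (hG : TwoTrans G) {L : Submodule F V} (hL : finrank F L = 2) {u : Fin 3 → V ⧸ L}
    (hu : ∀ i, u i ≠ 0) (c0 : Q1 G L ≤ Pull L (Kσ u hu ⊤)) : False := by
  obtain ⟨v0, hv0⟩ := L.mkQ_surjective (u 0)
  have hv0L : v0 ∉ L := by
    intro h
    apply hu 0
    rw [← hv0, mk_zero]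
    exact h
  -- normal subgroups are not diagonal
  have key : ∀ N, Nrm G L N → ¬ N ≤ Pull L (Kσ u hu ⊥) := by
    intro N hN c3
    refine hN.irr hR hd hG hL (U := L ⊔ Submodule.span F {v0}) le_sup_left ?_ ?_ ?_
    · intro h
      exact hv0L (h (Submodule.mem_sup_right (Submodule.mem_span_singleton_self _)))
    · intro h
      have h4 := Submodule.finrank_sup_span_singleton hv0L
      rw [h, finrank_top, hL] at h4
      omega
    · intro n hn y hy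
      obtain ⟨γ, ⟨σ, hσ, hm⟩, hγ⟩ := c3 hn
      rw [Subgroup.mem_bot] at hσ
      obtain ⟨k, hk⟩ := hm 0
      rw [hσ, Equiv.Perm.one_apply, ← hv0, hγ, ← map_smul, mk_eq] at hk
      obtain ⟨l, hl, z, hz, rfl⟩ := Submodule.mem_sup.1 hy
      obtain ⟨r, rfl⟩ := Submodule.mem_span_singleton.1 hz
      have hnQ : n ∈ Q1 G L := hN.le hn
      have : n (l + r • v0) = (l + r • (n v0 - k • v0)) + (r * k) • v0 := by
        rw [map_add, map_smul, hnQ.2 l hl]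
        module
      rw [this]
      exact Submodule.add_mem_sup (L.add_mem hl (L.smul_mem _ hk))
        (Submodule.smul_mem _ _ (Submodule.mem_span_singleton_self _))
  have c1 : ⁅Pull L (Kσ u hu ⊤), Pull L (Kσ u hu ⊤)⁆ ≤
      Pull L (Kσ u hu (Equiv.Perm.sign (α := Fin 3)).ker) := by
    apply pull_comm
    rintro γ ⟨σ, -, h⟩ γ' ⟨σ', -, h'⟩
    refine ⟨⁅σ, σ'⁆, ?_, h.comm hu h'⟩
    rw [MonoidHom.mem_ker, map_commutatorElement]
    exact commutatorElement_eq_one_iff_mul_comm.2 (mul_comm _ _)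
  have c2 : ⁅Pull L (Kσ u hu (Equiv.Perm.sign (α := Fin 3)).ker),
      Pull L (Kσ u hu (Equiv.Perm.sign (α := Fin 3)).ker)⁆ ≤ Pull L (Kσ u hu ⊥) := by
    apply pull_comm
    rintro γ ⟨σ, hσ, h⟩ γ' ⟨σ', hσ', h'⟩
    refine ⟨⁅σ, σ'⁆, ?_, h.comm hu h'⟩
    rw [Subgroup.mem_bot]
    exact commutatorElement_eq_one_iff_mul_comm.2 (perm_comm σ σ' hσ hσ')
  set N := Q1 G L with hNdef
  have hN := nrm_Q1 hR hd hG hL
  have hN1le : ⁅N, N⁆ ≤ N := comm_le N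
  have hN1c := comm_conj (L := L) hN.conj
  have hN2c := comm_conj (L := L) hN1c
  have c3 : ⁅⁅N, N⁆, ⁅N, N⁆⁆ ≤ Pull L (Kσ u hu ⊥) := by
    have h4 := (Subgroup.commutator_mono c0 c0).trans c1
    exact (Subgroup.commutator_mono h4 h4).trans c2
  have hN2 : ∀ n ∈ ⁅⁅N, N⁆, ⁅N, N⁆⁆, n = 1 := by
    intro n hn
    by_contra hn1
    exact key _ ⟨(comm_le _).trans (hN1le.trans (le_refl _)), hN2c, n, hn, hn1⟩ c3
  obtain ⟨A, hA, hAc⟩ : ∃ A, Nrm G L A ∧ ∀ a ∈ A, ∀ b ∈ A, a * b = b * a := by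
    by_cases h : ∃ n ∈ ⁅N, N⁆, n ≠ 1
    · refine ⟨⁅N, N⁆, ⟨hN1le, hN1c, h⟩, fun a ha b hb => ?_⟩
      exact commutatorElement_eq_one_iff_mul_comm.1
        (hN2 _ (Subgroup.commutator_mem_commutator ha hb))
    · push Not at h
      refine ⟨N, hN, fun a ha b hb => ?_⟩
      exact commutatorElement_eq_one_iff_mul_comm.1
        (h _ (Subgroup.commutator_mem_commutator ha hb))
  -- the sixth powers
  let B : Subgroup (V ≃ₗ[F] V) :=
    { carrier := {g | ∃ a ∈ A, g = a ^ 6}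
      mul_mem' := by
        rintro _ _ ⟨a, ha, rfl⟩ ⟨b, hb, rfl⟩
        refine ⟨a * b, A.mul_mem ha hb, ?_⟩
        rw [(show Commute a b from hAc a ha b hb).mul_pow]
      one_mem' := ⟨1, A.one_mem, by rw [one_pow]⟩
      inv_mem' := by
        rintro _ ⟨a, ha, rfl⟩
        exact ⟨a⁻¹, A.inv_mem ha, by rw [inv_pow]⟩ }
  have hBle : B ≤ Pull L (Kσ u hu ⊥) := by
    rintro _ ⟨a, ha, rfl⟩
    obtain ⟨γ, ⟨σ, -, hσ⟩, hγ⟩ := c0 (hA.le ha)
    refine ⟨γ * γ * γ * (γ * γ * γ), ⟨1, Subgroup.one_mem _, ?_⟩, ?_⟩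
    · rw [← perm_six σ]
      exact ((hσ.mul hσ).mul hσ).mul ((hσ.mul hσ).mul hσ)
    · rw [pow_six]
      exact ((hγ.mul hγ).mul hγ).mul ((hγ.mul hγ).mul hγ)
  have h6 : ∀ a ∈ A, a ^ 6 = 1 := by
    intro a ha
    by_contra ha1
    refine key B ⟨?_, ?_, _, ⟨a, ha, rfl⟩, ha1⟩ hBle
    · rintro _ ⟨b, hb, rfl⟩
      exact (Q1 G L).pow_mem (hA.le hb) 6
    · rintro h hh _ ⟨b, hb, rfl⟩
      refine ⟨h * b * h⁻¹, hA.conj h hh b hb, ?_⟩
      rw [conj_pow]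
  obtain ⟨w, hw, hw'⟩ := exists_pair hL
  refine hA.no_exp_three hR hd hG hL hAc ?_
  intro a ha
  have haQ := hA.le ha
  have h3 : a * a * a = 1 := by
    apply sq_one hR hd (G.mul_mem (G.mul_mem haQ.1 haQ.1) haQ.1) (v := w)
    · intro x
      have : (a * a * a * (a * a * a)) x = x := by
        rw [← pow_six, h6 a ha]
        rfl
      exact this
    · obtain ⟨w', -, hind⟩ := hw'
      exact hind.ne_zero 0
    · rw [apply_mul, apply_mul, haQ.2 w hw, haQ.2 w hw, haQ.2 w hw]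
  intro x
  have : (a * a * a) x = x := by rw [h3]; rfl
  exact this

/-- The main statement: nonidentity elements fixing a line pointwise act irreducibly modulo
the line. -/
theorem no_U4 [Infinite F] [FiniteDimensional F V] (hR : R3 G) (hd : finrank F V = 5)
    (hG : TwoTrans G) {L0 : Submodule F V} (hL0 : finrank F L0 = 2) {x : V ≃ₗ[F] V}
    (hxQ : x ∈ Q1 G L0) (hx1 : x ≠ 1) {U : Submodule F V} (hLU : L0 ≤ U)
    (hU : finrank F U = 4) (hxU : ∀ u ∈ U, x u ∈ U) : False := by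
  obtain ⟨L, hL, hxL, hUx⟩ := exists_W hR hL0 hxQ hx1 hLU hU hxU
  have hx : x ∈ G := hxQ.1
  have hns : ∀ μ : F, ∃ v, x v ≠ μ • v := by
    intro μ
    obtain ⟨v, hv, w, hw, hind⟩ := exists_pair hL0
    by_contra hcon
    push Not at hcon
    have h1 := hcon v
    rw [hxQ.2 v hv] at h1
    have h2 : (μ - 1) • v = 0 := by rw [sub_smul, one_smul, ← h1, sub_self]
    have h3 : μ = 1 := sub_eq_zero.1 ((smul_eq_zero.1 h2).resolve_right (hind.ne_zero 0))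
    apply hx1
    ext y
    rw [hcon y, h3, one_smul]
    rfl
  have hq3 : finrank F (V ⧸ L) = 3 := by
    have := Submodule.finrank_quotient_add_finrank L
    omega
  obtain ⟨X, hX⟩ := exists_rz (iff_of_le hxL)
  set E : V →ₗ[F] (V ⧸ L) := L.mkQ ∘ₗ ((x : V →ₗ[F] V) - LinearMap.id) with hE
  have hEa : ∀ v, E v = L.mkQ (x v) - L.mkQ v := fun v => by rw [← map_sub]; rfl
  have hXE : ∀ v, X (L.mkQ v) = L.mkQ v + E v := fun v => by rw [hX, hEa]; abel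
  have hker : U ≤ LinearMap.ker E := by
    intro u hu
    rw [LinearMap.mem_ker, hEa, ← map_sub, mk_zero]
    exact hUx u hu
  have h1 := LinearMap.finrank_range_add_finrank_ker E
  have h2 := Submodule.finrank_mono hker
  have h3 : finrank F (LinearMap.range E) ≤ 1 := by omega
  have hE0 : E ≠ 0 := by
    intro h
    obtain ⟨v, hv⟩ := hns 1
    apply hv
    apply quot_scalar hR hd hL hx
    intro y
    rw [one_smul, ← mk_zero, map_sub, ← hEa, h]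
    rfl
  obtain ⟨c, hc, hcE⟩ : ∃ c : V ⧸ L, c ≠ 0 ∧ ∀ v, ∃ k : F, E v = k • c := by
    obtain ⟨v0, hv0⟩ : ∃ v, E v ≠ 0 := by
      by_contra h
      push Not at h
      exact hE0 (LinearMap.ext h)
    refine ⟨E v0, hv0, fun v => ?_⟩
    have hle : Submodule.span F {E v0} ≤ LinearMap.range E := by
      rw [Submodule.span_singleton_le_iff_mem]
      exact ⟨v0, rfl⟩
    have heq := Submodule.eq_of_le_of_finrank_le hle (by rw [finrank_span_singleton hv0]; exact h3)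
    have : E v ∈ Submodule.span F {E v0} := by rw [heq]; exact ⟨v, rfl⟩
    obtain ⟨k, hk⟩ := Submodule.mem_span_singleton.1 this
    exact ⟨k, hk.symm⟩
  obtain ⟨φ, hφ⟩ : ∃ φ : Dual F (V ⧸ L), φ c = 1 := by
    by_contra hcon
    push Not at hcon
    apply hc
    rw [← Module.forall_dual_apply_eq_zero_iff F c]
    intro φ
    by_contra h
    apply hcon ((φ c)⁻¹ • φ)
    rw [LinearMap.smul_apply, smul_eq_mul, inv_mul_cancel₀ h]
  set f : Dual F (V ⧸ L) := φ ∘ₗ ((X : (V ⧸ L) →ₗ[F] (V ⧸ L)) - LinearMap.id) with hfdef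
  have hfa : ∀ u, f u = φ (X u - u) := fun u => rfl
  have hXf : ∀ u, X u = u + f u • c := by
    intro u
    obtain ⟨v, rfl⟩ := L.mkQ_surjective u
    obtain ⟨k, hk⟩ := hcE v
    rw [hfa, hXE, add_sub_cancel_left, hk, map_smul, hφ, smul_eq_mul, mul_one]
  have hf : f ≠ 0 := by
    intro h
    apply hE0
    ext v
    have h4 := hXf (L.mkQ v)
    rw [hXE, h, LinearMap.zero_apply, zero_smul] at h4
    rw [LinearMap.zero_apply]
    exact add_left_cancel h4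
  set t := f c + 1 with ht
  have hfc : f c = t - 1 := by rw [ht, add_sub_cancel_right]
  have hXc : X c = t • c := by
    rw [hXf, ht, add_smul, one_smul, add_comm]
  have ht0 : t ≠ 0 := by
    intro h
    rw [h, zero_smul] at hXc
    exact hc (X.map_eq_zero_iff.1 hXc)
  have ht1 : t + 1 ≠ 0 := by
    intro h
    have h4 : ∀ u, X (X u) = u := by
      intro u
      have : X (X u) = u + (f u * (t + 1)) • c := by
        conv_lhs => rw [hXf u]
        rw [map_add, map_smul, hXc, hXf u]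
        module
      rw [this, h, mul_zero, zero_smul, add_zero]
    have h5 : ∀ y, (x * x) y = (1 : F) • y := by
      apply quot_scalar hR hd hL (G.mul_mem hx hx)
      intro y
      have := h4 (L.mkQ y)
      rw [hX, hX, mk_eq] at this
      rw [one_smul, apply_mul]
      exact this
    obtain ⟨μ, hμ⟩ := sq_scalar hR hd hx (d := 1) (fun y => by
      rw [mul_one, ← apply_mul]
      exact h5 y)
    obtain ⟨v, hv⟩ := hns μ
    exact hv (hμ v)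
  have S := sys_of hR hd hG hL hx hxL hX ht0 ht1 hfc hc hf hXf
  obtain ⟨u, hu, hmono⟩ := S.monomial hq3
  refine no_mono hR hd hG hL hu ?_
  intro n hn
  obtain ⟨γ, hγ⟩ := exists_rz (Q1_iff hn)
  obtain ⟨σ, hσ⟩ := hmono γ ⟨n, Q1_le_HW hxL hn, hγ⟩
  exact ⟨γ, ⟨σ, trivial, hσ⟩, hγ⟩

/-- Nonidentity elements fixing a line pointwise have no eigenvector modulo the line. -/
theorem no_eig [Infinite F] [FiniteDimensional F V] (hR : R3 G) (hd : finrank F V = 5)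
    (hG : TwoTrans G) {L : Submodule F V} (hL : finrank F L = 2) {x : V ≃ₗ[F] V}
    (hx : x ∈ Q1 G L) (hx1 : x ≠ 1) {z : V} (hz : z ∉ L) {μ : F} (hxz : x z - μ • z ∈ L) :
    False := by
  obtain ⟨U, hLU, hU, hxU⟩ := exists_U4 hd hL hx hz hxz
  exact no_U4 hR hd hG hL hx hx1 hLU hU hxU

/-- There is no two-transitive group satisfying `R3` when cubics have roots. -/
theorem no_R3 [Infinite F] (hF : ∀ p : Polynomial F, p.natDegree = 3 → ∃ a, p.IsRoot a)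
    [FiniteDimensional F V] (hR : R3 G) (hd : finrank F V = 5) (hG : TwoTrans G) : False := by
  obtain ⟨L, hL⟩ : ∃ L : Submodule F V, finrank F L = 2 := by
    have hnt : Nontrivial V := by
      rw [← Module.finrank_pos_iff (R := F)]
      omega
    obtain ⟨v, hv⟩ := exists_ne (0 : V)
    obtain ⟨w, hw⟩ := exists_linearIndependent_pair_of_one_lt_finrank (R := F) (M := V)
      (by omega) hv
    exact ⟨_, finrank_pair hw⟩
  have hq3 : finrank F (V ⧸ L) = 3 := by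
    have := Submodule.finrank_quotient_add_finrank L
    omega
  obtain ⟨x, hx, hx1⟩ := Q1_ne hR hd hG hL
  obtain ⟨X, hX⟩ := exists_rz (Q1_iff hx)
  obtain ⟨μ, hμ⟩ := hF (LinearMap.charpoly (X : (V ⧸ L) →ₗ[F] (V ⧸ L)))
    (by rw [LinearMap.charpoly_natDegree, hq3])
  have h1 := (Module.End.hasEigenvalue_iff_isRoot_charpoly _ _).2 hμ
  obtain ⟨u, hu⟩ := h1.exists_hasEigenvector
  obtain ⟨z, rfl⟩ := L.mkQ_surjective u
  refine no_eig hR hd hG hL hx hx1 (z := z) (μ := μ) (fun h => hu.2 ((mk_zero z).2 h)) ?_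
  have h2 := hu.apply_eq_smul
  rw [← mk_eq, map_smul, ← h2]
  exact (hX z).symm

end Pool.Agent.H95.D4
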