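import Pool.Agent.H95.D4.Basic

/-!
# A group inducing all transvections on a line fixes no hyperplane containing it
-/

namespace Pool.Agent.H95.D4

open Module Pool.Agent.H20.ProjTwoTrans Pool.Agent.H95.DT Matrix
open scoped commutatorElement

variable {F V : Type*} [Field F] [AddCommGroup V] [Module F V]
variable {G : Subgroup (V ≃ₗ[F] V)}

/-! ### two-by-two matrices -/

lemma det_sub_one (M : Matrix (Fin 2) (Fin 2) F) : (M - 1).det = M.det - M.trace + 1 := by
  rw [Matrix.det_fin_two, Matrix.det_fin_two, Matrix.trace_fin_two]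
  simp
  ring

/-- Two nilpotent matrices with orthogonal traces have the same kernel. -/
lemma nil_ker {n n' : Matrix (Fin 2) (Fin 2) F} (hn : n.det = 0) (htn : n.trace = 0) (h0 : n ≠ 0)
    (hn' : n'.det = 0) (htn' : n'.trace = 0) (htt : (n * n').trace = 0) {a : Fin 2 → F}
    (ha : n *ᵥ a = 0) (ha0 : a ≠ 0) : n' *ᵥ a = 0 := by
  obtain ⟨p, q, r, s, rfl⟩ : ∃ a b c d, n = !![a, b; c, d] := ⟨_, _, _, _, eta2 n⟩
  obtain ⟨p', q', r', s', rfl⟩ : ∃ a b c d, n' = !![a, b; c, d] := ⟨_, _, _, _, eta2 n'⟩
  rw [Matrix.det_fin_two] at hn hn'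
  rw [Matrix.trace_fin_two] at htn htn' htt
  simp [Matrix.mul_apply, Fin.sum_univ_two] at hn hn' htn htn' htt
  have e0 := congrFun ha 0
  have e1 := congrFun ha 1
  simp [Matrix.mulVec, dotProduct, Fin.sum_univ_two] at e0 e1
  have hs : s = -p := by linear_combination htn
  have hs' : s' = -p' := by linear_combination htn'
  subst hs hs'
  have key : a 1 * (p' * a 0 + q' * a 1) = a 0 * (r' * a 0 - p' * a 1) := by
    by_cases h : a 0 = 0
    · have h1 : a 1 ≠ 0 := by
        intro h1
        apply ha0
        ext i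
        rcases two_cases i with rfl | rfl
        · exact h
        · exact h1
      rw [h] at e0 e1
      have hq : q = 0 := by
        have : q * a 1 = 0 := by linear_combination e0
        exact (mul_eq_zero.1 this).resolve_right h1
      have hp : p = 0 := by
        have : p * a 1 = 0 := by linear_combination -e1
        exact (mul_eq_zero.1 this).resolve_right h1
      have hr : r ≠ 0 := by
        rintro rfl
        apply h0
        ext i j
        rcases two_cases i with rfl | rfl <;> rcases two_cases j with rfl | rfl <;> simp [hp, hq]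
      rw [hp, hq] at htt
      have hq' : q' = 0 := by
        have : r * q' = 0 := by linear_combination htt
        exact (mul_eq_zero.1 this).resolve_left hr
      rw [h, hq']; ring
    · have hq : q ≠ 0 := by
        rintro rfl
        have hp : p = 0 := by
          have : p * a 0 = 0 := by linear_combination e0
          exact (mul_eq_zero.1 this).resolve_right h
        have hr : r = 0 := by
          have : r * a 0 = 0 := by linear_combination e1 + a 1 * hp
          exact (mul_eq_zero.1 this).resolve_right h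
        apply h0
        ext i j
        rcases two_cases i with rfl | rfl <;> rcases two_cases j with rfl | rfl <;> simp [hp, hr]
      have e2 : q * (a 1 * (p' * a 0 + q' * a 1) - a 0 * (r' * a 0 - p' * a 1)) = 0 := by
        linear_combination (2 * p' * a 0 + q' * a 1) * e0 + q' * a 0 * e1 - a 0 ^ 2 * htt
      exact sub_eq_zero.1 ((mul_eq_zero.1 e2).resolve_left hq)
  set X := p' * a 0 + q' * a 1 with hX
  set Y := r' * a 0 - p' * a 1 with hY
  have f1 : p' * X + q' * Y = 0 := by rw [hX, hY]; linear_combination (-a 0) * hn'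
  have f2 : r' * X - p' * Y = 0 := by rw [hX, hY]; linear_combination (-a 1) * hn'
  have hXY : X = 0 ∧ Y = 0 := by
    by_cases h : a 0 = 0
    · have h1 : a 1 ≠ 0 := by
        intro h1
        apply ha0
        ext i
        rcases two_cases i with rfl | rfl
        · exact h
        · exact h1
      rw [h, zero_mul] at key
      have hX0 := (mul_eq_zero.1 key).resolve_left h1
      refine ⟨hX0, ?_⟩
      have : Y * Y = 0 := by
        have e : Y = -(p' * a 1) := by rw [hY, h]; ring
        have : a 1 * (p' * Y) = 0 := by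
          rw [hX0] at f2
          linear_combination (-a 1) * f2
        calc Y * Y = -(a 1 * (p' * Y)) := by nth_rewrite 1 [e]; ring
          _ = 0 := by rw [this, neg_zero]
      exact mul_self_eq_zero.1 this
    · have hX0 : X = 0 := by
        have : X * X = 0 := by
          have e3 : a 0 * (p' * X + q' * Y) = X * X := by
            have : a 0 * (p' * X + q' * Y) = p' * a 0 * X + q' * (a 0 * Y) := by ring
            rw [this, ← key, hX]; ring
          rw [← e3, f1, mul_zero]
        exact mul_self_eq_zero.1 this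
      refine ⟨hX0, ?_⟩
      rw [hX0, mul_zero] at key
      exact (mul_eq_zero.1 key.symm).resolve_left h
  ext i
  rcases two_cases i with rfl | rfl
  · simp [Matrix.mulVec, dotProduct, Fin.sum_univ_two]
    exact hXY.1
  · simp [Matrix.mulVec, dotProduct, Fin.sum_univ_two]
    have := hXY.2
    rw [hY] at this
    linear_combination this

/-! ### coordinates -/

/-- coordinates on a hyperplane modulo a line -/
structure Crd (L W : Submodule F V) (a b : V) (α β : Dual F V) : Prop where
  a_mem : a ∈ W
  b_mem : b ∈ W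
  αa : α a = 1
  αb : α b = 0
  βa : β a = 0
  βb : β b = 1
  αL : ∀ x ∈ L, α x = 0
  βL : ∀ x ∈ L, β x = 0
  mem : ∀ x ∈ W, x - (α x • a + β x • b) ∈ L

lemma exists_crd [FiniteDimensional F V] {L W : Submodule F V} (hL : finrank F L = 2)
    (hW : finrank F W = 4) (hLW : L ≤ W) : ∃ a b α β, Crd L W a b α β := by
  obtain ⟨a, haW, haL⟩ : ∃ a ∈ W, a ∉ L := SetLike.not_le_iff_exists.1 (fun h => by
    have := Submodule.finrank_mono h
    omega)
  have hP := Submodule.finrank_sup_span_singleton haL
  obtain ⟨b, hbW, hbP⟩ : ∃ b ∈ W, b ∉ L ⊔ Submodule.span F {a} :=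
    SetLike.not_le_iff_exists.1 (fun h => by
      have := Submodule.finrank_mono h
      omega)
  have hQ := Submodule.finrank_sup_span_singleton hbP
  have hsup : L ⊔ Submodule.span F {a} ⊔ Submodule.span F {b} = W := by
    apply Submodule.eq_of_le_of_finrank_eq
    · refine sup_le (sup_le hLW ?_) ?_
      · rw [Submodule.span_singleton_le_iff_mem]; exact haW
      · rw [Submodule.span_singleton_le_iff_mem]; exact hbW
    · omega
  have haQ : a ∉ L ⊔ Submodule.span F {b} := by
    intro h
    obtain ⟨y, hy, z, hz, hyz⟩ := Submodule.mem_sup.1 h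
    obtain ⟨c, rfl⟩ := Submodule.mem_span_singleton.1 hz
    have hc : c ≠ 0 := by
      rintro rfl
      apply haL
      rw [← hyz, zero_smul, add_zero]
      exact hy
    apply hbP
    have : b = c⁻¹ • (a - y) := by
      rw [← hyz, add_sub_cancel_left, smul_smul, inv_mul_cancel₀ hc, one_smul]
    rw [this]
    exact Submodule.smul_mem _ _ (Submodule.sub_mem _
      (Submodule.mem_sup_right (Submodule.mem_span_singleton_self a))
      (Submodule.mem_sup_left hy))
  obtain ⟨φ, hφ, hφQ⟩ := Submodule.exists_le_ker_of_notMem haQ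
  obtain ⟨ψ, hψ, hψP⟩ := Submodule.exists_le_ker_of_notMem hbP
  have φL : ∀ x ∈ L, φ x = 0 := fun x hx => hφQ (Submodule.mem_sup_left hx)
  have ψL : ∀ x ∈ L, ψ x = 0 := fun x hx => hψP (Submodule.mem_sup_left hx)
  have φb : φ b = 0 := hφQ (Submodule.mem_sup_right (Submodule.mem_span_singleton_self b))
  have ψa : ψ a = 0 := hψP (Submodule.mem_sup_right (Submodule.mem_span_singleton_self a))
  refine ⟨a, b, (φ a)⁻¹ • φ, (ψ b)⁻¹ • ψ, haW, hbW, ?_, ?_, ?_, ?_, ?_, ?_, ?_⟩
  · rw [LinearMap.smul_apply, smul_eq_mul, inv_mul_cancel₀ hφ]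
  · rw [LinearMap.smul_apply, φb, smul_zero]
  · rw [LinearMap.smul_apply, ψa, smul_zero]
  · rw [LinearMap.smul_apply, smul_eq_mul, inv_mul_cancel₀ hψ]
  · intro x hx
    rw [LinearMap.smul_apply, φL x hx, smul_zero]
  · intro x hx
    rw [LinearMap.smul_apply, ψL x hx, smul_zero]
  · intro x hx
    rw [← hsup] at hx
    obtain ⟨y, hy, z, hz, rfl⟩ := Submodule.mem_sup.1 hx
    obtain ⟨l, hl, u, hu, rfl⟩ := Submodule.mem_sup.1 hy
    obtain ⟨c, rfl⟩ := Submodule.mem_span_singleton.1 hu
    obtain ⟨d, rfl⟩ := Submodule.mem_span_singleton.1 hz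
    have e1 : ((φ a)⁻¹ • φ) (l + c • a + d • b) = c := by
      rw [LinearMap.smul_apply, map_add, map_add, map_smul, map_smul, φL l hl, φb, smul_zero,
        zero_add, add_zero, smul_eq_mul, smul_eq_mul]
      field_simp
    have e2 : ((ψ b)⁻¹ • ψ) (l + c • a + d • b) = d := by
      rw [LinearMap.smul_apply, map_add, map_add, map_smul, map_smul, ψL l hl, ψa, smul_zero,
        zero_add, zero_add, smul_eq_mul, smul_eq_mul]
      field_simp
    rw [e1, e2]
    have : l + c • a + d • b - (c • a + d • b) = l := by abel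
    rw [this]
    exact hl

/-- the matrix of an element on the quotient -/
def Dm (a b : V) (α β : Dual F V) (g : V ≃ₗ[F] V) : Matrix (Fin 2) (Fin 2) F :=
  !![α (g a), α (g b); β (g a), β (g b)]

variable {L W : Submodule F V} {a b : V} {α β : Dual F V}

lemma Crd.mul (C : Crd L W a b α β) {g h : V ≃ₗ[F] V} (hg : ∀ x, g x ∈ L ↔ x ∈ L)
    (hh : ∀ x ∈ W, h x ∈ W) : Dm a b α β (g * h) = Dm a b α β g * Dm a b α β h := by
  have key : ∀ x ∈ W, ∀ γ : Dual F V, (∀ y ∈ L, γ y = 0) →
      γ (g (h x)) = γ (g a) * α (h x) + γ (g b) * β (h x) := by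
    intro x hx γ hγ
    have h1 := (hg _).2 (C.mem (h x) (hh x hx))
    have h2 := hγ _ h1
    rw [map_sub, map_sub, map_add, map_smul, map_smul, map_add, map_smul, map_smul,
      smul_eq_mul, smul_eq_mul] at h2
    linear_combination h2
  unfold Dm
  ext i j
  rcases two_cases i with rfl | rfl <;> rcases two_cases j with rfl | rfl <;>
    simp only [Matrix.mul_apply, Fin.sum_univ_two, apply_mul, Matrix.of_apply, Matrix.cons_val',
      Matrix.cons_val_zero, Matrix.cons_val_one, Matrix.cons_val_fin_one]
  · exact key a C.a_mem α C.αL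
  · exact key b C.b_mem α C.αL
  · exact key a C.a_mem β C.βL
  · exact key b C.b_mem β C.βL

lemma Crd.one (C : Crd L W a b α β) : Dm a b α β 1 = 1 := by
  unfold Dm
  simp only [one_apply, C.αa, C.αb, C.βa, C.βb]
  ext i j
  rcases two_cases i with rfl | rfl <;> rcases two_cases j with rfl | rfl <;> simp

/-- membership in `L` is detected by the coordinates -/
lemma Crd.mem_iff (C : Crd L W a b α β) {x : V} (hx : x ∈ W) :
    x ∈ L ↔ α x = 0 ∧ β x = 0 := by
  constructor
  · intro h
    exact ⟨C.αL x h, C.βL x h⟩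
  · rintro ⟨h1, h2⟩
    have := C.mem x hx
    rwa [h1, h2, zero_smul, zero_smul, add_zero, sub_zero] at this

/-- the coordinates of an image -/
lemma Crd.act (C : Crd L W a b α β) {g : V ≃ₗ[F] V} (hg : ∀ x, g x ∈ L ↔ x ∈ L) {x : V}
    (hx : x ∈ W) : ![α (g x), β (g x)] = Dm a b α β g *ᵥ ![α x, β x] := by
  have key : ∀ γ : Dual F V, (∀ y ∈ L, γ y = 0) →
      γ (g x) = γ (g a) * α x + γ (g b) * β x := by
    intro γ hγ
    have h1 := (hg _).2 (C.mem x hx)
    have h2 := hγ _ h1
    rw [map_sub, map_sub, map_add, map_smul, map_smul, map_add, map_smul, map_smul,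
      smul_eq_mul, smul_eq_mul] at h2
    linear_combination h2
  unfold Dm
  ext i
  rcases two_cases i with rfl | rfl
  · simp [Matrix.mulVec, dotProduct, Fin.sum_univ_two]
    exact key α C.αL
  · simp [Matrix.mulVec, dotProduct, Fin.sum_univ_two]
    exact key β C.βL

end Pool.Agent.H95.D4
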