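import Pool.Agent.H95.D4.Hyper

/-!
# A group inducing all transvections on a line fixes no hyperplane containing it (second part)
-/

namespace Pool.Agent.H95.D4

open Module Pool.Agent.H20.ProjTwoTrans Pool.Agent.H95.DT Matrix
open scoped commutatorElement

variable {F V : Type*} [Field F] [AddCommGroup V] [Module F V]
variable {G : Subgroup (V ≃ₗ[F] V)}
variable {L W : Submodule F V} {a b : V} {α β : Dual F V}

/-- no element is `-1` on a line and trivial on some plane modulo the line -/
lemma neg_fix [FiniteDimensional F V] (hR : R3 G) (hd : finrank F V = 5)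
    (hL : finrank F L = 2) (h2 : (2 : F) ≠ 0) {k : V ≃ₗ[F] V} (hk : k ∈ G)
    (hkL : ∀ x ∈ L, k x = -x) {t : V} (ht : t ∉ L) (hkt : k t - t ∈ L) : False := by
  obtain ⟨l, hl, hkt⟩ : ∃ l ∈ L, k t = t + l := ⟨k t - t, hkt, by abel⟩
  obtain ⟨v, hv, w, hw, hind⟩ := exists_pair hL
  have hv0 : v ≠ 0 := hind.ne_zero 0
  set t' := t + (2 : F)⁻¹ • l with ht'
  have hkt' : k t' = t' := by
    rw [ht', map_add, map_smul, hkt, hkL l hl]
    have : t + l + (2 : F)⁻¹ • -l = t + (1 - (2 : F)⁻¹) • l := by module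
    rw [this]
    have e : 1 - (2 : F)⁻¹ = (2 : F)⁻¹ := by field_simp; ring
    rw [e]
  have ht'L : t' ∉ L := by
    intro h
    apply ht
    have := L.sub_mem h (L.smul_mem (2 : F)⁻¹ hl)
    rwa [ht', add_sub_cancel_right] at this
  have h5 : k * k = 1 := by
    apply fix3 hR hL (G.mul_mem hk hk) (v := t')
    · intro x hx
      rw [apply_mul, hkL x hx, map_neg, hkL x hx, neg_neg]
    · exact ht'L
    · rw [apply_mul, hkt', hkt']
  have h6 : k = 1 := by
    apply sq_one hR hd hk (v := t')
    · intro x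
      rw [← apply_mul, h5]; rfl
    · intro h
      exact ht'L (by rw [h]; exact L.zero_mem)
    · exact hkt'
  have h7 := hkL v hv
  rw [h6, one_apply] at h7
  have h8 : (2 : F) • v = 0 := by
    rw [two_smul]
    nth_rewrite 1 [h7]
    exact neg_add_cancel v
  rcases smul_eq_zero.1 h8 with h | h
  · exact h2 h
  · exact hv0 h

/-- in characteristic two no element is a transvection on a line and trivial on some plane modulo
the line -/
lemma unip_fix [FiniteDimensional F V] (hR : R3 G) (hd : finrank F V = 5)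
    (hL : finrank F L = 2) (h2 : (2 : F) = 0) {k : V ≃ₗ[F] V} (hk : k ∈ G)
    {v w : V} (hv : v ∈ L) (hw : w ∈ L) (hind : LinearIndependent F ![v, w])
    (hkv : k v = v) (hkw : k w = w + (1 : F) • v) {t : V} (ht : t ∉ L) (hkt : k t - t ∈ L) :
    False := by
  obtain ⟨l, hl, hkt⟩ : ∃ l ∈ L, k t = t + l := ⟨k t - t, hkt, by abel⟩
  have hv0 : v ≠ 0 := hind.ne_zero 0
  have e2 : ∀ x : V, x + x = 0 := by
    intro x
    rw [← two_smul F, h2, zero_smul]
  have hk1 : ∀ x ∈ L, k x ∈ L := by
    intro x hx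
    obtain ⟨a, b, rfl⟩ := exists_comb hL hv hw hind hx
    simp only [map_add, map_smul, hkv, hkw]
    exact L.add_mem (L.smul_mem _ hv) (L.smul_mem _ (L.add_mem hw (L.smul_mem _ hv)))
  have hkL : ∀ x ∈ L, k (k x) = x := by
    intro x hx
    obtain ⟨a, b, rfl⟩ := exists_comb hL hv hw hind hx
    simp only [map_add, map_smul, hkv, hkw]
    have : a • v + b • (w + (1 : F) • v + (1 : F) • v) = a • v + b • w + (2 * b) • v := by
      module
    rw [this, h2, zero_mul, zero_smul, add_zero]
  have hkl : k l ∈ L := hk1 l hl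
  have h4t : k (k (k (k t))) = t := by
    have h3 : k (k t) = t + (l + k l) := by rw [hkt, map_add, hkt]; abel
    have h4 : k (k (t + (l + k l))) = t + (l + k l) + (l + k l) := by
      rw [map_add, map_add, h3, hkL _ (L.add_mem hl hkl)]
    rw [h3, h4, add_assoc, e2, add_zero]
  have h4 : (k * k) * (k * k) = 1 := by
    apply fix3 hR hL (G.mul_mem (G.mul_mem hk hk) (G.mul_mem hk hk)) (v := t)
    · intro x hx
      rw [apply_mul, apply_mul, apply_mul, hkL x hx, hkL x hx]
    · exact ht
    · exact h4t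
  have h5 : k * k = 1 := by
    apply sq_one hR hd (G.mul_mem hk hk) (v := v)
    · intro x
      rw [← apply_mul, h4]; rfl
    · exact hv0
    · rw [apply_mul, hkv, hkv]
  have h6 : k = 1 := by
    apply sq_one hR hd hk (v := v)
    · intro x
      rw [← apply_mul, h5]; rfl
    · exact hv0
    · exact hkv
  rw [h6, one_apply, one_smul] at hkw
  exact hv0 (by simpa using hkw.symm)

/-- solving for a fixed vector modulo the line -/
lemma Crd.exists_fix (C : Crd L W a b α β) (hLW : L ≤ W) {k : V ≃ₗ[F] V}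
    (hk : ∀ x, k x ∈ L ↔ x ∈ L)
    (hkW : ∀ x ∈ W, k x ∈ W) (hdet : (Dm a b α β k).det = 1) (htr : (Dm a b α β k).trace ≠ 2)
    {t : V} (ht : t ∉ W) (hkt : k t - t ∈ W) : ∃ t', t' ∉ L ∧ k t' - t' ∈ L := by
  set D := Dm a b α β k with hD
  have hdet' : (D - 1).det ≠ 0 := by
    rw [det_sub_one, hdet]
    intro h
    apply htr
    linear_combination -h
  have hu : IsUnit (D - 1).det := isUnit_iff_ne_zero.2 hdet'
  set u := (D - 1)⁻¹ *ᵥ ![-α (k t - t), -β (k t - t)] with hudef
  have hu1 : (D - 1) *ᵥ u = ![-α (k t - t), -β (k t - t)] := by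
    rw [hudef, Matrix.mulVec_mulVec, Matrix.mul_nonsing_inv _ hu, Matrix.one_mulVec]
  set w := u 0 • a + u 1 • b with hw
  have hwW : w ∈ W := W.add_mem (W.smul_mem _ C.a_mem) (W.smul_mem _ C.b_mem)
  have hαw : α w = u 0 := by
    rw [hw, map_add, map_smul, map_smul, C.αa, C.αb]; simp
  have hβw : β w = u 1 := by
    rw [hw, map_add, map_smul, map_smul, C.βa, C.βb]; simp
  have hact := C.act hk hwW
  rw [← hD, hαw, hβw] at hact
  have hu2 : ![u 0, u 1] = u := by
    ext i
    rcases two_cases i with rfl | rfl <;> rfl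
  rw [hu2] at hact
  rw [Matrix.sub_mulVec, Matrix.one_mulVec, ← hact] at hu1
  refine ⟨t + w, ?_, ?_⟩
  · intro h
    apply ht
    have := W.sub_mem (hLW h) hwW
    rwa [add_sub_cancel_right] at this
  · have e : k (t + w) - (t + w) = (k t - t) + (k w - w) := by
      rw [map_add]; abel
    have hmem : k (t + w) - (t + w) ∈ W := by
      rw [e]
      exact W.add_mem hkt (W.sub_mem (hkW w hwW) hwW)
    rw [C.mem_iff hmem, e]
    have f0 := congrFun hu1 0
    have f1 := congrFun hu1 1
    simp at f0 f1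
    rw [map_add α, map_add β, map_sub α (k w), map_sub β (k w), hαw, hβw, map_sub α (k t),
      map_sub β (k t)]
    constructor
    · linear_combination f0
    · linear_combination f1

lemma ker_dim1 {n : Matrix (Fin 2) (Fin 2) F} (h0 : n ≠ 0) {u u' : Fin 2 → F}
    (hu : n *ᵥ u = 0) (hu' : n *ᵥ u' = 0) (hu0 : u ≠ 0) : ∃ c : F, u' = c • u := by
  obtain ⟨p, q, r, s, rfl⟩ : ∃ a b c d, n = !![a, b; c, d] := ⟨_, _, _, _, eta2 n⟩
  have e0 := congrFun hu 0
  have e1 := congrFun hu 1
  have f0 := congrFun hu' 0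
  have f1 := congrFun hu' 1
  simp [Matrix.mulVec, dotProduct, Fin.sum_univ_two] at e0 e1 f0 f1
  have hdet : u 0 * u' 1 - u 1 * u' 0 = 0 := by
    by_contra hne
    apply h0
    have a1 : p = 0 := by
      have : p * (u 0 * u' 1 - u 1 * u' 0) = 0 := by linear_combination u' 1 * e0 - u 1 * f0
      exact (mul_eq_zero.1 this).resolve_right hne
    have a2 : q = 0 := by
      have : q * (u 0 * u' 1 - u 1 * u' 0) = 0 := by linear_combination u 0 * f0 - u' 0 * e0
      exact (mul_eq_zero.1 this).resolve_right hne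
    have a3 : r = 0 := by
      have : r * (u 0 * u' 1 - u 1 * u' 0) = 0 := by linear_combination u' 1 * e1 - u 1 * f1
      exact (mul_eq_zero.1 this).resolve_right hne
    have a4 : s = 0 := by
      have : s * (u 0 * u' 1 - u 1 * u' 0) = 0 := by linear_combination u 0 * f1 - u' 0 * e1
      exact (mul_eq_zero.1 this).resolve_right hne
    ext i j
    rcases two_cases i with rfl | rfl <;> rcases two_cases j with rfl | rfl <;>
      simp [a1, a2, a3, a4]
  by_cases h : u 0 = 0
  · have h1 : u 1 ≠ 0 := by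
      intro h1
      apply hu0
      ext i
      rcases two_cases i with rfl | rfl
      · exact h
      · exact h1
    refine ⟨u' 1 / u 1, ?_⟩
    ext i
    rcases two_cases i with rfl | rfl
    · simp only [Pi.smul_apply, smul_eq_mul, h, mul_zero]
      rw [h, zero_mul, zero_sub, neg_eq_zero] at hdet
      exact (mul_eq_zero.1 hdet).resolve_left h1
    · simp only [Pi.smul_apply, smul_eq_mul]
      field_simp
  · refine ⟨u' 0 / u 0, ?_⟩
    ext i
    rcases two_cases i with rfl | rfl
    · simp only [Pi.smul_apply, smul_eq_mul]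
      field_simp
    · simp only [Pi.smul_apply, smul_eq_mul]
      field_simp
      linear_combination hdet

/-- A group inducing all transvections on a line fixes no hyperplane containing it. -/
theorem no_hyper [Infinite F] [FiniteDimensional F V] (hR : R3 G) (hd : finrank F V = 5)
    (hL : finrank F L = 2) {H : Subgroup (V ≃ₗ[F] V)} (hHG : H ≤ G)
    (hH : Big H L) (hW : finrank F W = 4) (hLW : L ≤ W)
    (hHW : ∀ h ∈ H, ∀ x ∈ W, h x ∈ W) : False := by
  obtain ⟨a, b, α, β, C⟩ := exists_crd hL hW hLW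
  have hWi : ∀ h ∈ H, ∀ x, h x ∈ W ↔ x ∈ W := fun h hh => iff_of_le (hHW h hh)
  obtain ⟨t, htW⟩ : ∃ t, t ∉ W := by
    by_contra hcon
    push Not at hcon
    have : W = ⊤ := eq_top_iff.2 fun x _ => hcon x
    rw [this, finrank_top] at hW
    omega
  have htL : t ∉ L := fun h => htW (hLW h)
  have hsup : W ⊔ Submodule.span F {t} = ⊤ := by
    apply Submodule.eq_top_of_finrank_eq
    rw [Submodule.finrank_sup_span_singleton htW, hW, hd]
  have hB : ∀ h ∈ H, ∃ c : F, h t - c • t ∈ W := by
    intro h hh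
    have h2 : h t ∈ W ⊔ Submodule.span F {t} := by rw [hsup]; trivial
    obtain ⟨y, hy, z, hz, hyz⟩ := Submodule.mem_sup.1 h2
    obtain ⟨c, rfl⟩ := Submodule.mem_span_singleton.1 hz
    exact ⟨c, by rw [← hyz, add_sub_cancel_right]; exact hy⟩
  have hK := comm_quot htW hWi hB
  have hKB := hH.comm
  have hKH : ⁅H, H⁆ ≤ H := comm_le H
  have hKG : ⁅H, H⁆ ≤ G := hKH.trans hHG
  set D := Dm a b α β with hDdef
  have hmul : ∀ g ∈ H, ∀ h ∈ H, D (g * h) = D g * D h := fun g hg h hh =>
    C.mul (hH.1 g hg) (hHW h hh)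
  have hinv : ∀ g ∈ H, D g * D g⁻¹ = 1 := by
    intro g hg
    rw [← hmul g hg _ (H.inv_mem hg), mul_inv_cancel]
    exact C.one
  have hinv' : ∀ g ∈ H, D g⁻¹ * D g = 1 := by
    intro g hg
    rw [← hmul _ (H.inv_mem hg) g hg, inv_mul_cancel]
    exact C.one
  have hdetne : ∀ g ∈ H, (D g).det ≠ 0 := by
    intro g hg h0
    have := congrArg Matrix.det (hinv g hg)
    rw [Matrix.det_mul, h0, zero_mul, Matrix.det_one] at this
    exact zero_ne_one this
  -- determinant one
  have hdet : ∀ k ∈ ⁅H, H⁆, (D k).det = 1 := by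
    let M : Subgroup (V ≃ₗ[F] V) :=
      { carrier := {g | g ∈ H ∧ (D g).det = 1}
        mul_mem' := by
          rintro x y ⟨hx, hx'⟩ ⟨hy, hy'⟩
          refine ⟨H.mul_mem hx hy, ?_⟩
          rw [hmul x hx y hy, Matrix.det_mul, hx', hy', one_mul]
        one_mem' := ⟨H.one_mem, by rw [hDdef, C.one, Matrix.det_one]⟩
        inv_mem' := by
          rintro x ⟨hx, hx'⟩
          refine ⟨H.inv_mem hx, ?_⟩
          have := congrArg Matrix.det (hinv x hx)
          rwa [Matrix.det_mul, hx', one_mul, Matrix.det_one] at this }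
    have hle : ⁅H, H⁆ ≤ M := by
      rw [Subgroup.commutator_le]
      intro x hx y hy
      have hgH : ⁅x, y⁆ ∈ H := hKH (Subgroup.commutator_mem_commutator hx hy)
      refine ⟨hgH, ?_⟩
      have h1 : ⁅x, y⁆ * (y * x) = x * y := by rw [commutatorElement_def]; group
      have h2 : (D (⁅x, y⁆ * (y * x))).det = (D (x * y)).det := by rw [h1]
      rw [hmul _ hgH _ (H.mul_mem hy hx), hmul y hy x hx, hmul x hx y hy, Matrix.det_mul,
        Matrix.det_mul, Matrix.det_mul] at h2
      have h3 : (D y).det * (D x).det ≠ 0 := mul_ne_zero (hdetne y hy) (hdetne x hx)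
      have h4 : ((D ⁅x, y⁆).det - 1) * ((D y).det * (D x).det) = 0 := by
        linear_combination h2
      exact sub_eq_zero.1 ((mul_eq_zero.1 h4).resolve_right h3)
    exact fun k hk => (hle hk).2
  obtain ⟨v, hv, w, hw, hind⟩ := exists_pair hL
  have hv0 : v ≠ 0 := hind.ne_zero 0
  by_cases h2 : (2 : F) = 0
  · -- characteristic two
    obtain ⟨k, hk, hkv, hkw⟩ := hKB.2 v hv w hw hind 1
    have htr : (D k).trace = 2 := by
      by_contra htr
      obtain ⟨t', ht', hkt'⟩ := C.exists_fix hLW (hKB.1 k hk) (hHW k (hKH hk)) (hdet k hk) htr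
        htW (hK k hk)
      exact unip_fix hR hd hL h2 (hKG hk) hv hw hind hkv hkw ht' hkt'
    have e2 : ∀ x : V, x + x = 0 := by
      intro x
      rw [← two_smul F, h2, zero_smul]
    set m := k * k with hm
    have hmK : m ∈ ⁅H, H⁆ := Subgroup.mul_mem _ hk hk
    have hDm : D m = 1 := by
      rw [hm, hmul k (hKH hk) k (hKH hk)]
      have h3 := Matrix.mul_adjugate (D k)
      rw [adj_eq, htr, hdet k hk, h2, zero_smul, zero_sub, mul_neg, one_smul] at h3
      have h4 : D k * D k = -1 := by rw [← h3, neg_neg]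
      rw [h4]
      ext i j
      have e3 : ∀ x : F, -x = x := by
        intro x
        have : x + x = 0 := by rw [← two_mul, h2, zero_mul]
        exact neg_eq_of_add_eq_zero_left this
      rw [Matrix.neg_apply, e3]
    have hmL : ∀ x ∈ L, m x = x := by
      intro x hx
      obtain ⟨c, d, rfl⟩ := exists_comb hL hv hw hind hx
      rw [hm]
      simp only [apply_mul, map_add, map_smul, hkv, hkw]
      have : c • v + d • (w + (1 : F) • v + (1 : F) • v) = c • v + d • w + (2 * d) • v := by
        module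
      rw [this, h2, zero_mul, zero_smul, add_zero]
    have hmW : ∀ x ∈ W, m x - x ∈ L := by
      intro x hx
      have hmx : m x ∈ W := hHW m (hKH hmK) x hx
      rw [C.mem_iff (W.sub_mem hmx hx)]
      have hact := C.act (hKB.1 m hmK) hx
      rw [← hDdef, hDm, Matrix.one_mulVec] at hact
      have f0 := congrFun hact 0
      have f1 := congrFun hact 1
      simp at f0 f1
      rw [map_sub, map_sub, f0, f1]
      simp
    have hmV : ∀ x, m x - x ∈ W := by
      intro x
      have h3 : x ∈ W ⊔ Submodule.span F {t} := by rw [hsup]; trivial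
      obtain ⟨y, hy, z, hz, rfl⟩ := Submodule.mem_sup.1 h3
      obtain ⟨c, rfl⟩ := Submodule.mem_span_singleton.1 hz
      have : m (y + c • t) - (y + c • t) = (m y - y) + c • (m t - t) := by
        rw [map_add, map_smul]; module
      rw [this]
      exact W.add_mem (hLW (hmW y hy)) (W.smul_mem _ (hK m hmK))
    have h5 : (m * m) * (m * m) = 1 := by
      ext x
      obtain ⟨y, hy, hmx⟩ : ∃ y ∈ W, m x = x + y := ⟨m x - x, hmV x, by abel⟩
      obtain ⟨l, hl, hmy⟩ : ∃ l ∈ L, m y = y + l := ⟨m y - y, hmW y hy, by abel⟩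
      have h6 : m (m x) = x + l := by
        rw [hmx, map_add, hmx, hmy]
        have : x + y + (y + l) = x + (y + y) + l := by abel
        rw [this, e2, add_zero]
      have h7 : m (m (x + l)) = x := by
        rw [map_add, map_add, h6, hmL l hl, hmL l hl, add_assoc, e2, add_zero]
      show m (m (m (m x))) = x
      rw [h6, h7]
    have hmv : m v = v := hmL v hv
    have h6 : m * m = 1 := by
      apply sq_one hR hd (G.mul_mem (hKG hmK) (hKG hmK)) (v := v)
      · intro x
        rw [← apply_mul, h5]; rfl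
      · exact hv0
      · rw [apply_mul, hmv, hmv]
    have h7 : m = 1 := by
      apply sq_one hR hd (hKG hmK) (v := v)
      · intro x
        rw [← apply_mul, h6]; rfl
      · exact hv0
      · exact hmv
    have h8 : k = 1 := by
      apply sq_one hR hd (hKG hk) (v := v)
      · intro x
        rw [← apply_mul, ← hm, h7]; rfl
      · exact hv0
      · exact hkv
    rw [h8, one_apply, one_smul] at hkw
    exact hv0 (by simpa using hkw.symm)
  · -- characteristic different from two
    have htr : ∀ k ∈ ⁅H, H⁆, (∀ x ∈ L, k x = -x) → (D k).trace = 2 := by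
      intro k hk hkL
      by_contra htr
      obtain ⟨t', ht', hkt'⟩ := C.exists_fix hLW (hKB.1 k hk) (hHW k (hKH hk)) (hdet k hk) htr
        htW (hK k hk)
      exact neg_fix hR hd hL h2 (hKG hk) hkL ht' hkt'
    have hne : ∀ k ∈ ⁅H, H⁆, (∀ x ∈ L, k x = -x) → D k ≠ 1 := by
      intro k hk hkL h1
      have hkW : ∀ x ∈ W, k x - x ∈ L := by
        intro x hx
        have hkx : k x ∈ W := hHW k (hKH hk) x hx
        rw [C.mem_iff (W.sub_mem hkx hx)]
        have hact := C.act (hKB.1 k hk) hx
        rw [← hDdef, h1, Matrix.one_mulVec] at hact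
        have f0 := congrFun hact 0
        have f1 := congrFun hact 1
        simp at f0 f1
        rw [map_sub, map_sub, f0, f1]
        simp
      have haL : a ∉ L := by
        intro h
        have := C.αL a h
        rw [C.αa] at this
        exact one_ne_zero this
      exact neg_fix hR hd hL h2 (hKG hk) hkL haL (hkW a C.a_mem)
    have htt : ∀ k ∈ ⁅H, H⁆, (∀ x ∈ L, k x = -x) → ∀ k' ∈ ⁅H, H⁆, (∀ x ∈ L, k' x = -x) →
        (D k * D k').trace = 2 := by
      intro k hk hkL k' hk' hkL'
      have hki : k⁻¹ ∈ ⁅H, H⁆ := Subgroup.inv_mem _ hk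
      have hkiL : ∀ x ∈ L, k⁻¹ x = -x := by
        intro x hx
        apply k.injective
        rw [apply_inv, map_neg, hkL x hx, neg_neg]
      have hk3 : k⁻¹ * (k⁻¹ * k') ∈ ⁅H, H⁆ :=
        Subgroup.mul_mem _ hki (Subgroup.mul_mem _ hki hk')
      have h3 := htr _ hk3 (by
        intro x hx
        rw [apply_mul, apply_mul, hkL' x hx, map_neg, hkiL x hx, neg_neg, hkiL x hx])
      rw [hmul _ (hKH hki) _ (H.mul_mem (hKH hki) (hKH hk')), hmul _ (hKH hki) _ (hKH hk')] at h3
      have h4 := Matrix.mul_adjugate (D k)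
      rw [adj_eq, htr k hk hkL, hdet k hk, one_smul] at h4
      have h5 : D k⁻¹ = (2 : F) • 1 - D k := by
        have h6 : D k⁻¹ * (D k * ((2 : F) • 1 - D k)) = D k⁻¹ := by rw [h4, mul_one]
        rw [← mul_assoc, hinv' k (hKH hk), one_mul] at h6
        exact h6.symm
      have h6 : D k * D k = (2 : F) • D k - 1 := by
        rw [mul_sub, mul_smul_comm, mul_one] at h4
        rw [← h4]; abel
      have h7 : D k⁻¹ * (D k⁻¹ * D k') = (3 : F) • D k' - (2 : F) • (D k * D k') := by
        rw [← mul_assoc, h5]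
        have : ((2 : F) • (1 : Matrix (Fin 2) (Fin 2) F) - D k) * ((2 : F) • 1 - D k) =
            (3 : F) • 1 - (2 : F) • D k := by
          rw [sub_mul, mul_sub, mul_sub, h6]
          simp only [smul_mul_assoc, mul_smul_comm, one_mul, mul_one]
          module
        rw [this, sub_mul, smul_mul_assoc, smul_mul_assoc, one_mul]
      rw [h7, Matrix.trace_sub, Matrix.trace_smul, Matrix.trace_smul, htr k' hk' hkL',
        smul_eq_mul, smul_eq_mul] at h3
      have h8 : 2 * ((D k * D k').trace - 2) = 0 := by linear_combination -h3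
      exact sub_eq_zero.1 ((mul_eq_zero.1 h8).resolve_left h2)
    obtain ⟨k, hk, hkv, hkw⟩ := hKB.diag hv hw hind (s := -1) (neg_ne_zero.2 one_ne_zero)
    have hkL : ∀ x ∈ L, k x = -x := by
      intro x hx
      obtain ⟨c, d, rfl⟩ := exists_comb hL hv hw hind hx
      simp only [map_add, map_smul, hkv, hkw, inv_neg, inv_one]
      module
    set n := D k - 1 with hn
    have hn0 : n ≠ 0 := fun h => hne k hk hkL (sub_eq_zero.1 h)
    have tr1 : (1 : Matrix (Fin 2) (Fin 2) F).trace = 2 := by
      rw [Matrix.trace_one]; simp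
    have nil : ∀ k ∈ ⁅H, H⁆, (∀ x ∈ L, k x = -x) → (D k - 1).det = 0 ∧ (D k - 1).trace = 0 := by
      intro k hk hkL
      rw [det_sub_one, Matrix.trace_sub, hdet k hk, htr k hk hkL, tr1]
      constructor <;> ring
    obtain ⟨u, hu0, hu⟩ := Matrix.exists_mulVec_eq_zero_iff.2 (nil k hk hkL).1
    rw [← hn] at hu
    set x0 := u 0 • a + u 1 • b with hx0
    have hx0W : x0 ∈ W := W.add_mem (W.smul_mem _ C.a_mem) (W.smul_mem _ C.b_mem)
    have hαx : α x0 = u 0 := by
      rw [hx0, map_add, map_smul, map_smul, C.αa, C.αb]; simp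
    have hβx : β x0 = u 1 := by
      rw [hx0, map_add, map_smul, map_smul, C.βa, C.βb]; simp
    have hu2 : ![u 0, u 1] = u := by
      ext i
      rcases two_cases i with rfl | rfl <;> rfl
    have hx0L : x0 ∉ L := by
      intro h
      apply hu0
      ext i
      rcases two_cases i with rfl | rfl
      · rw [← hαx]; exact C.αL _ h
      · rw [← hβx]; exact C.βL _ h
    have hP := Submodule.finrank_sup_span_singleton hx0L
    rw [hL] at hP
    refine no_plane hR hd hL hHG hH hP le_sup_left ?_
    have hmain : ∀ h ∈ H, h x0 ∈ L ⊔ Submodule.span F {x0} := by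
      intro h hh
      have hhi : h⁻¹ ∈ H := H.inv_mem hh
      have hk' : h⁻¹ * (k * h) ∈ ⁅H, H⁆ := by
        have e1 : h⁻¹ * (k * h) = ⁅h⁻¹, k⁆ * k := by rw [commutatorElement_def]; group
        rw [e1]
        exact Subgroup.mul_mem _ (Subgroup.commutator_mem_commutator hhi (hKH hk)) hk
      have hkL' : ∀ x ∈ L, (h⁻¹ * (k * h)) x = -x := by
        intro x hx
        rw [apply_mul, apply_mul, hkL _ ((hH.1 h hh x).2 hx), map_neg, inv_apply]
      have h3 := nil _ hk' hkL'
      have h4 := htt k hk hkL _ hk' hkL'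
      have h5 : (n * (D (h⁻¹ * (k * h)) - 1)).trace = 0 := by
        rw [hn, sub_mul, mul_sub, mul_sub, one_mul, mul_one, mul_one, Matrix.trace_sub,
          Matrix.trace_sub, Matrix.trace_sub, h4, htr k hk hkL, htr _ hk' hkL', tr1]
        ring
      have h6 := nil_ker (nil k hk hkL).1 (nil k hk hkL).2 hn0 h3.1 h3.2 h5 hu hu0
      have h7 : D (h⁻¹ * (k * h)) - 1 = D h⁻¹ * (n * D h) := by
        rw [hmul _ hhi _ (H.mul_mem (hKH hk) hh), hmul _ (hKH hk) _ hh, hn, sub_mul, mul_sub,
          one_mul, hinv' h hh]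
      rw [h7] at h6
      have h8 : n *ᵥ (D h *ᵥ u) = 0 := by
        have h9 := congrArg (fun z => D h *ᵥ z) h6
        simp only [Matrix.mulVec_zero] at h9
        rw [Matrix.mulVec_mulVec, ← mul_assoc, hinv h hh, one_mul] at h9
        rw [Matrix.mulVec_mulVec]
        exact h9
      obtain ⟨c, hc⟩ := ker_dim1 hn0 hu h8 hu0
      have hhx : h x0 ∈ W := hHW h hh x0 hx0W
      have hact := C.act (hH.1 h hh) hx0W
      rw [← hDdef, hαx, hβx, hu2, hc] at hact
      have f0 := congrFun hact 0
      have f1 := congrFun hact 1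
      simp at f0 f1
      have h10 : h x0 - c • x0 ∈ L := by
        rw [C.mem_iff (W.sub_mem hhx (W.smul_mem _ hx0W)), map_sub, map_sub, map_smul, map_smul,
          f0, f1, hαx, hβx]
        simp
      have h11 : h x0 = (h x0 - c • x0) + c • x0 := by abel
      rw [h11]
      exact Submodule.add_mem_sup h10
        (Submodule.smul_mem _ _ (Submodule.mem_span_singleton_self x0))
    intro h hh x hx
    obtain ⟨y, hy, z, hz, rfl⟩ := Submodule.mem_sup.1 hx
    obtain ⟨c, rfl⟩ := Submodule.mem_span_singleton.1 hz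
    rw [map_add, map_smul]
    exact Submodule.add_mem _ (Submodule.mem_sup_left ((hH.1 h hh y).2 hy))
      (Submodule.smul_mem _ _ (hmain h hh))

end Pool.Agent.H95.D4
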