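import Pool.Agent.H95.D4.Hyper2

/-!
# Normal subgroups of the pointwise stabilizer of a line are irreducible on the quotient
-/

namespace Pool.Agent.H95.D4

open Module Pool.Agent.H20.ProjTwoTrans Pool.Agent.H95.DT
open scoped commutatorElement

variable {F V : Type*} [Field F] [AddCommGroup V] [Module F V]
variable {G : Subgroup (V ≃ₗ[F] V)}

/-- the pointwise stabilizer of a line -/
def Q1 (G : Subgroup (V ≃ₗ[F] V)) (L : Submodule F V) : Subgroup (V ≃ₗ[F] V) where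
  carrier := {g | g ∈ G ∧ ∀ x ∈ L, g x = x}
  mul_mem' := by
    rintro a b ⟨ha, ha'⟩ ⟨hb, hb'⟩
    exact ⟨G.mul_mem ha hb, fun x hx => by rw [apply_mul, hb' x hx, ha' x hx]⟩
  one_mem' := ⟨G.one_mem, fun x _ => rfl⟩
  inv_mem' := by
    rintro a ⟨ha, ha'⟩
    refine ⟨G.inv_mem ha, fun x hx => ?_⟩
    apply a.injective
    rw [apply_inv, ha' x hx]

lemma Q1_iff [FiniteDimensional F V] {L : Submodule F V} {n : V ≃ₗ[F] V} (hn : n ∈ Q1 G L)
    (x : V) : n x ∈ L ↔ x ∈ L := iff_of_le (fun x hx => by rw [hn.2 x hx]; exact hx) x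

/-- eigenspace modulo `L` -/
def Eg (L : Submodule F V) (n : V ≃ₗ[F] V) (μ : F) : Submodule F V :=
  Submodule.comap ((n : V →ₗ[F] V) - μ • LinearMap.id) L

lemma mem_Eg {L : Submodule F V} {n : V ≃ₗ[F] V} {μ : F} {x : V} :
    x ∈ Eg L n μ ↔ n x - μ • x ∈ L := Iff.rfl

lemma map_Eg {L : Submodule F V} {n h : V ≃ₗ[F] V} {μ : F} (hh : ∀ x, h x ∈ L ↔ x ∈ L) :
    (Eg L n μ).map (h : V →ₗ[F] V) = Eg L (h * n * h⁻¹) μ := by
  ext x
  obtain ⟨y, rfl⟩ := h.surjective x
  rw [mem_Eg]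
  have e : (h * n * h⁻¹) (h y) - μ • h y = h (n y - μ • y) := by
    rw [apply_mul, inv_apply, apply_mul, map_sub, map_smul]
  rw [e, hh, ← mem_Eg]
  constructor
  · rintro ⟨z, hz, hzy⟩
    have : z = y := h.injective hzy
    rwa [← this]
  · intro hy
    exact ⟨y, hy, rfl⟩

lemma map_of_St {E : Submodule F V} {h : V ≃ₗ[F] V}
    (hE : E.map (h : V →ₗ[F] V) = E) (x : V) : h x ∈ E ↔ x ∈ E := by
  constructor
  · intro hx
    rw [← hE] at hx
    obtain ⟨y, hy, hyx⟩ := hx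
    have : y = x := h.injective hyx
    rwa [← this]
  · intro hx
    rw [← hE]
    exact ⟨x, hx, rfl⟩

lemma pow_apply_smul {e : V ≃ₗ[F] V} {v : V} {s : F} (h : e v = s • v) (n : ℕ) :
    (e ^ n) v = (s ^ n) • v := by
  induction n with
  | zero => rw [pow_zero, pow_zero, one_smul]; rfl
  | succ n ih => rw [pow_succ, apply_mul, h, map_smul, ih, smul_smul, pow_succ, mul_comm]

/-- a subgroup of `H` containing all `840`-th powers is still big -/
lemma Big.of_pow [Infinite F] {H H0 : Subgroup (V ≃ₗ[F] V)} {L : Submodule F V} (hH : Big H L)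
    (hle : H0 ≤ H) (hpow : ∀ h ∈ H, h ^ 840 ∈ H0) : Big H0 L := by
  refine ⟨fun h hh => hH.1 h (hle hh), fun v hv w hw hind b => ?_⟩
  obtain ⟨s, hs, hs2⟩ := exists_elements (F := F) 1680 (by norm_num)
  obtain ⟨e, he, hev, hew⟩ := hH.diag hv hw hind hs
  set r := s ^ 840 with hr
  have hr0 : r ≠ 0 := pow_ne_zero _ hs
  have hr2 : r ^ 2 - 1 ≠ 0 := by
    rw [sub_ne_zero, hr, ← pow_mul]
    exact hs2
  have hev' : (e ^ 840) v = r • v := pow_apply_smul hev 840
  have hew' : (e ^ 840) w = r⁻¹ • w := by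
    rw [pow_apply_smul hew 840, hr, inv_pow]
  obtain ⟨u, hu, huv, huw⟩ := hH.2 v hv w hw hind (b / (r ^ 2 - 1))
  refine ⟨⁅e ^ 840, u⁆, ?_, comm_diag hr0 hr2 hev' hew' huv huw rfl⟩
  have e1 : ⁅e ^ 840, u⁆ = e ^ 840 * (u * e⁻¹ * u⁻¹) ^ 840 := by
    rw [commutatorElement_def, conj_pow, inv_pow]
    group
  rw [e1]
  exact H0.mul_mem (hpow e he) (hpow _ (H.mul_mem (H.mul_mem hu (H.inv_mem he)) (H.inv_mem hu)))

lemma finrank_inf_planes [FiniteDimensional F V] {L P1 P2 : Submodule F V}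
    (hL : finrank F L = 2) (h1 : finrank F P1 = 3) (h2 : finrank F P2 = 3) (hL1 : L ≤ P1)
    (hL2 : L ≤ P2) (hne : P1 ≠ P2) : finrank F (P1 ⊔ P2 : Submodule F V) = 4 := by
  have h3 := Submodule.finrank_sup_add_finrank_inf_eq P1 P2
  have h4 := Submodule.finrank_mono (le_inf hL1 hL2)
  have h5 : finrank F (P1 ⊓ P2 : Submodule F V) ≠ 3 := by
    intro h
    apply hne
    have e1 : P1 ⊓ P2 = P1 := Submodule.eq_of_le_of_finrank_eq inf_le_left (by rw [h, h1])
    have e2 : P1 ⊓ P2 = P2 := Submodule.eq_of_le_of_finrank_eq inf_le_right (by rw [h, h2])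
    rw [← e1]; exact e2
  have h6 := Submodule.finrank_mono (inf_le_left : P1 ⊓ P2 ≤ P1)
  omega

section irr

variable [Infinite F] [FiniteDimensional F V]

/-- the diagonalizable case -/
lemma irr_diag (hR : R3 G) (hd : finrank F V = 5) (hG : TwoTrans G) {L : Submodule F V}
    (hL : finrank F L = 2) {N : Subgroup (V ≃ₗ[F] V)} (hNQ : N ≤ Q1 G L)
    (hNn : ∀ h ∈ St G L, ∀ n ∈ N, h * n * h⁻¹ ∈ N) {n0 : V ≃ₗ[F] V} (hn0 : n0 ∈ N)
    (hn1 : n0 ≠ 1) (b : Basis (Fin 3) F (V ⧸ L)) (z : Fin 3 → V)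
    (hb : ∀ i, b i = L.mkQ (z i))
    (hN : ∀ n ∈ N, ∀ i, ∃ c : F, n (z i) - c • z i ∈ L) : False := by
  have hH := big_St hG hL
  set H := St G L with hHdef
  choose! χ hχ using hN
  have hNL : ∀ n ∈ N, ∀ x ∈ L, n x = x := fun n hn x hx => (hNQ hn).2 x hx
  have hmk : ∀ x : V, L.mkQ x = 0 ↔ x ∈ L := fun x => by
    rw [Submodule.mkQ_apply, Submodule.Quotient.mk_eq_zero]
  -- the eigenspaces are determined by a subset
  have hEg : ∀ n ∈ N, ∀ μ x, x ∈ Eg L n μ ↔ ∀ i, χ n i ≠ μ → b.repr (L.mkQ x) i = 0 := by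
    intro n hn μ x
    rw [mem_Eg]
    have e0 : L.mkQ x = ∑ i, b.repr (L.mkQ x) i • b i := (b.sum_repr _).symm
    have e1 : x - ∑ i, b.repr (L.mkQ x) i • z i ∈ L := by
      rw [← hmk, map_sub, map_sum]
      simp only [map_smul, ← hb]
      rw [← e0, sub_self]
    have e2 : L.mkQ (n x) = ∑ i, (b.repr (L.mkQ x) i * χ n i) • b i := by
      have e3 : n x - ∑ i, (b.repr (L.mkQ x) i * χ n i) • z i ∈ L := by
        have e4 : n x - ∑ i, (b.repr (L.mkQ x) i * χ n i) • z i =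
            n (x - ∑ i, b.repr (L.mkQ x) i • z i) +
            ∑ i, b.repr (L.mkQ x) i • (n (z i) - χ n i • z i) := by
          rw [map_sub, map_sum]
          simp only [map_smul, smul_sub, smul_smul, Finset.sum_sub_distrib]
          abel
        rw [e4]
        refine L.add_mem ?_ (L.sum_mem fun i _ => L.smul_mem _ (hχ n hn i))
        rw [hNL n hn _ e1]
        exact e1
      rw [← hmk, map_sub, map_sum, sub_eq_zero] at e3
      rw [e3]
      simp only [map_smul, hb]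
    have e5 : L.mkQ (n x - μ • x) = ∑ i, (b.repr (L.mkQ x) i * (χ n i - μ)) • b i := by
      rw [map_sub, map_smul, e2]
      conv_lhs => rw [e0]
      rw [Finset.smul_sum, ← Finset.sum_sub_distrib]
      refine Finset.sum_congr rfl fun i _ => ?_
      have e6 : b.repr (∑ j, b.repr (L.mkQ x) j • b j) i = b.repr (L.mkQ x) i := by
        rw [b.sum_repr]
      rw [e6]
      module
    rw [← hmk, e5]
    constructor
    · intro h i hi
      have h1 := congrArg (fun y => b.repr y i) h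
      simp only [map_sum, map_smul, Basis.repr_self, map_zero, Finsupp.coe_zero,
        Pi.zero_apply] at h1
      rw [Finsupp.finset_sum_apply] at h1
      simp only [Finsupp.smul_apply, Finsupp.single_apply, smul_eq_mul, mul_ite, mul_one,
        mul_zero, Finset.sum_ite_eq', Finset.mem_univ, if_true] at h1
      exact (mul_eq_zero.1 h1).resolve_right (sub_ne_zero.2 hi)
    · intro h
      apply Finset.sum_eq_zero
      intro i _
      by_cases hi : χ n i = μ
      · rw [hi, sub_self, mul_zero, zero_smul]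
      · rw [h i hi, zero_mul, zero_smul]
  set μ := χ n0 0 with hμ
  set E := Eg L n0 μ with hE
  have hLE : L ≤ E := by
    intro x hx
    rw [hE, mem_Eg, hNL n0 hn0 x hx]
    exact L.sub_mem hx (L.smul_mem _ hx)
  have hz0 : z 0 ∈ E := hχ n0 hn0 0
  have hz0L : z 0 ∉ L := by
    intro h
    have h1 : b 0 = 0 := by rw [hb, hmk]; exact h
    exact b.ne_zero 0 h1
  have hET : E ≠ ⊤ := by
    intro h
    have h1 : ∀ x, n0 x = μ • x := quot_scalar hR hd hL (hNQ hn0).1 (c := μ) (fun x => by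
      have : x ∈ E := by rw [h]; trivial
      exact this)
    obtain ⟨v, hv, w, hw, hind⟩ := exists_pair hL
    have h2 := h1 v
    rw [hNL n0 hn0 v hv] at h2
    have h3 : (μ - 1) • v = 0 := by rw [sub_smul, one_smul, ← h2, sub_self]
    have h4 : μ = 1 := sub_eq_zero.1 ((smul_eq_zero.1 h3).resolve_right (hind.ne_zero 0))
    apply hn1
    ext x
    rw [h1, h4, one_smul]
    rfl
  have hE3 : 3 ≤ finrank F E := by
    have h1 : L ⊔ Submodule.span F {z 0} ≤ E := by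
      refine sup_le hLE ?_
      rw [Submodule.span_singleton_le_iff_mem]
      exact hz0
    have h2 := Submodule.finrank_mono h1
    rw [Submodule.finrank_sup_span_singleton hz0L, hL] at h2
    exact h2
  have hE4 : finrank F E < 5 := by
    have := Submodule.finrank_lt hET
    omega
  -- powers
  have hpow : ∀ h ∈ H, h ^ 840 ∈ St H E := by
    intro h hh
    have hconj : ∀ i : ℕ, h ^ i * n0 * (h ^ i)⁻¹ ∈ N := fun i => hNn _ (H.pow_mem hh i) _ hn0
    classical
    obtain ⟨i, j, hij, hset⟩ : ∃ i j : Fin 9, i ≠ j ∧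
        (Finset.univ.filter fun k => χ (h ^ (i : ℕ) * n0 * (h ^ (i : ℕ))⁻¹) k = μ) =
        (Finset.univ.filter fun k => χ (h ^ (j : ℕ) * n0 * (h ^ (j : ℕ))⁻¹) k = μ) := by
      obtain ⟨i, j, hij, hf⟩ := Fintype.exists_ne_map_eq_of_card_lt
        (fun i : Fin 9 => (Finset.univ.filter fun k : Fin 3 =>
          χ (h ^ (i : ℕ) * n0 * (h ^ (i : ℕ))⁻¹) k = μ)) (by simp)
      exact ⟨i, j, hij, hf⟩
    wlog hlt : i < j generalizing i j
    · exact this j i hij.symm hset.symm (lt_of_le_of_ne (not_lt.1 hlt) hij.symm)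
    have hmap : ∀ i : ℕ, E.map ((h ^ i : V ≃ₗ[F] V) : V →ₗ[F] V) =
        Eg L (h ^ i * n0 * (h ^ i)⁻¹) μ := fun i =>
      map_Eg (hH.1 _ (H.pow_mem hh i))
    have hEE : E.map ((h ^ (i : ℕ) : V ≃ₗ[F] V) : V →ₗ[F] V) =
        E.map ((h ^ (j : ℕ) : V ≃ₗ[F] V) : V →ₗ[F] V) := by
      rw [hmap, hmap]
      ext x
      rw [hEg _ (hconj i), hEg _ (hconj j)]
      have hiff : ∀ k, χ (h ^ (i : ℕ) * n0 * (h ^ (i : ℕ))⁻¹) k = μ ↔
          χ (h ^ (j : ℕ) * n0 * (h ^ (j : ℕ))⁻¹) k = μ := by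
        intro k
        have h1 := Finset.ext_iff.1 hset k
        simpa using h1
      constructor
      · intro h1 k hk
        exact h1 k (fun h2 => hk ((hiff k).1 h2))
      · intro h1 k hk
        exact h1 k (fun h2 => hk ((hiff k).2 h2))
    obtain ⟨d, hd1, hd8, hjd⟩ : ∃ d : ℕ, 1 ≤ d ∧ d ≤ 8 ∧ (j : ℕ) = i + d := by
      refine ⟨(j : ℕ) - i, ?_, ?_, ?_⟩
      · have : (i : ℕ) < j := hlt
        omega
      · have := j.2
        omega
      · have : (i : ℕ) < j := hlt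
        omega
    have hdE : ∀ x, (h ^ d) x ∈ E ↔ x ∈ E := by
      have key : ∀ x, x ∈ E → (h ^ d) x ∈ E := by
        intro x hx
        have h1 : (h ^ (j : ℕ)) x ∈ E.map ((h ^ (j : ℕ) : V ≃ₗ[F] V) : V →ₗ[F] V) := ⟨x, hx, rfl⟩
        rw [← hEE] at h1
        obtain ⟨y, hy, hyx⟩ := h1
        have h2 : (h ^ (i : ℕ)) y = (h ^ (i : ℕ)) ((h ^ d) x) := by
          rw [← apply_mul, ← pow_add, ← hjd]
          exact hyx
        rw [← (h ^ (i : ℕ)).injective h2]
        exact hy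
      exact iff_of_le key
    have hdH : h ^ d ∈ St H E := ⟨H.pow_mem hh d, hdE⟩
    obtain ⟨q, hq⟩ : d ∣ 840 := by
      interval_cases d <;> norm_num
    rw [hq, pow_mul]
    exact (St H E).pow_mem hdH q
  have hB : Big (St H E) L := hH.of_pow (fun x hx => hx.1) hpow
  have hle : St H E ≤ G := fun x hx => hx.1.1
  have hinv : ∀ h ∈ St H E, ∀ x ∈ E, h x ∈ E := fun h hh x hx => (hh.2 x).2 hx
  rcases (show finrank F E = 3 ∨ finrank F E = 4 by omega) with h3 | h4
  · exact no_plane hR hd hL hle hB h3 hLE hinv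
  · exact no_hyper hR hd hL hle hB h4 hLE hinv

/-- Nontrivial subgroups of the pointwise stabilizer of a line `L` normalized by the stabilizer of
`L` act irreducibly on `V / L`. -/
theorem irr (hR : R3 G) (hd : finrank F V = 5) (hG : TwoTrans G) {L : Submodule F V}
    (hL : finrank F L = 2) {N : Subgroup (V ≃ₗ[F] V)} (hNQ : N ≤ Q1 G L)
    (hNn : ∀ h ∈ St G L, ∀ n ∈ N, h * n * h⁻¹ ∈ N) {n0 : V ≃ₗ[F] V} (hn0 : n0 ∈ N)
    (hn1 : n0 ≠ 1) {U : Submodule F V} (hLU : L ≤ U) (hUL : ¬ U ≤ L) (hUT : U ≠ ⊤)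
    (hNU : ∀ n ∈ N, ∀ x ∈ U, n x ∈ U) : False := by
  have hH := big_St hG hL
  set H := St G L with hHdef
  have hHG : H ≤ G := fun x hx => hx.1
  have hU3 : 3 ≤ finrank F U := by
    have h1 : finrank F L ≤ finrank F U := Submodule.finrank_mono hLU
    have h2 : finrank F L ≠ finrank F U := by
      intro h
      exact hUL (Submodule.eq_of_le_of_finrank_eq hLU h).ge
    omega
  have hU4 : finrank F U < 5 := by
    have := Submodule.finrank_lt hUT
    omega
  -- images under `H`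
  have hmapL : ∀ h ∈ H, ∀ P : Submodule F V, L ≤ P → L ≤ P.map (h : V →ₗ[F] V) := by
    intro h hh P hLP x hx
    refine ⟨h⁻¹ x, hLP ?_, apply_inv h x⟩
    rw [← hH.1 h hh, apply_inv]
    exact hx
  have hmapN : ∀ h ∈ H, ∀ P : Submodule F V, (∀ n ∈ N, ∀ x ∈ P, n x ∈ P) →
      ∀ n ∈ N, ∀ x ∈ P.map (h : V →ₗ[F] V), n x ∈ P.map (h : V →ₗ[F] V) := by
    rintro h hh P hP n hn _ ⟨y, hy, rfl⟩
    have h1 : h⁻¹ * n * h ∈ N := by
      have := hNn h⁻¹ (H.inv_mem hh) n hn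
      rwa [inv_inv] at this
    refine ⟨(h⁻¹ * n * h) y, hP _ h1 y hy, ?_⟩
    rw [LinearEquiv.coe_coe, apply_mul, apply_mul, apply_inv]
  have hmapf : ∀ h : V ≃ₗ[F] V, ∀ P : Submodule F V,
      finrank F (P.map (h : V →ₗ[F] V)) = finrank F P := fun h P =>
    LinearEquiv.finrank_map_eq _ _
  by_cases hex : ∃ P : Submodule F V, L ≤ P ∧ finrank F P = 3 ∧ ∀ n ∈ N, ∀ x ∈ P, n x ∈ P
  swap
  · -- a unique invariant hyperplane
    have hU : finrank F U = 4 := by
      have : finrank F U ≠ 3 := fun h => hex ⟨U, hLU, h, hNU⟩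
      omega
    refine no_hyper hR hd hL hHG hH hU hLU ?_
    intro h hh x hx
    by_contra hxU
    have hUU : U.map (h : V →ₗ[F] V) ≠ U := by
      intro heq
      apply hxU
      rw [← heq]
      exact ⟨x, hx, rfl⟩
    have h1 := Submodule.finrank_sup_add_finrank_inf_eq U (U.map (h : V →ₗ[F] V))
    rw [hmapf, hU] at h1
    have h2 := Submodule.finrank_le (U ⊔ U.map (h : V →ₗ[F] V))
    have h3 : finrank F (U ⊔ U.map (h : V →ₗ[F] V) : Submodule F V) ≠ 4 := by
      intro h4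
      apply hUU
      have e1 : U = U ⊔ U.map (h : V →ₗ[F] V) :=
        Submodule.eq_of_le_of_finrank_eq le_sup_left (by rw [h4, hU])
      have e2 : U.map (h : V →ₗ[F] V) = U ⊔ U.map (h : V →ₗ[F] V) :=
        Submodule.eq_of_le_of_finrank_eq le_sup_right (by rw [h4, hmapf, hU])
      rw [e2]; exact e1.symm
    have h4 := Submodule.finrank_mono (le_sup_left : U ≤ U ⊔ U.map (h : V →ₗ[F] V))
    apply hex
    refine ⟨U ⊓ U.map (h : V →ₗ[F] V), le_inf hLU (hmapL h hh U hLU), by omega, ?_⟩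
    intro n hn y hy
    exact ⟨hNU n hn y hy.1, hmapN h hh U hNU n hn y hy.2⟩
  obtain ⟨P1, hLP1, hP1, hNP1⟩ := hex
  -- a second plane
  obtain ⟨h2, hh2, x2, hx2, hx2'⟩ : ∃ h ∈ H, ∃ x ∈ P1, h x ∉ P1 := by
    by_contra hcon
    push Not at hcon
    exact no_plane hR hd hL hHG hH hP1 hLP1 hcon
  set P2 := P1.map (h2 : V →ₗ[F] V) with hP2def
  have hP2 : finrank F P2 = 3 := by rw [hP2def, hmapf, hP1]
  have hLP2 : L ≤ P2 := hmapL h2 hh2 P1 hLP1
  have hNP2 := hmapN h2 hh2 P1 hNP1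
  rw [← hP2def] at hNP2
  have hne : P1 ≠ P2 := by
    intro heq
    apply hx2'
    rw [heq]
    exact ⟨x2, hx2, rfl⟩
  have hS := finrank_inf_planes hL hP1 hP2 hLP1 hLP2 hne
  -- a third plane
  obtain ⟨h3, hh3, x3, hx3, hx3'⟩ : ∃ h ∈ H, ∃ x ∈ P1 ⊔ P2, h x ∉ P1 ⊔ P2 := by
    by_contra hcon
    push Not at hcon
    exact no_hyper hR hd hL hHG hH hS (hLP1.trans le_sup_left) hcon
  obtain ⟨P3, hP3, hLP3, hNP3, z3, hz3, hz3'⟩ : ∃ P3 : Submodule F V, finrank F P3 = 3 ∧ L ≤ P3 ∧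
      (∀ n ∈ N, ∀ x ∈ P3, n x ∈ P3) ∧ ∃ z ∈ P3, z ∉ P1 ⊔ P2 := by
    obtain ⟨y1, hy1, y2, hy2, rfl⟩ := Submodule.mem_sup.1 hx3
    by_cases hy : h3 y1 ∈ P1 ⊔ P2
    · refine ⟨P2.map (h3 : V →ₗ[F] V), by rw [hmapf, hP2], hmapL h3 hh3 P2 hLP2,
        hmapN h3 hh3 P2 hNP2, h3 y2, ⟨y2, hy2, rfl⟩, ?_⟩
      intro h
      apply hx3'
      rw [map_add]
      exact Submodule.add_mem _ hy h
    · exact ⟨P1.map (h3 : V →ₗ[F] V), by rw [hmapf, hP1], hmapL h3 hh3 P1 hLP1,
        hmapN h3 hh3 P1 hNP1, h3 y1, ⟨y1, hy1, rfl⟩, hy⟩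
  -- representatives
  have hrep : ∀ P : Submodule F V, finrank F P = 3 → L ≤ P → ∃ z ∈ P, z ∉ L := by
    intro P hP hLP
    exact SetLike.not_le_iff_exists.1 (fun h => by
      have := Submodule.finrank_mono h
      omega)
  have hspan : ∀ P : Submodule F V, finrank F P = 3 → L ≤ P → ∀ z ∈ P, z ∉ L →
      L ⊔ Submodule.span F {z} = P := by
    intro P hP hLP z hz hzL
    apply Submodule.eq_of_le_of_finrank_eq
    · refine sup_le hLP ?_
      rw [Submodule.span_singleton_le_iff_mem]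
      exact hz
    · rw [Submodule.finrank_sup_span_singleton hzL, hL, hP]
  obtain ⟨z1, hz1, hz1L⟩ := hrep P1 hP1 hLP1
  obtain ⟨z2, hz2, hz2L⟩ := hrep P2 hP2 hLP2
  have hz3L : z3 ∉ L := fun h => hz3' (Submodule.mem_sup_left (hLP1 h))
  have s1 := hspan P1 hP1 hLP1 z1 hz1 hz1L
  have s2 := hspan P2 hP2 hLP2 z2 hz2 hz2L
  have s3 := hspan P3 hP3 hLP3 z3 hz3 hz3L
  have htop : (P1 ⊔ P2) ⊔ Submodule.span F {z3} = ⊤ := by
    apply Submodule.eq_top_of_finrank_eq
    rw [Submodule.finrank_sup_span_singleton hz3', hS, hd]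
  set z : Fin 3 → V := ![z1, z2, z3] with hz
  have hq : finrank F (V ⧸ L) = 3 := by
    have := Submodule.finrank_quotient_add_finrank L
    omega
  have hle : ⊤ ≤ Submodule.span F (Set.range fun i => L.mkQ (z i)) := by
    intro y _
    obtain ⟨x, rfl⟩ := L.mkQ_surjective y
    set S := Submodule.comap L.mkQ (Submodule.span F (Set.range fun i => L.mkQ (z i))) with hSdef
    have hLS : L ≤ S := by
      intro x hx
      rw [hSdef, Submodule.mem_comap]
      have : L.mkQ x = 0 := by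
        rw [Submodule.mkQ_apply, Submodule.Quotient.mk_eq_zero]; exact hx
      rw [this]
      exact Submodule.zero_mem _
    have hzS : ∀ i, z i ∈ S := by
      intro i
      rw [hSdef, Submodule.mem_comap]
      exact Submodule.subset_span ⟨i, rfl⟩
    have hP1S : P1 ≤ S := by
      rw [← s1]
      refine sup_le hLS ?_
      rw [Submodule.span_singleton_le_iff_mem]
      exact hzS 0
    have hP2S : P2 ≤ S := by
      rw [← s2]
      refine sup_le hLS ?_
      rw [Submodule.span_singleton_le_iff_mem]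
      exact hzS 1
    have hS3 : (P1 ⊔ P2) ⊔ Submodule.span F {z3} ≤ S := by
      refine sup_le (sup_le hP1S hP2S) ?_
      rw [Submodule.span_singleton_le_iff_mem]
      exact hzS 2
    rw [htop] at hS3
    exact hS3 (Submodule.mem_top : x ∈ ⊤)
  let b : Basis (Fin 3) F (V ⧸ L) := basisOfTopLeSpanOfCardEqFinrank (fun i => L.mkQ (z i)) hle
    (by rw [hq]; simp)
  have hb : ∀ i, b i = L.mkQ (z i) := by
    intro i
    exact congrFun (coe_basisOfTopLeSpanOfCardEqFinrank _ hle _) i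
  refine irr_diag hR hd hG hL hNQ hNn hn0 hn1 b z hb ?_
  intro n hn i
  have hgen : ∀ (P : Submodule F V) (z : V), L ⊔ Submodule.span F {z} = P →
      (∀ x ∈ P, n x ∈ P) → ∃ c : F, n z - c • z ∈ L := by
    intro P z hPz hnP
    have h1 : z ∈ P := by
      rw [← hPz]
      exact Submodule.mem_sup_right (Submodule.mem_span_singleton_self z)
    have h2 := hnP z h1
    rw [← hPz] at h2
    obtain ⟨y, hy, u, hu, hyu⟩ := Submodule.mem_sup.1 h2
    obtain ⟨c, rfl⟩ := Submodule.mem_span_singleton.1 hu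
    exact ⟨c, by rw [← hyu, add_sub_cancel_right]; exact hy⟩
  fin_cases i
  · exact hgen P1 z1 s1 (hNP1 n hn)
  · exact hgen P2 z2 s2 (hNP2 n hn)
  · exact hgen P3 z3 s3 (hNP3 n hn)

end irr

end Pool.Agent.H95.D4
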