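import Pool.Agent.H95.D4.Exist

/-!
# Two transvections or homologies with commuting commutators
-/

namespace Pool.Agent.H95.D4

open Module Pool.Agent.H20.ProjTwoTrans Pool.Agent.H95.DT
open scoped commutatorElement

variable {F Q : Type*} [Field F] [AddCommGroup Q] [Module F Q]

lemma refl_inv {X : Q ≃ₗ[F] Q} {c : Q} {f : Dual F Q} {t : F} (ht : t ≠ 0) (hfc : f c = t - 1)
    (hX : ∀ u, X u = u + f u • c) (u : Q) : X⁻¹ u = u - (t⁻¹ * f u) • c := by
  have h1 : X (u - (t⁻¹ * f u) • c) = u := by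
    rw [map_sub, map_smul, hX, hX, hfc]
    match_scalars
    · ring
    · field_simp
      ring
  conv_lhs => rw [← h1]
  exact inv_apply X _

/-- The scalar part of the argument. -/
lemma pp_scalar {t β γ : F} (ht : t ≠ 0) (ht1 : t + 1 ≠ 0) (hβ : β ≠ 0) (hγ : γ ≠ 0)
    (h11 : (β * γ) ^ 2 * (2 * t ^ 2 + t + t * (β * γ) + β * γ) *
        (t - (t ^ 2 - t - β * γ)) + (β * γ) * (t ^ 2 - t - β * γ) * (t + β * γ) =
      t ^ 2 * (β * γ) * ((β * γ + (t - 1)) * (t ^ 2 + t * (β * γ) + β * γ) -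
        β * γ * (2 * t ^ 2 + t + t * (β * γ) + β * γ)))
    (h21 : γ * (β * γ) * ((t ^ 2 - t - β * γ) * (2 * t ^ 2 + t + t * (β * γ) + β * γ) +
      (t + β * γ)) = γ * (β * γ) * t ^ 2)
    (h22 : t * (β * γ) * ((t ^ 2 - t - β * γ) * (t ^ 2 + t * (β * γ) + β * γ) + β * γ) =
      t * (β * γ) * ((t ^ 2 - t - β * γ) + β * γ)) : False := by
  have hδ : β * γ ≠ 0 := mul_ne_zero hβ hγ
  set δ := β * γ with hδd
  have h21' : (t ^ 2 - t - δ) * ((2 * t ^ 2 + t + t * δ + δ) - 1) = 0 := by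
    have := mul_left_cancel₀ (mul_ne_zero hγ hδ) h21
    linear_combination this
  have h22' : (t ^ 2 - t - δ) * ((t ^ 2 + t * δ + δ) - 1) = 0 := by
    have := mul_left_cancel₀ (mul_ne_zero ht hδ) h22
    linear_combination this
  have hκ : t ^ 2 - t - δ = 0 := by
    have h3 : (t ^ 2 - t - δ) * (t * (t + 1)) = 0 := by linear_combination h21' - h22'
    exact (mul_eq_zero.1 h3).resolve_right (mul_ne_zero ht ht1)
  have hδt : δ = t * (t - 1) := by linear_combination -hκ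
  have h5 : t ^ 2 * δ * ((t - 1) * t * (t + 1) ^ 2) = 0 := by
    rw [hκ] at h11
    rw [hδt] at h11 ⊢
    linear_combination h11
  rcases mul_eq_zero.1 h5 with h | h
  · rcases mul_eq_zero.1 h with h | h
    · exact ht (by simpa using h)
    · exact hδ h
  · rcases mul_eq_zero.1 h with h | h
    · rcases mul_eq_zero.1 h with h | h
      · apply hδ
        rw [hδt, h, mul_zero]
      · exact ht h
    · exact ht1 (by simpa using h)

lemma pp_alg {c c' : Q} {f f' : Dual F Q} {t : F} (ht : t ≠ 0) (ht1 : t + 1 ≠ 0)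
    (hfc : f c = t - 1) (hfc' : f' c' = t - 1) {X Y : Q ≃ₗ[F] Q}
    (hX : ∀ u, X u = u + f u • c) (hY : ∀ u, Y u = u + f' u • c') {E1 E2 : Q → Q}
    (hE1 : ∀ u, E1 u = X (Y (X⁻¹ (Y⁻¹ u)))) (hE2 : ∀ u, E2 u = X (E1 (X⁻¹ u)))
    (hcomm : ∀ u, E1 (E2 u) = E2 (E1 u))
    (hc : LinearIndependent F ![c, c']) {u u' : Q} (h1 : f u = 1) (h2 : f' u = 0)
    (h3 : f u' = 0) (h4 : f' u' = 1) (hβ : f c' ≠ 0) (hγ : f' c ≠ 0) : False := by
  have hXi := refl_inv ht hfc hX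
  have hYi := refl_inv ht hfc' hY
  set β := f c' with hβd
  set γ := f' c with hγd
  have e1 : ∀ v, E1 v = v + ((t⁻¹) ^ 2 * (-(t * (β * γ)) * f v + β * (t + β * γ) * f' v)) • c +
      ((t⁻¹) ^ 2 * (-(γ * t) * f v + (β * γ) * f' v)) • c' := by
    intro v
    rw [hE1]
    simp only [hX, hY, hXi, hYi, map_sub, map_add, map_smul, smul_eq_mul, hfc, hfc', ← hβd,
      ← hγd]
    match_scalars
    · ring
    · field_simp
      ring
    · field_simp
      ring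
  have e2 : ∀ v, E2 v = v + ((t⁻¹) ^ 3 * (-((β * γ) * (2 * t ^ 2 + t + t * (β * γ) + β * γ)) *
      f v + t * β * (t ^ 2 + t * (β * γ) + β * γ) * f' v)) • c +
      ((t⁻¹) ^ 3 * (-(γ * (t + β * γ)) * f v + t * (β * γ) * f' v)) • c' := by
    intro v
    rw [hE2]
    simp only [e1, hX, hXi, map_sub, map_add, map_smul, smul_eq_mul, hfc, ← hβd, ← hγd]
    match_scalars
    · ring
    · field_simp
      ring
    · field_simp
      ring
  have hu := hcomm u
  have hu' := hcomm u'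
  simp only [e1, e2, map_add, map_smul, smul_eq_mul, hfc, hfc', ← hβd, ← hγd, h1, h2, h3, h4]
    at hu hu'
  have k1 : (t⁻¹) ^ 5 * (-((β * γ) ^ 2 * (2 * t ^ 2 + t + t * (β * γ) + β * γ) *
        (t - (t ^ 2 - t - β * γ)) + (β * γ) * (t ^ 2 - t - β * γ) * (t + β * γ)) +
      t ^ 2 * (β * γ) * ((β * γ + (t - 1)) * (t ^ 2 + t * (β * γ) + β * γ) -
        β * γ * (2 * t ^ 2 + t + t * (β * γ) + β * γ))) = 0 ∧
      (t⁻¹) ^ 5 * (γ * (β * γ) * ((t ^ 2 - t - β * γ) * (2 * t ^ 2 + t + t * (β * γ) + β * γ) +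
      (t + β * γ)) - γ * (β * γ) * t ^ 2) = 0 := by
    apply LinearIndependent.pair_iff.1 hc
    linear_combination (norm := module) hu
  have k2 : (t⁻¹) ^ 5 * (t * β * (β * γ) * ((t - (t ^ 2 - t - β * γ)) *
        (t ^ 2 + t * (β * γ) + β * γ) + (t ^ 2 - t - β * γ)) -
        β * (β * γ) * ((t * (t ^ 2 + t * (β * γ) + β * γ) -
          (t - 1) * (2 * t ^ 2 + t + t * (β * γ) + β * γ)) * (t + β * γ) +
          (t - 1) * t * (t ^ 2 + t * (β * γ) + β * γ) -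
          (β * γ) * (2 * t ^ 2 + t + t * (β * γ) + β * γ))) = 0 ∧
      (t⁻¹) ^ 5 * (-(t * (β * γ) * ((t ^ 2 - t - β * γ) * (t ^ 2 + t * (β * γ) + β * γ) + β * γ)) +
      t * (β * γ) * ((t ^ 2 - t - β * γ) + β * γ)) = 0 := by
    apply LinearIndependent.pair_iff.1 hc
    linear_combination (norm := module) hu'
  have h5 : (t⁻¹) ^ 5 ≠ 0 := pow_ne_zero _ (inv_ne_zero ht)
  have q1 := (mul_eq_zero.1 k1.1).resolve_left h5
  have q2 := (mul_eq_zero.1 k1.2).resolve_left h5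
  have q3 := (mul_eq_zero.1 k2.2).resolve_left h5
  exact pp_scalar ht ht1 hβ hγ (by linear_combination -q1) (by linear_combination q2)
    (by linear_combination -q3)

/-- coordinates for two independent functionals on a three-dimensional space -/
lemma dual_pair [FiniteDimensional F Q] (hq : finrank F Q = 3) {f f' : Dual F Q} (hf : f ≠ 0)
    (hff : ∀ k : F, f' ≠ k • f) : (∃ u u' : Q, f u = 1 ∧ f' u = 0 ∧ f u' = 0 ∧ f' u' = 1) ∧
      ∃ z : Q, z ≠ 0 ∧ f z = 0 ∧ f' z = 0 := by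
  constructor
  · obtain ⟨w0, hw0⟩ : ∃ w, f w ≠ 0 := by
      by_contra h
      push Not at h
      exact hf (LinearMap.ext h)
    set u0 := (f w0)⁻¹ • w0 with hu0
    have h1 : f u0 = 1 := by rw [hu0, map_smul, smul_eq_mul, inv_mul_cancel₀ hw0]
    obtain ⟨w, hw⟩ : ∃ w, f' w - f' u0 * f w ≠ 0 := by
      by_contra h
      push Not at h
      exact hff (f' u0) (LinearMap.ext fun w => sub_eq_zero.1 (h w))
    set r := f' w - f' u0 * f w with hr
    set u' := r⁻¹ • (w - f w • u0) with hu'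
    have h2 : f u' = 0 := by
      rw [hu', map_smul, map_sub, map_smul, h1, smul_eq_mul, smul_eq_mul, mul_one, sub_self,
        mul_zero]
    have h3 : f' u' = 1 := by
      rw [hu', map_smul, map_sub, map_smul, smul_eq_mul, smul_eq_mul]
      have : f' w - f w * f' u0 = r := by rw [hr]; ring
      rw [this, inv_mul_cancel₀ hw]
    refine ⟨u0 - f' u0 • u', u', ?_, ?_, h2, h3⟩
    · have e : f (f' u0 • u') = f' u0 * f u' := map_smul _ _ _
      rw [map_sub, e, h1, h2, mul_zero, sub_zero]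
    · have e : f' (f' u0 • u') = f' u0 * f' u' := map_smul _ _ _
      rw [map_sub, e, h3, mul_one, sub_self]
  · have h1 := LinearMap.finrank_range_add_finrank_ker (f.prod f')
    have h2 : finrank F (LinearMap.range (f.prod f')) ≤ 2 := by
      have := Submodule.finrank_le (LinearMap.range (f.prod f'))
      rw [Module.finrank_prod, Module.finrank_self] at this
      omega
    have h3 : LinearMap.ker (f.prod f') ≠ ⊥ := by
      intro h
      rw [h, finrank_bot] at h1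
      omega
    obtain ⟨z, hz, hz0⟩ := Submodule.exists_mem_ne_zero_of_ne_bot h3
    have hz' : (f z, f' z) = ((0, 0) : F × F) := hz
    rw [Prod.mk.injEq] at hz'
    exact ⟨z, hz0, hz'.1, hz'.2⟩

variable {V : Type*} [AddCommGroup V] [Module F V]
variable {G : Subgroup (V ≃ₗ[F] V)}

theorem pp [FiniteDimensional F V] (hR : R3 G) (hd : finrank F V = 5) {L : Submodule F V}
    (hL : finrank F L = 2) {x y : V ≃ₗ[F] V} (hx : x ∈ G) (hy : y ∈ G)
    (hxL : ∀ v, x v ∈ L ↔ v ∈ L) (hxy : ∀ v ∈ L, y v = x v)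
    {X Y : (V ⧸ L) ≃ₗ[F] (V ⧸ L)} (hX : ∀ v, X (L.mkQ v) = L.mkQ (x v))
    (hY : ∀ v, Y (L.mkQ v) = L.mkQ (y v)) {c c' : V ⧸ L} {f f' : Dual F (V ⧸ L)} {t : F}
    (ht : t ≠ 0) (ht1 : t + 1 ≠ 0) (hfc : f c = t - 1) (hfc' : f' c' = t - 1)
    (hXf : ∀ u, X u = u + f u • c) (hYf : ∀ u, Y u = u + f' u • c') :
    f c' = 0 ∨ f' c = 0 ∨ (∃ k : F, c' = k • c) ∨ ∃ k : F, f' = k • f := by
  by_contra hcon
  push Not at hcon
  obtain ⟨hβ, hγ, hcc, hff⟩ := hcon
  have hq : finrank F (V ⧸ L) = 3 := by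
    have := Submodule.finrank_quotient_add_finrank L
    omega
  have hc0 : c ≠ 0 := by
    rintro rfl
    rw [map_zero] at hγ
    exact hγ rfl
  have hf0 : f ≠ 0 := by
    rintro rfl
    exact hβ rfl
  obtain ⟨⟨u, u', h1, h2, h3, h4⟩, z', hz0, hz1, hz2⟩ := dual_pair hq hf0 hff
  have hind' : LinearIndependent F ![c, c'] := by
    rw [LinearIndependent.pair_iff' hc0]
    intro k hk
    exact hcc k hk.symm
  obtain ⟨z, rfl⟩ := L.mkQ_surjective z'
  have hz : z ∉ L := fun h => hz0 ((mk_zero z).2 h)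
  obtain ⟨l1, hl1, hxz⟩ : ∃ l ∈ L, x z = z + l := by
    refine ⟨x z - z, ?_, by abel⟩
    rw [← mk_eq, ← hX, hXf, hz1, zero_smul, add_zero]
  obtain ⟨l2, hl2, hyz⟩ : ∃ l ∈ L, y z = z + l := by
    refine ⟨y z - z, ?_, by abel⟩
    rw [← mk_eq, ← hY, hYf, hz2, zero_smul, add_zero]
  have hyL : ∀ v ∈ L, y v ∈ L := by
    intro v hv
    rw [hxy v hv]
    exact (hxL v).2 hv
  set e1 := x * y * x⁻¹ * y⁻¹ with he1
  set e2 := x * e1 * x⁻¹ with he2
  have f1 : ∀ v, e1 (y (x v)) = x (y v) := by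
    intro v
    rw [he1]
    simp only [apply_mul, inv_apply]
  have f2 : ∀ v, e2 (x v) = x (e1 v) := by
    intro v
    rw [he2]
    simp only [apply_mul, inv_apply]
  have g1 : ∀ v ∈ L, e1 v = v := by
    intro v hv
    have k1 : x (x⁻¹ v) = v := apply_inv x v
    have k2 : x⁻¹ v ∈ L := by rw [← hxL, k1]; exact hv
    have k3 : x (x⁻¹ (x⁻¹ v)) = x⁻¹ v := apply_inv x _
    have k4 : x⁻¹ (x⁻¹ v) ∈ L := by rw [← hxL, k3]; exact k2
    have := f1 (x⁻¹ (x⁻¹ v))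
    rw [k3, hxy _ k2, hxy _ k4, k3, k1] at this
    exact this
  have g2 : ∀ v ∈ L, e2 v = v := by
    intro v hv
    have k1 : x (x⁻¹ v) = v := apply_inv x v
    have k2 : x⁻¹ v ∈ L := by rw [← hxL, k1]; exact hv
    have := f2 (x⁻¹ v)
    rw [g1 _ k2, k1] at this
    exact this
  obtain ⟨l3, hl3, g3⟩ : ∃ l ∈ L, e1 z = z + l := by
    refine ⟨l1 + x l2 - (l2 + y l1), L.sub_mem (L.add_mem hl1 ((hxL _).2 hl2))
      (L.add_mem hl2 (hyL _ hl1)), ?_⟩
    have := f1 z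
    rw [hxz, map_add, hyz, map_add, map_add, map_add, hxz, g1 l2 hl2, g1 _ (hyL _ hl1)] at this
    have h5 : e1 z = e1 z + l2 + y l1 - (l2 + y l1) := by abel
    rw [h5, this]
    abel
  obtain ⟨l4, hl4, g4⟩ : ∃ l ∈ L, e2 z = z + l := by
    refine ⟨x l3, (hxL _).2 hl3, ?_⟩
    have := f2 z
    rw [hxz, map_add, g3, g2 l1 hl1, map_add, hxz] at this
    have h5 : e2 z = e2 z + l1 - l1 := by abel
    rw [h5, this]
    abel
  have hcomm : e1 * e2 = e2 * e1 := by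
    have k1 : (e1 * e2) * (e2 * e1)⁻¹ = 1 := by
      have he1G : e1 ∈ G := G.mul_mem (G.mul_mem (G.mul_mem hx hy) (G.inv_mem hx)) (G.inv_mem hy)
      have he2G : e2 ∈ G := G.mul_mem (G.mul_mem hx he1G) (G.inv_mem hx)
      apply fix3 hR hL (G.mul_mem (G.mul_mem he1G he2G) (G.inv_mem (G.mul_mem he2G he1G)))
        (v := z + l4 + l3)
      · intro v hv
        have k2 : (e2 * e1) v = v := by rw [apply_mul, g1 v hv, g2 v hv]
        have k3 : (e1 * e2) v = v := by rw [apply_mul, g2 v hv, g1 v hv]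
        conv_lhs => rw [← k2]
        rw [mul_inv_apply_of, k3]
      · intro h
        apply hz
        have : z = z + l4 + l3 - l3 - l4 := by abel
        rw [this]
        exact L.sub_mem (L.sub_mem h hl3) hl4
      · have k2 : (e2 * e1) z = z + l4 + l3 := by
          rw [apply_mul, g3, map_add, g4, g2 _ hl3]
        have k3 : (e1 * e2) z = z + l4 + l3 := by
          rw [apply_mul, g4, map_add, g3, g1 _ hl4]
          abel
        conv_lhs => rw [← k2]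
        rw [mul_inv_apply_of, k3]
    exact mul_inv_eq_one.1 k1
  have hXi : ∀ v, X⁻¹ (L.mkQ v) = L.mkQ (x⁻¹ v) := by
    intro v
    have : X (L.mkQ (x⁻¹ v)) = L.mkQ v := by rw [hX, apply_inv]
    rw [← this, inv_apply]
  have hYi : ∀ v, Y⁻¹ (L.mkQ v) = L.mkQ (y⁻¹ v) := by
    intro v
    have : Y (L.mkQ (y⁻¹ v)) = L.mkQ v := by rw [hY, apply_inv]
    rw [← this, inv_apply]
  have hE1 : ∀ v, X (Y (X⁻¹ (Y⁻¹ (L.mkQ v)))) = L.mkQ (e1 v) := by
    intro v
    rw [hYi, hXi, hY, hX, he1]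
    rfl
  have hE2 : ∀ v, X (X (Y (X⁻¹ (Y⁻¹ (X⁻¹ (L.mkQ v)))))) = L.mkQ (e2 v) := by
    intro v
    rw [hXi, hE1, hX, he2]
    rfl
  refine pp_alg ht ht1 hfc hfc' hXf hYf (E1 := fun u => X (Y (X⁻¹ (Y⁻¹ u))))
    (E2 := fun u => X (X (Y (X⁻¹ (Y⁻¹ (X⁻¹ u)))))) (fun u => rfl) (fun u => rfl) ?_ hind'
    h1 h2 h3 h4 hβ hγ
  intro w
  obtain ⟨v, rfl⟩ := L.mkQ_surjective w
  show X (Y (X⁻¹ (Y⁻¹ (X (X (Y (X⁻¹ (Y⁻¹ (X⁻¹ (L.mkQ v)))))))))) =
    X (X (Y (X⁻¹ (Y⁻¹ (X⁻¹ (X (Y (X⁻¹ (Y⁻¹ (L.mkQ v))))))))))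
  rw [hE2, hE1, hE1, hE2, ← apply_mul, ← apply_mul, hcomm]

end Pool.Agent.H95.D4
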